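import Pool.Agent.H637R2.TD.Base

open Set Filter Topology MeasureTheory

namespace Pool.Agent.H637R2.TD

open Pool.Agent.H728R2.OS

private theorem attr_iterate_period {X : Type*} (f : X → X) {q : X} {n : ℕ} (hq : f^[n] q = q)
    (j : ℕ) : f^[j + n] q = f^[j] q := by
  rw [Function.iterate_add_apply, hq]

private theorem attr_iterate_mul {X : Type*} (f : X → X) {q : X} {n : ℕ} (hq : f^[n] q = q)
    (j : ℕ) : f^[n * j] q = q := by
  induction j with
  | zero => rfl
  | succ j ih => rw [Nat.mul_succ, Function.iterate_add_apply, hq, ih]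

private theorem attr_orbit_finite {X : Type*} (f : X → X) {q : X} {n : ℕ} (hn : 0 < n)
    (hq : f^[n] q = q) : (range fun j : ℕ => f^[j] q).Finite := by
  refine (Set.finite_range fun j : Fin n => f^[(j : ℕ)] q).subset ?_
  rintro _ ⟨j, rfl⟩
  refine ⟨⟨j % n, Nat.mod_lt _ hn⟩, ?_⟩
  change f^[j % n] q = f^[j] q
  conv_rhs => rw [← Nat.mod_add_div j n]
  rw [Function.iterate_add_apply, attr_iterate_mul f hq]

private theorem attr_orbit_image {X : Type*} (f : X → X) {q : X} {n : ℕ} (hn : 0 < n)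
    (hq : f^[n] q = q) : f '' (range fun j : ℕ => f^[j] q) = range fun j : ℕ => f^[j] q := by
  ext y
  constructor
  · rintro ⟨_, ⟨j, rfl⟩, rfl⟩
    exact ⟨j + 1, Function.iterate_succ_apply' f j q⟩
  · rintro ⟨j, rfl⟩
    refine ⟨f^[j + (n - 1)] q, ⟨j + (n - 1), rfl⟩, ?_⟩
    rw [← Function.iterate_succ_apply' f]
    have : (j + (n - 1)).succ = j + n := by omega
    rw [this]
    exact attr_iterate_period f hq j

private theorem attr_omega {X : Type*} [MetricSpace X] (f : X → X) {p q : X} {n : ℕ} (hn : 0 < n)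
    (hq : f^[n] q = q) (h : Tendsto (fun k => dist (f^[k] p) (f^[k] q)) atTop (𝓝 0)) :
    omegaLim f p ⊆ range fun j : ℕ => f^[j] q := by
  intro y hy
  by_contra hcon
  have hcl : IsClosed (range fun j : ℕ => f^[j] q) := (attr_orbit_finite f hn hq).isClosed
  have hop : (range fun j : ℕ => f^[j] q)ᶜ ∈ 𝓝 y := hcl.isOpen_compl.mem_nhds hcon
  obtain ⟨δ, hδ, hball⟩ := Metric.mem_nhds_iff.1 hop
  have h1 : ∀ᶠ k in atTop, dist (f^[k] p) (f^[k] q) < δ / 2 :=
    h.eventually (gt_mem_nhds (half_pos hδ))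
  have h2 : ∃ᶠ k in atTop, f^[k] p ∈ Metric.ball y (δ / 2) :=
    mapClusterPt_iff_frequently.1 hy _ (Metric.ball_mem_nhds y (half_pos hδ))
  obtain ⟨k, hk2, hk1⟩ := (h2.and_eventually h1).exists
  have h3 : f^[k] q ∈ Metric.ball y δ := by
    rw [Metric.mem_ball] at hk2 ⊢
    have := dist_triangle (f^[k] q) (f^[k] p) y
    rw [dist_comm (f^[k] q) (f^[k] p)] at this
    linarith
  exact hball h3 ⟨k, rfl⟩

/-- Finitely many attractors from convergence to periodic orbits. -/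
theorem attractors_of_conv {d : ℕ} (f : Torus d ≃ₜ Torus d) (h : Conv f) :
    FinitelyManyAttractors f := by
  obtain ⟨hfin, hconv⟩ := h
  let P : Set (Torus d) := {x | ∃ n, 0 < n ∧ f^[n] x = x}
  let O : Torus d → Set (Torus d) := fun q => range fun j : ℕ => f^[j] q
  let S : Set (Set (Torus d)) := {Λ | Λ ∈ O '' P ∧ 0 < volume (basin f Λ)}
  have hOfin : (O '' P).Finite := Set.Finite.image O hfin
  have hS : S.Finite := hOfin.subset fun Λ hΛ => hΛ.1
  obtain ⟨n, Λ, -, hΛ⟩ := hS.fin_param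
  refine ⟨n, Λ, fun i => ?_, ?_⟩
  · have hi : Λ i ∈ S := hΛ ▸ mem_range_self i
    obtain ⟨⟨q, ⟨m, hm, hq⟩, hqΛ⟩, hpos⟩ := hi
    refine ⟨?_, ?_, hpos⟩
    · rw [← hqΛ]
      exact attr_orbit_image f hm hq
    · rw [← hqΛ]
      exact ⟨q, ⟨0, rfl⟩, subset_closure⟩
  · have hsub : (⋃ i, basin f (Λ i))ᶜ ⊆ ⋃ Λ' ∈ (O '' P) \ S, basin f Λ' := by
      intro p hp
      have hp0 : Tendsto (fun n => dist (f (f^[n] p)) (f^[n + 1] p)) atTop (𝓝 0) := by
        have : (fun n => dist (f (f^[n] p)) (f^[n + 1] p)) = fun _ => 0 := by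
          funext n
          rw [Function.iterate_succ_apply', dist_self]
        rw [this]
        exact tendsto_const_nhds
      obtain ⟨q, m, hm, hq, hlim⟩ := hconv (fun n => f^[n] p) hp0
      have hb : p ∈ basin f (O q) := attr_omega f hm hq hlim
      have hO : O q ∈ O '' P := ⟨q, ⟨m, hm, hq⟩, rfl⟩
      refine mem_iUnion₂.2 ⟨O q, ⟨hO, fun hqS => hp ?_⟩, hb⟩
      rw [← hΛ] at hqS
      obtain ⟨i, hi⟩ := hqS
      exact mem_iUnion.2 ⟨i, hi ▸ hb⟩
    refine measure_mono_null hsub ?_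
    have hcount : ((O '' P) \ S).Countable := (hOfin.subset sdiff_subset).countable
    rw [measure_biUnion_null_iff hcount]
    rintro Λ' ⟨h1, h2⟩
    by_contra h0
    exact h2 ⟨h1, pos_iff_ne_zero.2 h0⟩

end Pool.Agent.H637R2.TD
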