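import Pool.Agent.H637R2.TD.Base
import Pool.Agent.H728R2.OS.S.COV

open Set Filter Topology MeasureTheory

namespace Pool.Agent.H637R2.TD

open Pool.Agent.H728R2.OS

namespace BaseAux

/-- The last `d` coordinates. -/
def tl {α : Type*} {d : ℕ} (x : Fin (d + 1) → α) : Fin d → α := fun i => x i.succ

theorem tl_cons {α : Type*} {d : ℕ} (a : α) (x : Fin d → α) :
    tl (Fin.cons a x : Fin (d + 1) → α) = x := by
  funext i
  simp [tl]

theorem flag_tl {d : ℕ} {r : ℕ∞} (f : Torus (d + 1) ≃ₜ Torus (d + 1))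
    (hf : IsFlagDiffeo r f) (x y : Torus (d + 1)) : tl x = tl y ↔ tl (f x) = tl (f y) := by
  cases d with
  | zero =>
    constructor <;> intro _ <;> funext i <;> exact i.elim0
  | succ d =>
    have h := hf.flag (0 : Fin (d + 1)).succ x y
    have aux : ∀ u v : Torus (d + 1 + 1), tl u = tl v ↔
        ∀ j, (0 : Fin (d + 1)).succ ≤ j → u j = v j := by
      intro u v
      constructor
      · intro huv j hj
        obtain ⟨i, rfl⟩ : ∃ i : Fin (d + 1), j = i.succ := by
          refine ⟨j.pred ?_, (Fin.succ_pred j _).symm⟩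
          rintro rfl
          exact absurd hj (by simp)
        exact congrFun huv i
      · intro huv
        funext i
        exact huv i.succ (Fin.succ_le_succ_iff.mpr (Fin.zero_le i))
    rw [aux, aux]
    exact h

theorem cont_tl {α : Type*} [TopologicalSpace α] {d : ℕ} :
    Continuous (tl : (Fin (d + 1) → α) → (Fin d → α)) :=
  continuous_pi fun i => continuous_apply i.succ

theorem cont_cons {α : Type*} [TopologicalSpace α] {d : ℕ} (a : α) :
    Continuous (fun x : Fin d → α => (Fin.cons a x : Fin (d + 1) → α)) := by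
  refine continuous_pi fun i => ?_
  refine Fin.cases ?_ (fun j => ?_) i
  · simpa using continuous_const
  · simp only [Fin.cons_succ]
    exact continuous_apply j

/-- the base -/
noncomputable def base {d : ℕ} {r : ℕ∞} (f : Torus (d + 1) ≃ₜ Torus (d + 1))
    (hf : IsFlagDiffeo r f) : Torus d ≃ₜ Torus d where
  toFun x := tl (f (Fin.cons 0 x))
  invFun y := tl (f.symm (Fin.cons 0 y))
  left_inv x := by
    have h := (flag_tl f hf (f.symm (Fin.cons 0 (tl (f (Fin.cons 0 x))))) (Fin.cons 0 x)).mpr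
    rw [f.apply_symm_apply, tl_cons, tl_cons] at h
    exact h rfl
  right_inv y := by
    have h := (flag_tl f hf (Fin.cons 0 (tl (f.symm (Fin.cons 0 y)))) (f.symm (Fin.cons 0 y))).mp
    rw [f.apply_symm_apply, tl_cons, tl_cons] at h
    exact h rfl
  continuous_toFun := cont_tl.comp (f.continuous.comp (cont_cons 0))
  continuous_invFun := cont_tl.comp (f.symm.continuous.comp (cont_cons 0))

theorem base_apply {d : ℕ} {r : ℕ∞} (f : Torus (d + 1) ≃ₜ Torus (d + 1))
    (hf : IsFlagDiffeo r f) (x : Torus d) : base f hf x = tl (f (Fin.cons 0 x)) := rfl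

theorem tl_map {d : ℕ} {r : ℕ∞} (f : Torus (d + 1) ≃ₜ Torus (d + 1))
    (hf : IsFlagDiffeo r f) (x : Torus (d + 1)) : tl (f x) = base f hf (tl x) := by
  rw [base_apply]
  refine (flag_tl f hf x (Fin.cons 0 (tl x))).mp ?_
  rw [tl_cons]

theorem tl_map_symm {d : ℕ} {r : ℕ∞} (f : Torus (d + 1) ≃ₜ Torus (d + 1))
    (hf : IsFlagDiffeo r f) (x : Torus (d + 1)) : tl (f.symm x) = (base f hf).symm (tl x) := by
  rw [Homeomorph.eq_symm_apply, ← tl_map, f.apply_symm_apply]

theorem contDiff_consR {d : ℕ} {r : ℕ∞} (a : ℝ) :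
    ContDiff ℝ r (fun z : Fin d → ℝ => (Fin.cons a z : Fin (d + 1) → ℝ)) := by
  rw [contDiff_pi]
  intro i
  refine Fin.cases ?_ (fun j => ?_) i
  · simpa using contDiff_const
  · simp only [Fin.cons_succ]
    exact contDiff_apply ℝ ℝ j

theorem toTorus_cons {d : ℕ} (a : ℝ) (z : Fin d → ℝ) :
    toTorus (Fin.cons a z : Fin (d + 1) → ℝ) =
      (Fin.cons (a : UnitAddCircle) (toTorus z) : Torus (d + 1)) := by
  funext i
  refine Fin.cases ?_ (fun j => ?_) i
  · simp [toTorus]
  · simp [toTorus]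

theorem tl_toTorus {d : ℕ} (z : Fin (d + 1) → ℝ) : tl (toTorus z) = toTorus (tl z) := rfl

theorem contDiff_tl {d : ℕ} {r : ℕ∞} : ContDiff ℝ r (tl : (Fin (d + 1) → ℝ) → (Fin d → ℝ)) := by
  rw [contDiff_pi]
  intro i
  exact contDiff_apply ℝ ℝ i.succ

theorem lift_base {d : ℕ} (F : (Fin (d + 1) → ℝ) → (Fin (d + 1) → ℝ))
    (g : Torus (d + 1) → Torus (d + 1)) (T : Torus d → Torus d) (hF : IsLift toTorus F g)
    (hT : ∀ x, tl (g x) = T (tl x)) :
    IsLift toTorus (fun z : Fin d → ℝ => tl (F (Fin.cons 0 z))) T := by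
  intro z
  have h1 := hF (Fin.cons 0 z)
  have h2 : toTorus (tl (F (Fin.cons 0 z))) = tl (toTorus (F (Fin.cons 0 z))) := rfl
  rw [h2, h1, hT, tl_toTorus, tl_cons]

theorem cons_add_single {d : ℕ} (a : ℝ) (z : Fin d → ℝ) (k : Fin d) (t : ℝ) :
    (Fin.cons a (z + Pi.single k t) : Fin (d + 1) → ℝ) =
      (Fin.cons a z : Fin (d + 1) → ℝ) + Pi.single k.succ t := by
  funext i
  refine Fin.cases ?_ (fun j => ?_) i
  · rw [Pi.add_apply, Pi.single_eq_of_ne (Fin.succ_ne_zero k).symm]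
    simp
  · by_cases hjk : j = k
    · subst hjk
      simp
    · have h1 : j.succ ≠ k.succ := fun h => hjk (Fin.succ_injective _ h)
      simp [Pi.single_eq_of_ne hjk, Pi.single_eq_of_ne h1]

theorem cons_add_single_zero {d : ℕ} (a : ℝ) (z : Fin d → ℝ) (t : ℝ) :
    (Fin.cons (a + t) z : Fin (d + 1) → ℝ) =
      (Fin.cons a z : Fin (d + 1) → ℝ) + Pi.single 0 t := by
  funext i
  refine Fin.cases ?_ (fun j => ?_) i
  · simp
  · simp [Pi.single_eq_of_ne (Fin.succ_ne_zero j)]

end BaseAux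

open BaseAux

/-- The base of a flag preserving diffeomorphism. -/
theorem exists_base {d : ℕ} {r : ℕ∞} (f : Torus (d + 1) ≃ₜ Torus (d + 1))
    (hf : IsFlagDiffeo r f) : ∃ T : Torus d ≃ₜ Torus d, IsFlagDiffeo r T ∧
      ∀ x : Torus (d + 1), (fun i : Fin d => f x i.succ) = T (fun i : Fin d => x i.succ) := by
  refine ⟨base f hf, ⟨?_, ?_, ?_⟩, fun x => tl_map f hf x⟩
  · obtain ⟨⟨F, hF, hFl⟩, G, hG, hGl⟩ := hf.diffeo
    refine ⟨⟨fun z => tl (F (Fin.cons 0 z)), ?_, lift_base F f _ hFl (tl_map f hf)⟩,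
      fun z => tl (G (Fin.cons 0 z)), ?_, lift_base G f.symm _ hGl (tl_map_symm f hf)⟩
    · exact contDiff_tl.comp (hF.comp (contDiff_consR 0))
    · exact contDiff_tl.comp (hG.comp (contDiff_consR 0))
  · intro k x y
    have h := hf.flag k.succ (Fin.cons 0 x) (Fin.cons 0 y)
    have aux : ∀ u v : Torus (d + 1), (∀ j, k.succ ≤ j → u j = v j) ↔
        ∀ j, k ≤ j → tl u j = tl v j := by
      intro u v
      constructor
      · intro huv j hj
        exact huv j.succ (Fin.succ_le_succ_iff.mpr hj)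
      · intro huv j hj
        obtain ⟨i, rfl⟩ : ∃ i : Fin d, j = i.succ := by
          refine ⟨j.pred ?_, (Fin.succ_pred j _).symm⟩
          rintro rfl
          exact absurd hj (by simp)
        exact huv i (Fin.succ_le_succ_iff.mp hj)
    rw [aux, aux, tl_cons, tl_cons] at h
    exact h
  · obtain ⟨F, hF, hFl, hFo⟩ := hf.orient
    refine ⟨fun z => tl (F (Fin.cons 0 z)), cont_tl.comp (hF.comp (cont_cons 0)),
      lift_base F f _ hFl (tl_map f hf), ?_⟩
    intro z k t ht
    have h := hFo (Fin.cons 0 z) k.succ t ht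
    rw [← cons_add_single] at h
    exact h

/-- A `C^r` lift of `f` read in `ℝ^d × ℝ`, increasing in the last variable. -/
theorem exists_lift {d : ℕ} {r : ℕ∞} (f : Torus (d + 1) ≃ₜ Torus (d + 1))
    (hf : IsFlagDiffeo r f) : ∃ F : (Fin d → ℝ) × ℝ → (Fin d → ℝ) × ℝ, ContDiff ℝ r F ∧
      IsLift toTorus1 F (conjSplit f) ∧ ∀ z t, 0 < t → (F z).2 < (F (z.1, z.2 + t)).2 := by
  obtain ⟨⟨F, hF, hFl⟩, -⟩ := hf.diffeo
  obtain ⟨F0, hF0, hF0l, hF0o⟩ := hf.orient
  obtain ⟨c, hc⟩ := lift_unique (isCov_toTorus (d + 1)) hF0 hF.continuous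
    (fun z => (hF0l z).trans (hFl z).symm)
  refine ⟨fun z => splitR d (F (Fin.cons z.2 z.1)), ?_, ?_, ?_⟩
  · have h1 : ContDiff ℝ r (fun z : (Fin d → ℝ) × ℝ => (Fin.cons z.2 z.1 : Fin (d + 1) → ℝ)) := by
      rw [contDiff_pi]
      intro i
      refine Fin.cases ?_ (fun j => ?_) i
      · simpa using contDiff_snd
      · simp only [Fin.cons_succ]
        exact (contDiff_apply ℝ ℝ j).comp contDiff_fst
    have h2 : ContDiff ℝ r (splitR d) := by
      unfold splitR
      refine ContDiff.prodMk ?_ (contDiff_apply ℝ ℝ 0)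
      exact contDiff_tl
    exact h2.comp (hF.comp h1)
  · intro z
    have h1 : toTorus1 (splitR d (F (Fin.cons z.2 z.1))) =
        split d (toTorus (F (Fin.cons z.2 z.1))) := rfl
    have h2 : split d (toTorus (Fin.cons z.2 z.1 : Fin (d + 1) → ℝ)) = toTorus1 z := by
      rw [toTorus_cons]
      show ((Fin.tail (Fin.cons (z.2 : UnitAddCircle) (toTorus z.1) : Torus (d + 1))),
        (Fin.cons (z.2 : UnitAddCircle) (toTorus z.1) : Torus (d + 1)) 0) = toTorus1 z
      rw [Fin.tail_cons, Fin.cons_zero]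
      rfl
    rw [h1, hFl, ← conjSplit_apply, h2]
  · intro z t ht
    show F (Fin.cons z.2 z.1) 0 < F (Fin.cons (z.2 + t) z.1) 0
    have h := hF0o (Fin.cons z.2 z.1) 0 t ht
    rw [← cons_add_single_zero] at h
    rw [hc, hc, Pi.add_apply, Pi.add_apply]
    linarith

end Pool.Agent.H637R2.TD
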