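import Pool.Agent.H637R2.TD.Base
import Pool.Agent.H728R2.OS.S.COV

open Set Filter Topology MeasureTheory

namespace Pool.Agent.H637R2.TD

open Pool.Agent.H728R2.OS

private theorem ckt_dist_circ (a b : ℝ) :
    dist ((a : ℝ) : UnitAddCircle) ((b : ℝ) : UnitAddCircle) ≤ ‖b - a‖ := by
  have h1 : dist ((a : ℝ) : UnitAddCircle) ((b : ℝ) : UnitAddCircle) =
      ‖((a - b : ℝ) : UnitAddCircle)‖ := by
    rw [dist_eq_norm]
    rfl
  have h2 := round_le (a - b) 0
  rw [h1, UnitAddCircle.norm_eq]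
  rw [Int.cast_zero, sub_zero, ← abs_neg (a - b), neg_sub] at h2
  exact h2

private theorem ckt_dist_torus {d : ℕ} (a b : Fin d → ℝ) :
    dist (toTorus a) (toTorus b) ≤ ‖b - a‖ := by
  refine (dist_pi_le_iff (norm_nonneg _)).2 fun i => ?_
  exact (ckt_dist_circ (a i) (b i)).trans (norm_le_pi_norm (b - a) i)

/-- Close diffeomorphisms are close in the uniform distance. -/
theorem dist_of_ckClose {d k : ℕ} {ε : ℝ} {f g : Torus d → Torus d}
    (h : CkClose toTorus k ε f g) (x : Torus d) : dist (f x) (g x) < ε := by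
  obtain ⟨F, G, -, -, lF, lG, hlt⟩ := h
  obtain ⟨z, rfl⟩ := toTorus_surj x
  have h0 := hlt 0 (Nat.zero_le k) z
  rw [norm_iteratedFDeriv_zero] at h0
  rw [← lF z, ← lG z]
  exact (ckt_dist_torus _ _).trans_lt h0

/-- Triangle inequality for `C^k` closeness. -/
theorem ckClose_trans {d k : ℕ} {ε₁ ε₂ : ℝ} {f g h : Torus d → Torus d}
    (h₁ : CkClose toTorus k ε₁ f g) (h₂ : CkClose toTorus k ε₂ g h) :
    CkClose toTorus k (ε₁ + ε₂) f h := by
  obtain ⟨F, G, hF, hG, lF, lG, hlt⟩ := h₁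
  obtain ⟨G', H', hG', hH', lG', lH', hlt'⟩ := h₂
  obtain ⟨c, hc⟩ := lift_unique (isCov_toTorus d) hG'.continuous hG.continuous
    fun z => (lG' z).trans (lG z).symm
  have hc0 : ∀ i, ((c i : ℝ) : UnitAddCircle) = 0 := by
    intro i
    have h1 : (((G 0) i : ℝ) : UnitAddCircle) = (((G' 0) i : ℝ) : UnitAddCircle) :=
      congrFun ((lG 0).trans (lG' 0).symm) i
    rw [hc 0, Pi.add_apply, AddCircle.coe_add] at h1
    exact add_eq_left.1 h1
  refine ⟨F, fun z => H' z + c, hF, hH'.add contDiff_const, lF, fun z => ?_, fun j hj z => ?_⟩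
  · rw [← lH' z]
    funext i
    change (((H' z) i + c i : ℝ) : UnitAddCircle) = (((H' z) i : ℝ) : UnitAddCircle)
    rw [AddCircle.coe_add, hc0, add_zero]
  · have h1 : (fun w => H' w + c - F w) = (fun w => H' w - G' w) + fun w => G w - F w := by
      funext w
      simp only [Pi.add_apply]
      rw [hc w]
      abel
    have e1 : ContDiffAt ℝ j (fun w => H' w - G' w) z :=
      ((hH'.sub hG').of_le (by exact_mod_cast hj)).contDiffAt
    have e2 : ContDiffAt ℝ j (fun w => G w - F w) z :=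
      ((hG.sub hF).of_le (by exact_mod_cast hj)).contDiffAt
    change ‖iteratedFDeriv ℝ j (fun w => H' w + c - F w) z‖ < ε₁ + ε₂
    rw [h1, iteratedFDeriv_add_apply e1 e2]
    refine (norm_add_le _ _).trans_lt ?_
    have := hlt j hj z
    have := hlt' j hj z
    linarith

end Pool.Agent.H637R2.TD
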