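import Pool.Agent.H637R2.TD.Base
import Pool.Agent.H728R2.OS.S.COV

open Set Filter Topology MeasureTheory

namespace Pool.Agent.H637R2.TD

open Pool.Agent.H728R2.OS

/-- Small perturbations of the coordinates give a small map. -/
theorem smallMap_pi {d : ℕ} (k : ℕ) (η : ℝ) (hη : 0 < η) (u : Fin d → ℝ → ℝ)
    (hu : ∀ i, Small k η (u i)) :
    SmallMap k η (fun (z : Fin d → ℝ) (i : Fin d) => u i (z i)) := by
  have hsmooth : ContDiff ℝ (⊤ : ℕ∞) (fun (z : Fin d → ℝ) (i : Fin d) => u i (z i)) :=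
    contDiff_pi.2 fun i => (hu i).smooth.comp (contDiff_apply ℝ ℝ i)
  refine ⟨hsmooth, fun j hj z => ?_⟩
  obtain ⟨M, hM0, hMη, hM⟩ : ∃ M : ℝ, 0 ≤ M ∧ M < η ∧ ∀ i, |iteratedDeriv j (u i) (z i)| ≤ M := by
    rcases isEmpty_or_nonempty (Fin d) with h | h
    · exact ⟨0, le_rfl, hη, fun i => isEmptyElim i⟩
    · obtain ⟨i0, hi0⟩ := Finite.exists_max (fun i => |iteratedDeriv j (u i) (z i)|)
      exact ⟨_, abs_nonneg _, (hu i0).lt j hj (z i0), hi0⟩
  refine lt_of_le_of_lt (ContinuousMultilinearMap.opNorm_le_bound hM0 fun m => ?_) hMη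
  refine (pi_norm_le_iff_of_nonneg (by positivity)).2 fun i => ?_
  have hj' : ((j : ℕ) : WithTop ℕ∞) ≤ ((⊤ : ℕ∞) : WithTop ℕ∞) := by exact_mod_cast le_top
  have h1 : (ContinuousLinearMap.proj (R := ℝ) i : (Fin d → ℝ) →L[ℝ] ℝ) ∘
      (fun (z : Fin d → ℝ) (i : Fin d) => u i (z i)) =
      u i ∘ (ContinuousLinearMap.proj (R := ℝ) i : (Fin d → ℝ) →L[ℝ] ℝ) := rfl
  have h2 := (ContinuousLinearMap.proj (R := ℝ) i : (Fin d → ℝ) →L[ℝ] ℝ).iteratedFDeriv_comp_left
    (f := fun (z : Fin d → ℝ) (i : Fin d) => u i (z i)) (x := z) hsmooth.contDiffAt hj'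
  have h3 := (ContinuousLinearMap.proj (R := ℝ) i : (Fin d → ℝ) →L[ℝ] ℝ).iteratedFDeriv_comp_right
    (hu i).smooth z hj'
  rw [h1, h3] at h2
  have h4 := congrArg (fun g => g m) h2
  have h5 : iteratedFDeriv ℝ j (fun (z : Fin d → ℝ) (i : Fin d) => u i (z i)) z m i =
      iteratedFDeriv ℝ j (u i) (z i) (fun l => m l i) := by
    exact h4.symm
  rw [h5, iteratedFDeriv_apply_eq_iteratedDeriv_mul_prod, norm_smul, mul_comm]
  have h6 : ‖∏ l, m l i‖ ≤ ∏ l, ‖m l‖ := by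
    rw [norm_prod]
    exact Finset.prod_le_prod (fun _ _ => norm_nonneg _) fun l _ => norm_le_pi_norm (m l) i
  exact mul_le_mul (hM i) h6 (norm_nonneg _) hM0

private theorem close_periodic {d : ℕ} {f : Torus d ≃ₜ Torus d} {F : (Fin d → ℝ) → (Fin d → ℝ)}
    (hF : Continuous F) (hlift : IsLift toTorus F f) (v : Fin d → ℝ)
    (hv : ∀ z, toTorus (z + v) = toTorus z) (i : ℕ) (hi : 1 ≤ i) (z : Fin d → ℝ) :
    iteratedFDeriv ℝ i F (z + v) = iteratedFDeriv ℝ i F z := by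
  obtain ⟨c, hc⟩ := lift_unique (isCov_toTorus d) (G := fun z => F (z + v)) hF
    (hF.comp (continuous_id.add continuous_const)) (fun z => by rw [hlift z, hlift (z + v), hv])
  have h1 : (fun z => F (z + v)) = fun z => F z + c := funext hc
  rw [← iteratedFDeriv_comp_add_right i v z, h1]
  obtain ⟨m, rfl⟩ := Nat.exists_eq_add_of_le' hi
  have h2 : (fderiv ℝ fun z => F z + c) = fderiv ℝ F := by
    funext y
    exact fderiv_add_const c
  rw [iteratedFDeriv_succ_eq_comp_right, iteratedFDeriv_succ_eq_comp_right, h2]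

private theorem close_bound {d : ℕ} {r : ℕ∞} {f : Torus d ≃ₜ Torus d}
    {F : (Fin d → ℝ) → (Fin d → ℝ)} (hF : ContDiff ℝ r F) (hlift : IsLift toTorus F f)
    (i : ℕ) (hi : 1 ≤ i) (hir : (i : ℕ∞) ≤ r) : ∃ C : ℝ, ∀ z, ‖iteratedFDeriv ℝ i F z‖ ≤ C := by
  have hcont : Continuous (iteratedFDeriv ℝ i F) :=
    hF.continuous_iteratedFDeriv (by exact_mod_cast hir)
  obtain ⟨C, hC⟩ := (isCompact_Icc (a := (0 : Fin d → ℝ)) (b := 1)).exists_bound_of_continuousOn
    hcont.continuousOn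
  refine ⟨C, fun z => ?_⟩
  set w : Fin d → ℝ := fun l => Int.fract (z l) with hw
  set v : Fin d → ℝ := fun l => (⌊z l⌋ : ℝ) with hv
  have hz : z = w + v := by
    funext l
    simp [hw, hv]
  have hper : ∀ y, toTorus (y + v) = toTorus y := by
    intro y
    funext l
    have : ((y l + ((⌊z l⌋ : ℤ) : ℝ) : ℝ) : UnitAddCircle) = (y l : UnitAddCircle) := by
      rw [AddCircle.coe_add]
      have h0 : (((⌊z l⌋ : ℤ) : ℝ) : UnitAddCircle) = 0 :=
        (AddCircle.coe_eq_zero_iff (1 : ℝ)).2 ⟨⌊z l⌋, by simp⟩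
      rw [h0, add_zero]
    exact this
  rw [hz, close_periodic hF.continuous hlift v hper i hi w]
  apply hC
  constructor
  · intro l; exact Int.fract_nonneg _
  · intro l; exact (Int.fract_lt_one _).le

/-- Composition with a diffeomorphism close to the identity is a small perturbation. -/
theorem close_of_small {d : ℕ} {r : ℕ∞} (f : Torus d ≃ₜ Torus d) (hf : IsDiffeo toTorus r f)
    (k : ℕ) (hk : (k : ℕ∞) ≤ r) (ε : ℝ) (hε : 0 < ε) :
    ∃ η : ℝ, 0 < η ∧ ∀ (U : (Fin d → ℝ) → (Fin d → ℝ)) (Ψ : Torus d ≃ₜ Torus d),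
      SmallMap k η U → IsLift toTorus (fun z => z + U z) Ψ →
        CkClose toTorus k ε f (f.trans Ψ) := by
  obtain ⟨F, hF, hlift⟩ := hf.1
  have hb : ∀ i : ℕ, ∃ C : ℝ, 1 ≤ i → i ≤ k → ∀ z, ‖iteratedFDeriv ℝ i F z‖ ≤ C := by
    intro i
    by_cases h : 1 ≤ i ∧ i ≤ k
    · obtain ⟨C, hC⟩ := close_bound hF hlift i h.1
        (le_trans (by exact_mod_cast h.2) hk)
      exact ⟨C, fun _ _ => hC⟩
    · exact ⟨0, fun h1 h2 => absurd ⟨h1, h2⟩ h⟩
  choose C hC using hb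
  set D : ℝ := 1 + ∑ i ∈ Finset.range (k + 1), |C i| with hD
  have hD1 : 1 ≤ D := by
    have : 0 ≤ ∑ i ∈ Finset.range (k + 1), |C i| := Finset.sum_nonneg fun _ _ => abs_nonneg _
    linarith
  have hDb : ∀ i, 1 ≤ i → i ≤ k → ∀ z, ‖iteratedFDeriv ℝ i F z‖ ≤ D ^ i := by
    intro i h1 h2 z
    have h3 : |C i| ≤ ∑ i ∈ Finset.range (k + 1), |C i| :=
      Finset.single_le_sum (f := fun i => |C i|) (fun _ _ => abs_nonneg _)
        (Finset.mem_range.2 (by omega))
    have h4 : ‖iteratedFDeriv ℝ i F z‖ ≤ D :=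
      (hC i h1 h2 z).trans ((le_abs_self _).trans (by linarith))
    exact h4.trans (le_self_pow₀ hD1 (by omega))
  have hfac : (0 : ℝ) < k.factorial := by positivity
  have hDpos : 0 < D ^ k := by positivity
  refine ⟨ε / (2 * (k.factorial * D ^ k)), by positivity, fun U Ψ hU hΨ => ?_⟩
  set η : ℝ := ε / (2 * (k.factorial * D ^ k)) with hη
  have hηpos : 0 < η := by positivity
  have hFk : ContDiff ℝ (k : ℕ) F := hF.of_le (by exact_mod_cast hk)
  have hUk : ContDiff ℝ (k : ℕ) U := hU.smooth.of_le (by exact_mod_cast le_top)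
  refine ⟨F, fun z => F z + U (F z), hFk, hFk.add (hUk.comp hFk), hlift, ?_, ?_⟩
  · intro z
    show toTorus (F z + U (F z)) = Ψ (f (toTorus z))
    rw [← hlift z]
    exact hΨ (F z)
  · intro j hj z
    have h1 : (fun w => F w + U (F w) - F w) = U ∘ F := by
      funext w
      simp
    rw [h1]
    have h2 := norm_iteratedFDeriv_comp_le (n := j) (N := (k : ℕ)) hUk hFk
      (by exact_mod_cast hj) z (C := η) (D := D)
      (fun i hi => (hU.lt i (hi.trans hj) _).le) (fun i h1 h2 => hDb i h1 (h2.trans hj) z)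
    refine lt_of_le_of_lt h2 ?_
    have h3 : (j.factorial : ℝ) ≤ k.factorial := by exact_mod_cast Nat.factorial_le hj
    have h4 : D ^ j ≤ D ^ k := pow_le_pow_right₀ hD1 hj
    calc (j.factorial : ℝ) * η * D ^ j ≤ k.factorial * η * D ^ k := by gcongr
      _ = ε / 2 := by rw [hη]; field_simp
      _ < ε := by linarith

end Pool.Agent.H637R2.TD
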