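import Pool.Agent.H637R2.TD.Base

open Set Filter Topology MeasureTheory

namespace Pool.Agent.H637R2.TD

open Pool.Agent.H728R2.OS

namespace Conv1Aux

theorem deg_nat (H : ℝ → ℝ) (hd : ∀ y, H (y + 1) = H y + 1) (n : ℕ) (y : ℝ) :
    H (y + n) = H y + n := by
  induction n with
  | zero => simp
  | succ n ih =>
    push_cast
    rw [← add_assoc, hd, ih, add_assoc]

theorem deg_int (H : ℝ → ℝ) (hd : ∀ y, H (y + 1) = H y + 1) (k : ℤ) (y : ℝ) :
    H (y + k) = H y + k := by
  obtain ⟨n, rfl | rfl⟩ := k.eq_nat_or_neg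
  · simpa using deg_nat H hd n y
  · have := deg_nat H hd n (y + -(n : ℝ))
    rw [neg_add_cancel_right] at this
    push_cast
    linarith

end Conv1Aux

/-- Pseudo-orbits of a monotone map of degree one, converging form. -/
theorem real_conv (H : ℝ → ℝ) (hc : Continuous H) (hm : Monotone H)
    (hd : ∀ y, H (y + 1) = H y + 1) (hs : SignChange H 0)
    (hfin : {y | y ∈ Icc (0 : ℝ) 1 ∧ H y = y}.Finite) (y : ℕ → ℝ)
    (hy : Tendsto (fun n => y (n + 1) - H (y n)) atTop (𝓝 0)) :
    ∃ z, H z = z ∧ Tendsto y atTop (𝓝 z) := by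
  obtain ⟨⟨a, ha⟩, ⟨b, hb⟩⟩ := hs
  rw [add_zero] at ha hb
  have hdi := Conv1Aux.deg_int H hd
  have hev : ∀ δ > 0, ∃ n0, ∀ n ≥ n0, |y (n + 1) - H (y n)| < δ := by
    intro δ hδ
    obtain ⟨n0, h0⟩ := (Metric.tendsto_atTop.1 hy) δ hδ
    refine ⟨n0, fun n hn => ?_⟩
    have := h0 n hn
    rwa [Real.dist_eq, sub_zero] at this
  -- boundedness
  obtain ⟨n1, h1⟩ := hev (b - H b) (by linarith)
  obtain ⟨n2, h2⟩ := hev (H a - a) (by linarith)
  have hup : ∃ B : ℝ, ∀ n ≥ n1, y n ≤ B := by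
    obtain ⟨k, hk⟩ := exists_int_gt (y n1 - b)
    refine ⟨b + k, fun n hn => ?_⟩
    induction n, hn using Nat.le_induction with
    | base => linarith
    | succ n hn ih =>
      have e1 := (abs_lt.1 (h1 n hn)).2
      have e2 := hm ih
      rw [hdi] at e2
      linarith
  have hdn : ∃ A : ℝ, ∀ n ≥ n2, A ≤ y n := by
    obtain ⟨k, hk⟩ := exists_int_lt (y n2 - a)
    refine ⟨a + k, fun n hn => ?_⟩
    induction n, hn using Nat.le_induction with
    | base => linarith
    | succ n hn ih =>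
      have e1 := (abs_lt.1 (h2 n hn)).1
      have e2 := hm ih
      rw [hdi] at e2
      linarith
  obtain ⟨B, hB⟩ := hup
  obtain ⟨A, hA⟩ := hdn
  have bu : IsBoundedUnder (· ≤ ·) atTop y :=
    ⟨B, by rw [eventually_map]; exact eventually_atTop.2 ⟨n1, hB⟩⟩
  have bl : IsBoundedUnder (· ≥ ·) atTop y :=
    ⟨A, by rw [eventually_map]; exact eventually_atTop.2 ⟨n2, hA⟩⟩
  have hcount : {x : ℝ | H x = x}.Countable := by
    have : {x : ℝ | H x = x} ⊆ ⋃ k : ℤ, (fun x => x + (k : ℝ)) '' {y | y ∈ Icc (0 : ℝ) 1 ∧ H y = y} := by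
      intro x hx
      refine mem_iUnion.2 ⟨⌊x⌋, x - ⌊x⌋, ⟨⟨?_, ?_⟩, ?_⟩, by simp⟩
      · have := Int.floor_le x
        linarith
      · have := (Int.lt_floor_add_one x).le
        linarith
      · have := hdi (-⌊x⌋) x
        push_cast at this
        rw [← sub_eq_add_neg, ← sub_eq_add_neg] at this
        rw [this, hx]
    exact (countable_iUnion fun k => (hfin.countable.image _)).mono this
  have hle : liminf y atTop ≤ limsup y atTop := liminf_le_limsup bu bl
  have heq : liminf y atTop = limsup y atTop := by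
    by_contra hne
    have hlt := lt_of_le_of_ne hle hne
    obtain ⟨c, hcF, hc1, hc2⟩ := (hcount.dense_compl ℝ).exists_between hlt
    have hcF' : H c ≠ c := hcF
    rcases lt_or_gt_of_ne hcF' with h | h
    · -- H c < c
      obtain ⟨n3, h3⟩ := hev (c - H c) (by linarith)
      have hf : ∃ᶠ n in atTop, y n < c :=
        frequently_lt_of_liminf_lt (hu := bu.isCoboundedUnder_ge) hc1
      obtain ⟨n4, hn4, h4⟩ := (frequently_atTop.1 hf) n3
      have h5 : ∀ n ≥ n4, y n ≤ c := by
        intro n hn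
        induction n, hn using Nat.le_induction with
        | base => exact h4.le
        | succ n hn ih =>
          have e1 := (abs_lt.1 (h3 n (hn4.trans hn))).2
          have e2 := hm ih
          linarith
      have : limsup y atTop ≤ c := limsup_le_of_le (hf := bl.isCoboundedUnder_le)
        (eventually_atTop.2 ⟨n4, h5⟩)
      linarith
    · -- c < H c
      obtain ⟨n3, h3⟩ := hev (H c - c) (by linarith)
      have hf : ∃ᶠ n in atTop, c < y n :=
        frequently_lt_of_lt_limsup (hu := bl.isCoboundedUnder_le) hc2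
      obtain ⟨n4, hn4, h4⟩ := (frequently_atTop.1 hf) n3
      have h5 : ∀ n ≥ n4, c ≤ y n := by
        intro n hn
        induction n, hn using Nat.le_induction with
        | base => exact h4.le
        | succ n hn ih =>
          have e1 := (abs_lt.1 (h3 n (hn4.trans hn))).1
          have e2 := hm ih
          linarith
      have : c ≤ liminf y atTop := le_liminf_of_le (hf := bu.isCoboundedUnder_ge)
        (eventually_atTop.2 ⟨n4, h5⟩)
      linarith
  have hconv : Tendsto y atTop (𝓝 (limsup y atTop)) :=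
    tendsto_of_liminf_eq_limsup heq rfl bu bl
  refine ⟨_, ?_, hconv⟩
  have t1 : Tendsto (fun n => y (n + 1)) atTop (𝓝 (limsup y atTop)) :=
    (tendsto_add_atTop_iff_nat 1).2 hconv
  have t2 : Tendsto (fun n => H (y n)) atTop (𝓝 (H (limsup y atTop))) :=
    (hc.tendsto _).comp hconv
  have t3 := t1.sub t2
  have := tendsto_nhds_unique t3 hy
  linarith

/-- Pseudo-orbits of a circle map with a sign change converge to fixed points. -/
theorem circle_conv (h : Circ → Circ) (H : ℝ → ℝ)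
    (hl : ∀ y : ℝ, ((H y : ℝ) : UnitAddCircle) = h (y : UnitAddCircle))
    (hc : Continuous H) (hm : Monotone H) (hd : ∀ y, H (y + 1) = H y + 1) (m : ℤ)
    (hs : SignChange H m) (hfin : {y | y ∈ Icc (0 : ℝ) 1 ∧ H y = y + m}.Finite) (y : ℕ → Circ)
    (hy : Tendsto (fun n => dist (h (y n)) (y (n + 1))) atTop (𝓝 0)) :
    ∃ z : ℝ, H z = z + m ∧
      Tendsto (fun n => dist (y n) ((z : ℝ) : UnitAddCircle)) atTop (𝓝 0) := by
  have step : ∀ (n : ℕ) (s : ℝ), ((s : ℝ) : UnitAddCircle) = y n →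
      ∃ s' : ℝ, ((s' : ℝ) : UnitAddCircle) = y (n + 1) ∧
        |s' - (H s - m)| ≤ dist (h (y n)) (y (n + 1)) := by
    intro n s hs'
    obtain ⟨r, hr⟩ := QuotientAddGroup.mk_surjective (y (n + 1))
    have hr' : ((r : ℝ) : UnitAddCircle) = y (n + 1) := hr
    have hms : (((m : ℤ) : ℝ) : UnitAddCircle) = 0 := by
      have := AddCircle.coe_period (1 : ℝ)
      rw [show ((m : ℤ) : ℝ) = m • (1 : ℝ) by simp, AddCircle.coe_zsmul, this, smul_zero]
    have hk : ∀ k : ℤ, (((k : ℤ) : ℝ) : UnitAddCircle) = 0 := by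
      intro k
      have := AddCircle.coe_period (1 : ℝ)
      rw [show ((k : ℤ) : ℝ) = k • (1 : ℝ) by simp, AddCircle.coe_zsmul, this, smul_zero]
    refine ⟨r + round (H s - m - r), ?_, ?_⟩
    · rw [AddCircle.coe_add, hk, add_zero, hr']
    · have e1 : h (y n) = ((H s - m : ℝ) : UnitAddCircle) := by
        rw [AddCircle.coe_sub, hk, sub_zero, hl, hs']
      rw [e1, ← hr', dist_eq_norm, ← AddCircle.coe_sub, UnitAddCircle.norm_eq]
      rw [← abs_neg]
      apply le_of_eq
      congr 1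
      ring
  choose f hf1 hf2 using step
  obtain ⟨t0, ht0⟩ := QuotientAddGroup.mk_surjective (y 0)
  let T : (n : ℕ) → {s : ℝ // ((s : ℝ) : UnitAddCircle) = y n} := fun n =>
    Nat.rec ⟨t0, ht0⟩ (fun n s => ⟨f n s.1 s.2, hf1 n s.1 s.2⟩) n
  have hT : ∀ n, |(T (n + 1)).1 - (H (T n).1 - m)| ≤ dist (h (y n)) (y (n + 1)) :=
    fun n => hf2 n (T n).1 (T n).2
  obtain ⟨z, hz1, hz2⟩ := real_conv (fun x => H x - m) (hc.sub continuous_const)
    (fun x x' hx => sub_le_sub_right (hm hx) _) (fun x => by rw [hd]; ring)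
    ⟨by obtain ⟨a, ha⟩ := hs.1; exact ⟨a, by linarith⟩,
     by obtain ⟨b, hb⟩ := hs.2; exact ⟨b, by linarith⟩⟩
    (by
      refine hfin.subset ?_
      rintro x ⟨hx1, hx2⟩
      exact ⟨hx1, by linarith⟩) (fun n => (T n).1)
    (squeeze_zero_norm (fun n => by rw [Real.norm_eq_abs]; exact hT n) hy)
  refine ⟨z, by linarith, ?_⟩
  have hzz : Tendsto (fun n => |(T n).1 - z|) atTop (𝓝 0) := by
    have := (hz2.sub_const z).abs
    simpa using this
  refine squeeze_zero (fun n => dist_nonneg) (fun n => ?_) hzz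
  have e := (T n).2
  calc dist (y n) ((z : ℝ) : UnitAddCircle)
      = dist (((T n).1 : ℝ) : UnitAddCircle) ((z : ℝ) : UnitAddCircle) :=
        congrArg (fun w => dist w ((z : ℝ) : UnitAddCircle)) e.symm
    _ ≤ |(T n).1 - z| := by
        rw [dist_eq_norm, ← AddCircle.coe_sub, UnitAddCircle.norm_eq]
        exact (round_le _ 0).trans (by simp)

end Pool.Agent.H637R2.TD
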