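import Pool.Agent.H637R2.TD.Base

open Set Filter Topology MeasureTheory

namespace Pool.Agent.H637R2.TD

open Pool.Agent.H728R2.OS

/-- The state (chain number, position in the chain). -/
private def crpState (n : ℕ → ℕ) : ℕ → ℕ × ℕ
  | 0 => (0, 0)
  | t + 1 => if (crpState n t).2 + 1 < n (crpState n t).1 then
      ((crpState n t).1, (crpState n t).2 + 1) else ((crpState n t).1 + 1, 0)

private theorem crp_succ (n : ℕ → ℕ) (t : ℕ) : crpState n (t + 1) =
    if (crpState n t).2 + 1 < n (crpState n t).1 then
      ((crpState n t).1, (crpState n t).2 + 1) else ((crpState n t).1 + 1, 0) := rfl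

private theorem crp_inv (n : ℕ → ℕ) (hn : ∀ i, 0 < n i) (t : ℕ) :
    (crpState n t).2 < n (crpState n t).1 := by
  induction t with
  | zero => exact hn 0
  | succ t ih =>
    rw [crp_succ]
    split_ifs with h
    · exact h
    · exact hn _

private theorem crp_le (n : ℕ → ℕ) (t : ℕ) : (crpState n t).1 ≤ t := by
  induction t with
  | zero => exact le_refl _
  | succ t ih =>
    rw [crp_succ]
    split_ifs with h
    · exact ih.trans (Nat.le_succ _)
    · exact Nat.succ_le_succ ih

private theorem crp_mono (n : ℕ → ℕ) : Monotone fun t => (crpState n t).1 := by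
  refine monotone_nat_of_le_succ fun t => ?_
  show (crpState n t).1 ≤ (crpState n (t + 1)).1
  rw [crp_succ]
  split_ifs with h
  · exact le_refl _
  · exact Nat.le_succ _

private theorem crp_run (n : ℕ → ℕ) (i t : ℕ) (ht : crpState n t = (i, 0)) (j : ℕ) (hj : j < n i) :
    crpState n (t + j) = (i, j) := by
  induction j with
  | zero => exact ht
  | succ j ih =>
    rw [← add_assoc, crp_succ, ih (by omega)]
    simp only
    rw [if_pos hj]

private theorem crp_hit (n : ℕ → ℕ) (hn : ∀ i, 0 < n i) (i : ℕ) : ∃ t, crpState n t = (i, 0) := by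
  induction i with
  | zero => exact ⟨0, rfl⟩
  | succ i ih =>
    obtain ⟨t, ht⟩ := ih
    refine ⟨t + (n i - 1) + 1, ?_⟩
    have := hn i
    rw [crp_succ, crp_run n i t ht (n i - 1) (by omega)]
    simp only
    rw [if_neg (by omega)]

private theorem crp_tendsto (n : ℕ → ℕ) (hn : ∀ i, 0 < n i) :
    Tendsto (fun t => (crpState n t).1) atTop atTop := by
  refine tendsto_atTop_atTop_of_monotone (crp_mono n) fun i => ?_
  obtain ⟨t, ht⟩ := crp_hit n hn i
  exact ⟨t, by rw [ht]⟩

/-- Chain recurrent points are periodic. -/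
theorem chainRec_of_conv {X : Type*} [MetricSpace X] (f : X ≃ₜ X) (h : Conv f) :
    ChainRec f ⊆ Per f := by
  intro x hx
  have hx' : ∀ i : ℕ, ∃ (n : ℕ) (c : ℕ → X), 0 < n ∧ c 0 = x ∧ c n = x ∧
      ∀ j < n, dist (f (c j)) (c (j + 1)) < 1 / ((i : ℝ) + 1) := fun i =>
    hx (1 / ((i : ℝ) + 1)) (by positivity)
  choose n c hn hc0 hcn hc using hx'
  obtain ⟨p, m, hm, hp, hlim⟩ := h.2 (fun t => c (crpState n t).1 (crpState n t).2) (by
    have hb : ∀ t, dist (f (c (crpState n t).1 (crpState n t).2))
        (c (crpState n (t + 1)).1 (crpState n (t + 1)).2) ≤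
        1 / (((crpState n t).1 : ℝ) + 1) := by
      intro t
      have hi := crp_inv n hn t
      rw [crp_succ]
      split_ifs with h1
      · exact (hc _ _ hi).le
      · have h2 : (crpState n t).2 + 1 = n (crpState n t).1 := by omega
        have h3 := hc _ _ hi
        rw [h2, hcn] at h3
        simp only
        rw [hc0]
        exact h3.le
    refine squeeze_zero (fun t => dist_nonneg) hb ?_
    exact tendsto_one_div_add_atTop_nhds_zero_nat.comp (crp_tendsto n hn))
  have hper : ∀ t, f^[t] p = f^[t % m] p := by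
    intro t
    conv_lhs => rw [← Nat.mod_add_div t m, Function.iterate_add_apply, Function.iterate_mul,
      Function.iterate_fixed hp]
  by_contra hcon
  have hne : ∀ j, x ≠ f^[j] p := by
    rintro j rfl
    refine hcon ⟨m, hm, ?_⟩
    rw [← Function.iterate_add_apply, add_comm, Function.iterate_add_apply, hp]
  obtain ⟨j0, -, hj0⟩ := Finset.exists_min_image (Finset.range m) (fun j => dist x (f^[j] p))
    ⟨0, Finset.mem_range.2 hm⟩
  have hpos : 0 < dist x (f^[j0] p) := dist_pos.2 (hne j0)
  have hev := hlim.eventually (gt_mem_nhds hpos)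
  obtain ⟨T, hT⟩ := eventually_atTop.1 hev
  obtain ⟨t, ht⟩ := crp_hit n hn T
  have hTt : T ≤ t := by
    have := crp_le n t
    rw [ht] at this
    exact this
  have h1 := hT t hTt
  simp only [ht, hc0] at h1
  rw [hper t] at h1
  have h2 := hj0 (t % m) (Finset.mem_range.2 (Nat.mod_lt _ hm))
  exact absurd h1 (not_lt.2 h2)

end Pool.Agent.H637R2.TD
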