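import Pool.Agent.H637R2.TD.Base

open Set Filter Topology MeasureTheory

namespace Pool.Agent.H637R2.TD

open Pool.Agent.H728R2.OS

namespace PigeonAux

lemma g_mono (g : ℕ → ℝ → ℝ) (N : ℕ) (hg : IsCycle g N) (i : ℕ) : StrictMono (g i) :=
  strictMono_of_deriv_pos (hg.dpos i)

lemma itr_mono_rot (g : ℕ → ℝ → ℝ) (N : ℕ) (hg : IsCycle g N) (Φ : ℝ → ℝ) (hΦ : StrictMono Φ)
    (n : ℕ) (θ θ' : ℝ) (h : θ ≤ θ') (y : ℝ) :
    itr (fun y => Φ y + θ) g n y ≤ itr (fun y => Φ y + θ') g n y := by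
  induction n with
  | zero => exact le_rfl
  | succ n ih =>
    show Φ (g n (itr (fun y => Φ y + θ) g n y)) + θ ≤ Φ (g n (itr (fun y => Φ y + θ') g n y)) + θ'
    have h1 := hΦ.monotone ((g_mono g N hg n).monotone ih)
    linarith

lemma itr_per (Ψ : ℝ → ℝ) (g : ℕ → ℝ → ℝ) (N : ℕ) (hg : IsCycle g N) (k n : ℕ) (y : ℝ) :
    itr Ψ g (N * k + n) y = itr Ψ g n (itr Ψ g (N * k) y) := by
  have hp : ∀ k i, g (N * k + i) = g i := by
    intro k
    induction k with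
    | zero => intro i; simp
    | succ k ih =>
      intro i
      have : N * (k + 1) + i = (N * k + i) + N := by ring
      rw [this, hg.per, ih]
  induction n with
  | zero => rfl
  | succ n ih =>
    show Ψ (g (N * k + n) (itr Ψ g (N * k + n) y)) = Ψ (g n (itr Ψ g n (itr Ψ g (N * k) y)))
    rw [ih, hp]

lemma itr_add_int (Ψ : ℝ → ℝ) (hΨ : ∀ y, Ψ (y + 1) = Ψ y + 1) (g : ℕ → ℝ → ℝ) (N : ℕ)
    (hg : IsCycle g N) (n : ℕ) (y : ℝ) : itr Ψ g n (y + 1) = itr Ψ g n y + 1 := by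
  induction n with
  | zero => rfl
  | succ n ih =>
    show Ψ (g n (itr Ψ g n (y + 1))) = Ψ (g n (itr Ψ g n y)) + 1
    rw [ih, hg.deg, hΨ]

lemma itr_cont_rot (g : ℕ → ℝ → ℝ) (N : ℕ) (hg : IsCycle g N) (Φ : ℝ → ℝ) (hΦc : Continuous Φ)
    (n : ℕ) (y : ℝ) : Continuous (fun θ : ℝ => itr (fun y => Φ y + θ) g n y) := by
  induction n with
  | zero => exact continuous_const
  | succ n ih =>
    show Continuous (fun θ : ℝ => Φ (g n (itr (fun y => Φ y + θ) g n y)) + θ)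
    exact (hΦc.comp ((hg.diff n).continuous.comp ih)).add continuous_id

end PigeonAux

/-- Monotonicity of `itr` in the rotation: slope at least one. -/
theorem itr_rot_ge (g : ℕ → ℝ → ℝ) (N : ℕ) (hg : IsCycle g N) (Φ : ℝ → ℝ) (hΦ : StrictMono Φ)
    (n : ℕ) (hn : 0 < n) (θ θ' : ℝ) (h : θ ≤ θ') (y : ℝ) :
    itr (fun y => Φ y + θ) g n y + (θ' - θ) ≤ itr (fun y => Φ y + θ') g n y := by
  obtain ⟨n, rfl⟩ : ∃ m, n = m + 1 := ⟨n - 1, by omega⟩
  show Φ (g n (itr (fun y => Φ y + θ) g n y)) + θ + (θ' - θ) ≤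
    Φ (g n (itr (fun y => Φ y + θ') g n y)) + θ'
  have h1 := hΦ.monotone ((PigeonAux.g_mono g N hg n).monotone
    (PigeonAux.itr_mono_rot g N hg Φ hΦ n θ θ' h y))
  linarith

/-- A small rotation creates a periodic point. -/
theorem pigeon (g : ℕ → ℝ → ℝ) (N : ℕ) (hg : IsCycle g N) (Φ : ℝ → ℝ) (hΦ : StrictMono Φ)
    (hΦc : Continuous Φ) (hΦd : ∀ y, Φ (y + 1) = Φ y + 1) (δ : ℝ) (hδ : 0 < δ) :
    ∃ θ : ℝ, |θ| ≤ δ ∧ ∃ (j : ℕ) (m : ℤ) (z : ℝ), 0 < j ∧
      itr (fun y => Φ y + θ) g (N * j) z = z + m := by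
  set Ψ : ℝ → ℝ := fun y => Φ y + 0 with hΨ
  set w : ℕ → ℝ := fun i => itr Ψ g (N * i) 0 with hw
  obtain ⟨K, hK⟩ := exists_nat_gt (1 / δ)
  have hKpos : (0 : ℝ) < K := lt_trans (by positivity) hK
  have hK0 : 0 < K := by exact_mod_cast hKpos
  have hKδ : 1 / (K : ℝ) < δ := by
    rw [div_lt_iff₀ hKpos]
    rw [div_lt_iff₀ hδ] at hK
    linarith
  -- pigeonhole
  obtain ⟨k, hk, l, hl, hkl, hfl⟩ : ∃ k ∈ Finset.range (K + 1), ∃ l ∈ Finset.range (K + 1),
      k ≠ l ∧ ⌊(K : ℝ) * Int.fract (w k)⌋ = ⌊(K : ℝ) * Int.fract (w l)⌋ := by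
    apply Finset.exists_ne_map_eq_of_card_lt_of_maps_to (t := Finset.Ico (0 : ℤ) K)
    · simp
    · intro i _
      simp only [Finset.coe_Ico, Set.mem_Ico]
      constructor
      · apply Int.floor_nonneg.mpr
        have := Int.fract_nonneg (w i)
        positivity
      · rw [Int.floor_lt]
        have := Int.fract_lt_one (w i)
        have h2 : (K : ℝ) * Int.fract (w i) < K * 1 := mul_lt_mul_of_pos_left this hKpos
        simpa using h2
  have main : ∀ k l : ℕ, k < l → ⌊(K : ℝ) * Int.fract (w k)⌋ = ⌊(K : ℝ) * Int.fract (w l)⌋ →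
      ∃ θ : ℝ, |θ| ≤ δ ∧ ∃ (j : ℕ) (m : ℤ) (z : ℝ), 0 < j ∧
        itr (fun y => Φ y + θ) g (N * j) z = z + m := by
    intro k l hkl hfl
    have hd : |(K : ℝ) * Int.fract (w k) - (K : ℝ) * Int.fract (w l)| < 1 :=
      Int.abs_sub_lt_one_of_floor_eq_floor hfl
    set m : ℤ := ⌊w l⌋ - ⌊w k⌋ with hm
    have hclose : |w l - w k - m| ≤ δ := by
      have h1 : w l - w k - m = Int.fract (w l) - Int.fract (w k) := by
        rw [hm]; push_cast; unfold Int.fract; ring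
      rw [h1]
      have h2 : |(K : ℝ) * (Int.fract (w l) - Int.fract (w k))| < 1 := by
        rw [mul_sub, abs_sub_comm]; exact hd
      rw [abs_mul, abs_of_pos hKpos] at h2
      have h3 : |Int.fract (w l) - Int.fract (w k)| < 1 / K := by
        rw [lt_div_iff₀ hKpos]; linarith
      linarith
    obtain ⟨j, hj⟩ : ∃ j, l = k + j := ⟨l - k, by omega⟩
    have hj0 : 0 < j := by omega
    have hNj : 0 < N * j := Nat.mul_pos hg.pos hj0
    have hwl : w l = itr Ψ g (N * j) (w k) := by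
      rw [hw]
      simp only
      rw [hj, mul_add, PigeonAux.itr_per Ψ g N hg]
    set A : ℝ → ℝ := fun θ => itr (fun y => Φ y + θ) g (N * j) (w k) - w k - m with hA
    have hA0 : |A 0| ≤ δ := by
      simp only [hA]
      rw [← hwl]
      exact hclose
    have hAc : Continuous A :=
      ((PigeonAux.itr_cont_rot g N hg Φ hΦc (N * j) (w k)).sub continuous_const).sub continuous_const
    have h1 : A 0 + δ ≤ A δ := by
      have := itr_rot_ge g N hg Φ hΦ (N * j) hNj 0 δ hδ.le (w k)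
      simp only [hA]
      linarith
    have h2 : A (-δ) + δ ≤ A 0 := by
      have := itr_rot_ge g N hg Φ hΦ (N * j) hNj (-δ) 0 (by linarith) (w k)
      simp only [hA]
      linarith
    have h3 := abs_le.mp hA0
    have h4 : (0 : ℝ) ∈ Icc (A (-δ)) (A δ) := ⟨by linarith, by linarith⟩
    obtain ⟨θ, hθ, hAθ⟩ := intermediate_value_Icc (by linarith : -δ ≤ δ) hAc.continuousOn h4
    refine ⟨θ, abs_le.mpr hθ, j, m, w k, hj0, ?_⟩
    simp only [hA] at hAθ
    linarith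
  rcases lt_or_gt_of_ne hkl with h | h
  · exact main k l h hfl
  · exact main l k h hfl.symm

end Pool.Agent.H637R2.TD
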