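import Pool.Agent.H637R2.TD.Base

open Set Filter Topology MeasureTheory

namespace Pool.Agent.H637R2.TD

open Pool.Agent.H728R2.OS

private theorem rob_g_mono {g : ℕ → ℝ → ℝ} {N : ℕ} (hg : IsCycle g N) (i : ℕ) :
    StrictMono (g i) := strictMono_of_deriv_pos (hg.dpos i)

private theorem rob_le_right {g : ℕ → ℝ → ℝ} {N : ℕ} (hg : IsCycle g N) (Φ₁ Φ₂ : ℝ → ℝ)
    (h : ∀ y, Φ₁ y ≤ Φ₂ y) (h2 : Monotone Φ₂) (n : ℕ) (y : ℝ) :
    itr Φ₁ g n y ≤ itr Φ₂ g n y := by
  induction n with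
  | zero => exact le_refl _
  | succ n ih =>
    exact (h _).trans (h2 ((rob_g_mono hg n).monotone ih))

private theorem rob_le_left {g : ℕ → ℝ → ℝ} {N : ℕ} (hg : IsCycle g N) (Φ₁ Φ₂ : ℝ → ℝ)
    (h : ∀ y, Φ₁ y ≤ Φ₂ y) (h1 : Monotone Φ₁) (n : ℕ) (y : ℝ) :
    itr Φ₁ g n y ≤ itr Φ₂ g n y := by
  induction n with
  | zero => exact le_refl _
  | succ n ih =>
    exact (h1 ((rob_g_mono hg n).monotone ih)).trans (h _)

private theorem rob_cont {g : ℕ → ℝ → ℝ} {N : ℕ} (hg : IsCycle g N) (Φ : ℝ → ℝ)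
    (hΦc : Continuous Φ) (n : ℕ) (y : ℝ) :
    Continuous fun c : ℝ => itr (fun y => Φ y + c) g n y := by
  induction n with
  | zero => exact continuous_const
  | succ n ih =>
    show Continuous fun c : ℝ => Φ (g n (itr (fun y => Φ y + c) g n y)) + c
    exact (hΦc.comp ((hg.diff n).continuous.comp ih)).add continuous_id

/-- The sign change of a return map persists under uniformly small perturbations. -/
theorem sign_robust (g : ℕ → ℝ → ℝ) (N : ℕ) (hg : IsCycle g N) (Φ : ℝ → ℝ)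
    (hΦ : StrictMono Φ) (hΦc : Continuous Φ) (n : ℕ) (m : ℝ) (hs : SignChange (itr Φ g n) m) :
    ∃ δ : ℝ, 0 < δ ∧ ∀ Φ' : ℝ → ℝ, (∀ y, |Φ' y - Φ y| ≤ δ) → SignChange (itr Φ' g n) m := by
  obtain ⟨⟨a, ha⟩, ⟨b, hb⟩⟩ := hs
  have h0 : itr (fun y => Φ y + 0) g n = itr Φ g n := by
    congr 1
    funext y
    exact add_zero _
  have e1 : ∀ᶠ c in 𝓝 (0 : ℝ), a + m < itr (fun y => Φ y + c) g n a := by
    refine (rob_cont hg Φ hΦc n a).continuousAt.eventually (lt_mem_nhds ?_)
    show a + m < itr (fun y => Φ y + 0) g n a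
    rw [h0]; exact ha
  have e2 : ∀ᶠ c in 𝓝 (0 : ℝ), itr (fun y => Φ y + c) g n b < b + m := by
    refine (rob_cont hg Φ hΦc n b).continuousAt.eventually (gt_mem_nhds ?_)
    show itr (fun y => Φ y + 0) g n b < b + m
    rw [h0]; exact hb
  obtain ⟨ε, hε, h⟩ := Metric.eventually_nhds_iff.1 (e1.and e2)
  refine ⟨ε / 2, by positivity, fun Φ' hΦ' => ?_⟩
  have hm : ∀ c : ℝ, Monotone fun y => Φ y + c := fun c => hΦ.monotone.add_const c
  have hd1 : dist (-(ε / 2)) (0 : ℝ) < ε := by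
    rw [Real.dist_eq, sub_zero, abs_neg, abs_of_pos (by positivity)]
    linarith
  have hd2 : dist (ε / 2) (0 : ℝ) < ε := by
    rw [Real.dist_eq, sub_zero, abs_of_pos (by positivity)]
    linarith
  refine ⟨⟨a, ?_⟩, ⟨b, ?_⟩⟩
  · refine lt_of_lt_of_le (h hd1).1 ?_
    refine rob_le_left hg _ _ (fun y => ?_) (hm _) n a
    have := abs_le.1 (hΦ' y)
    show Φ y + -(ε / 2) ≤ Φ' y
    linarith [this.1]
  · refine lt_of_le_of_lt ?_ (h hd2).2
    refine rob_le_right hg _ _ (fun y => ?_) (hm _) n b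
    have := abs_le.1 (hΦ' y)
    show Φ' y ≤ Φ y + (ε / 2)
    linarith [this.2]

/-- A simple solution gives a sign change, and simple solutions are finite in number modulo one. -/
theorem finite_of_simple (H : ℝ → ℝ) (hH : Differentiable ℝ H) (m : ℝ) (z : ℝ)
    (hz : H z = z + m) (hs : ∀ y, H y = y + m → deriv H y ≠ 1) :
    SignChange H m ∧ {y | y ∈ Icc (0 : ℝ) 1 ∧ H y = y + m}.Finite := by
  have hD : ∀ y, HasDerivAt (fun y => H y - y - m) (deriv H y - 1) y := fun y =>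
    (((hH y).hasDerivAt).sub (hasDerivAt_id y)).sub_const m
  have hne : ∀ y, H y = y + m → deriv H y - 1 ≠ 0 := fun y hy => sub_ne_zero.2 (hs y hy)
  refine ⟨⟨?_, ?_⟩, ?_⟩
  · by_contra hcon
    push Not at hcon
    have hmax : IsLocalMax (fun y => H y - y - m) z := by
      refine Filter.Eventually.of_forall fun y => ?_
      have := hcon y
      show H y - y - m ≤ H z - z - m
      rw [hz]
      linarith
    exact hne z hz (hmax.hasDerivAt_eq_zero (hD z))
  · by_contra hcon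
    push Not at hcon
    have hmin : IsLocalMin (fun y => H y - y - m) z := by
      refine Filter.Eventually.of_forall fun y => ?_
      have := hcon y
      show H z - z - m ≤ H y - y - m
      rw [hz]
      linarith
    exact hne z hz (hmin.hasDerivAt_eq_zero (hD z))
  · by_contra hinf
    have hinf' : {y | y ∈ Icc (0 : ℝ) 1 ∧ H y = y + m}.Infinite := hinf
    obtain ⟨y0, hy0, hacc⟩ := hinf'.exists_accPt_of_subset_isCompact isCompact_Icc
      (fun y hy => hy.1)
    have hclosed : IsClosed {y | y ∈ Icc (0 : ℝ) 1 ∧ H y = y + m} :=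
      isClosed_Icc.inter (isClosed_eq hH.continuous (continuous_id.add continuous_const))
    have hmem : y0 ∈ {y | y ∈ Icc (0 : ℝ) 1 ∧ H y = y + m} := by
      rw [← hclosed.closure_eq]
      exact mem_closure_iff_clusterPt.2 hacc.clusterPt
    have hev : ∀ᶠ y in 𝓝[≠] y0, H y - y - m ≠ 0 :=
      (hD y0).eventually_ne (hne y0 hmem.2)
    rw [accPt_iff_frequently] at hacc
    refine hacc ?_
    rw [eventually_nhdsWithin_iff] at hev
    filter_upwards [hev] with y hy hy2
    exact hy hy2.1 (by rw [hy2.2.2]; ring)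

end Pool.Agent.H637R2.TD
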