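import Pool.Agent.H637R2.TD.Base

open Set Filter Topology MeasureTheory

namespace Pool.Agent.H637R2.TD

open Pool.Agent.H728R2.OS

namespace SignAux

theorem itr_succ (Φ : ℝ → ℝ) (g : ℕ → ℝ → ℝ) (n : ℕ) (y : ℝ) :
    itr Φ g (n + 1) y = Φ (g n (itr Φ g n y)) := rfl

theorem itr_cont_theta (g : ℕ → ℝ → ℝ) (hg : ∀ i, Continuous (g i)) (Φ : ℝ → ℝ)
    (hΦ : Continuous Φ) (n : ℕ) (y : ℝ) :
    Continuous (fun t : ℝ => itr (fun x => Φ x + t) g n y) := by
  induction n with
  | zero => exact continuous_const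
  | succ n ih =>
    simp only [itr_succ]
    exact (hΦ.comp ((hg n).comp ih)).add continuous_id

theorem itr_lt (g : ℕ → ℝ → ℝ) (hg : ∀ i, StrictMono (g i)) (Φ Ψ : ℝ → ℝ) (hΦ : StrictMono Φ)
    (h : ∀ x, Φ x < Ψ x) (n : ℕ) (hn : 0 < n) (y : ℝ) : itr Φ g n y < itr Ψ g n y := by
  induction n, hn using Nat.le_induction with
  | base => exact h _
  | succ n hn ih =>
    rw [itr_succ, itr_succ]
    exact (hΦ (hg n ih)).trans (h _)

/-- A change of sign from a zero and a positive value of the displacement. -/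
theorem sign_of_pos (g : ℕ → ℝ → ℝ) (hg : ∀ i, StrictMono (g i)) (hgc : ∀ i, Continuous (g i))
    (Φ : ℝ → ℝ) (hΦ : StrictMono Φ) (hΦc : Continuous Φ) (n : ℕ) (hn : 0 < n) (m : ℝ) (z y : ℝ)
    (hz : itr Φ g n z = z + m) (hy : y + m < itr Φ g n y) (η : ℝ) (hη : 0 < η) :
    ∃ t, 0 < t ∧ t < η ∧ SignChange (itr (fun x => Φ x + -t) g n) m := by
  have hc := itr_cont_theta g hgc Φ hΦc n y
  have hev : ∀ᶠ t in 𝓝 (0 : ℝ), y + m < itr (fun x => Φ x + t) g n y := by
    have := hc.tendsto 0
    simp only [add_zero] at this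
    exact this.eventually (lt_mem_nhds hy)
  obtain ⟨δ, hδ, hδ'⟩ := Metric.eventually_nhds_iff.1 hev
  refine ⟨min (δ / 2) (η / 2), lt_min (by linarith) (by linarith),
    (min_le_right _ _).trans_lt (by linarith), ⟨y, ?_⟩, ⟨z, ?_⟩⟩
  · apply hδ'
    have h1 : 0 < min (δ / 2) (η / 2) := lt_min (by linarith) (by linarith)
    have h2 : min (δ / 2) (η / 2) ≤ δ / 2 := min_le_left _ _
    rw [Real.dist_eq, sub_zero, abs_neg, abs_of_pos h1]
    linarith
  · have h1 : 0 < min (δ / 2) (η / 2) := lt_min (by linarith) (by linarith)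
    rw [← hz]
    exact itr_lt g hg _ _ (fun a b hab => by simpa using hΦ hab) (fun x => by linarith) n hn z

/-- A change of sign from a zero and a negative value of the displacement. -/
theorem sign_of_neg (g : ℕ → ℝ → ℝ) (hg : ∀ i, StrictMono (g i)) (hgc : ∀ i, Continuous (g i))
    (Φ : ℝ → ℝ) (hΦ : StrictMono Φ) (hΦc : Continuous Φ) (n : ℕ) (hn : 0 < n) (m : ℝ) (z y : ℝ)
    (hz : itr Φ g n z = z + m) (hy : itr Φ g n y < y + m) (η : ℝ) (hη : 0 < η) :
    ∃ t, 0 < t ∧ t < η ∧ SignChange (itr (fun x => Φ x + t) g n) m := by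
  have hc := itr_cont_theta g hgc Φ hΦc n y
  have hev : ∀ᶠ t in 𝓝 (0 : ℝ), itr (fun x => Φ x + t) g n y < y + m := by
    have := hc.tendsto 0
    simp only [add_zero] at this
    exact this.eventually (gt_mem_nhds hy)
  obtain ⟨δ, hδ, hδ'⟩ := Metric.eventually_nhds_iff.1 hev
  refine ⟨min (δ / 2) (η / 2), lt_min (by linarith) (by linarith),
    (min_le_right _ _).trans_lt (by linarith), ⟨z, ?_⟩, ⟨y, ?_⟩⟩
  · have h1 : 0 < min (δ / 2) (η / 2) := lt_min (by linarith) (by linarith)
    rw [← hz]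
    exact itr_lt g hg _ _ hΦ (fun x => by linarith) n hn z
  · apply hδ'
    have h1 : 0 < min (δ / 2) (η / 2) := lt_min (by linarith) (by linarith)
    have h2 : min (δ / 2) (η / 2) ≤ δ / 2 := min_le_left _ _
    rw [Real.dist_eq, sub_zero, abs_of_pos h1]
    linarith

theorem small_add {k : ℕ} {a b : ℝ} {v w : ℝ → ℝ} (hv : Small k a v) (hw : Small k b w) :
    Small k (a + b) (fun y => v y + w y) := by
  refine ⟨hv.smooth.add hw.smooth, fun y => by rw [hv.per, hw.per], fun j hj y => ?_⟩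
  have e : iteratedDeriv j (fun y => v y + w y) y = iteratedDeriv j v y + iteratedDeriv j w y :=
    iteratedDeriv_fun_add ((hv.smooth.of_le (by exact_mod_cast le_top)).contDiffAt)
      ((hw.smooth.of_le (by exact_mod_cast le_top)).contDiffAt)
  rw [e]
  exact (abs_add_le _ _).trans_lt (add_lt_add (hv.lt j hj y) (hw.lt j hj y))

theorem small_const {k : ℕ} {a c : ℝ} (h : |c| < a) : Small k a (fun _ => c) := by
  refine ⟨contDiff_const, fun y => rfl, fun j hj y => ?_⟩
  rw [iteratedDeriv_const]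
  split_ifs
  · exact h
  · rw [abs_zero]
    exact (abs_nonneg c).trans_lt h

theorem periodic_iter (φ : ℝ → ℝ) (hp : ∀ y, φ (y + 1) = φ y) (j : ℕ) (y : ℝ) :
    iteratedDeriv j φ (y + 1) = iteratedDeriv j φ y := by
  have h1 : (fun z => φ (z + 1)) = φ := funext hp
  have h2 := iteratedDeriv_comp_add_const j φ (1 : ℝ)
  rw [h1] at h2
  exact (congrFun h2 y).symm

/-- The derivatives of a smooth periodic function are bounded. -/
theorem exists_bound (φ : ℝ → ℝ) (hφ : ContDiff ℝ (⊤ : ℕ∞) φ) (hp : ∀ y, φ (y + 1) = φ y)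
    (k : ℕ) : ∃ M, 0 < M ∧ ∀ j ≤ k, ∀ y, |iteratedDeriv j φ y| ≤ M := by
  have h1 : ∀ j, ∃ M, ∀ y, |iteratedDeriv j φ y| ≤ M := by
    intro j
    have hc : Continuous (iteratedDeriv j φ) :=
      hφ.continuous_iteratedDeriv j (by exact_mod_cast le_top)
    have hb := (show Function.Periodic (iteratedDeriv j φ) 1 from
      periodic_iter φ hp j).isBounded_of_continuous one_ne_zero hc
    obtain ⟨M, hM⟩ := hb.exists_norm_le
    exact ⟨M, fun y => hM _ (mem_range_self y)⟩
  choose M hM using h1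
  refine ⟨1 + ∑ j ∈ Finset.range (k + 1), |M j|, by positivity, fun j hj y => ?_⟩
  have h2 : |M j| ≤ ∑ j ∈ Finset.range (k + 1), |M j| :=
    Finset.single_le_sum (f := fun j => |M j|) (fun i _ => abs_nonneg _)
      (Finset.mem_range.2 (by omega))
  have h3 := hM j y
  have h4 := le_abs_self (M j)
  linarith

theorem small_mul {k : ℕ} {a : ℝ} (ha : 0 < a) (φ : ℝ → ℝ) (hφ : ContDiff ℝ (⊤ : ℕ∞) φ)
    (hp : ∀ y, φ (y + 1) = φ y) : ∃ s0 > 0, ∀ s, 0 < s → s ≤ s0 → Small k a (fun y => s * φ y) := by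
  obtain ⟨M, hM, hb⟩ := exists_bound φ hφ hp k
  refine ⟨a / (2 * M), by positivity, fun s hs hs' => ⟨contDiff_const.mul hφ, fun y => by rw [hp],
    fun j hj y => ?_⟩⟩
  rw [iteratedDeriv_const_mul_field, abs_mul, abs_of_pos hs]
  calc s * |iteratedDeriv j φ y| ≤ a / (2 * M) * M :=
        mul_le_mul hs' (hb j hj y) (abs_nonneg _) (by positivity)
    _ = a / 2 := by field_simp
    _ < a := by linarith

/-- A smooth periodic function vanishing exactly at the integer translates of finitely many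
points. -/
noncomputable def phi (w : ℕ → ℝ) (n : ℕ) (y : ℝ) : ℝ :=
  ∏ i ∈ Finset.range n, Real.sin (Real.pi * (y - w i)) ^ 2

theorem phi_smooth (w : ℕ → ℝ) (n : ℕ) : ContDiff ℝ (⊤ : ℕ∞) (phi w n) := by
  unfold phi
  apply contDiff_prod
  intro i _
  exact (Real.contDiff_sin.comp (contDiff_const.mul (contDiff_id.sub contDiff_const))).pow 2

theorem phi_per (w : ℕ → ℝ) (n : ℕ) (y : ℝ) : phi w n (y + 1) = phi w n y := by
  unfold phi
  refine Finset.prod_congr rfl fun i _ => ?_
  rw [show Real.pi * (y + 1 - w i) = Real.pi * (y - w i) + Real.pi by ring, Real.sin_add_pi,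
    neg_sq]

theorem phi_nonneg (w : ℕ → ℝ) (n : ℕ) (y : ℝ) : 0 ≤ phi w n y :=
  Finset.prod_nonneg fun _ _ => sq_nonneg _

theorem phi_zero (w : ℕ → ℝ) (n : ℕ) (i : ℕ) (hi : i < n) : phi w n (w i) = 0 :=
  Finset.prod_eq_zero (Finset.mem_range.2 hi) (by simp)

theorem phi_countable (w : ℕ → ℝ) (n : ℕ) : {y | phi w n y = 0}.Countable := by
  have : {y | phi w n y = 0} ⊆ ⋃ i : ℕ, ⋃ k : ℤ, {w i + (k : ℝ)} := by
    intro y hy
    obtain ⟨i, _, hi⟩ := Finset.prod_eq_zero_iff.1 hy
    have h1 : Real.sin (Real.pi * (y - w i)) = 0 := by simpa using hi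
    obtain ⟨k, hk⟩ := Real.sin_eq_zero_iff.1 h1
    refine mem_iUnion.2 ⟨i, mem_iUnion.2 ⟨k, ?_⟩⟩
    have h2 : (k : ℝ) = y - w i := by
      have := Real.pi_pos
      rw [mul_comm] at hk
      exact mul_left_cancel₀ this.ne' hk
    rw [mem_singleton_iff, h2]
    ring
  exact (countable_iUnion fun i => countable_iUnion fun k => countable_singleton _).mono this

end SignAux

open SignAux in
/-- If a return map has displacement exactly `m` somewhere, then an arbitrarily small smooth
perturbation makes the displacement cross `m`. -/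
theorem exists_sign (g : ℕ → ℝ → ℝ) (N : ℕ) (hg : IsCycle g N) (u : ℝ → ℝ)
    (hu : ContDiff ℝ (⊤ : ℕ∞) u) (hup : ∀ y, u (y + 1) = u y) (hu1 : ∀ y, -1 < deriv u y)
    (n : ℕ) (hn : 0 < n) (m : ℤ) (z : ℝ) (hz : itr (fun y => y + u y) g n z = z + m)
    (k : ℕ) (η : ℝ) (hη : 0 < η) :
    ∃ v : ℝ → ℝ, Small k η v ∧ SignChange (itr (fun y => y + (u y + v y)) g n) m := by
  have hgm : ∀ i, StrictMono (g i) := fun i => strictMono_of_deriv_pos (hg.dpos i)
  have hgc : ∀ i, Continuous (g i) := fun i => (hg.diff i).continuous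
  have hud : Differentiable ℝ u := hu.differentiable (by simp)
  -- strict monotonicity of perturbations
  have hmono : ∀ v : ℝ → ℝ, Differentiable ℝ v → (∀ y, -1 < deriv u y + deriv v y) →
      StrictMono (fun y => y + (u y + v y)) := by
    intro v hv h
    refine strictMono_of_deriv_pos fun y => ?_
    have e : HasDerivAt (fun y => y + (u y + v y)) (1 + (deriv u y + deriv v y)) y :=
      (hasDerivAt_id y).add ((hud y).hasDerivAt.add (hv y).hasDerivAt)
    rw [e.deriv]
    linarith [h y]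
  have hΦ : StrictMono (fun y => y + u y) := by
    have := hmono (fun _ => 0) (differentiable_const _) (fun y => by simpa using hu1 y)
    simpa using this
  have hΦc : Continuous (fun y => y + u y) := continuous_id.add hu.continuous
  by_cases ha : ∃ y, y + m < itr (fun y => y + u y) g n y
  · obtain ⟨y, hy⟩ := ha
    obtain ⟨t, ht, ht', hs⟩ := sign_of_pos g hgm hgc _ hΦ hΦc n hn m z y hz hy η hη
    refine ⟨fun _ => -t, small_const (by rw [abs_neg, abs_of_pos ht]; exact ht'), ?_⟩
    have e : (fun y => y + (u y + -t)) = (fun x => x + u x + -t) := by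
      funext y; ring
    rw [e]
    exact hs
  by_cases hb : ∃ y, itr (fun y => y + u y) g n y < y + m
  · obtain ⟨y, hy⟩ := hb
    obtain ⟨t, ht, ht', hs⟩ := sign_of_neg g hgm hgc _ hΦ hΦc n hn m z y hz hy η hη
    refine ⟨fun _ => t, small_const (by rw [abs_of_pos ht]; exact ht'), ?_⟩
    have e : (fun y => y + (u y + t)) = (fun x => x + u x + t) := by
      funext y; ring
    rw [e]
    exact hs
  push_neg at ha hb
  have hall : ∀ y, itr (fun y => y + u y) g n y = y + m := fun y => le_antisymm (ha y) (hb y)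
  set w : ℕ → ℝ := fun i => g i (itr (fun y => y + u y) g i z) with hw
  -- a lower bound of the derivative of u
  obtain ⟨c, hc, hcu⟩ : ∃ c, 0 < c ∧ ∀ y, -1 + c ≤ deriv u y := by
    have hcd : Continuous (deriv u) := hu.continuous_deriv (by simp)
    obtain ⟨y0, _, hy0⟩ := isCompact_Icc.exists_isMinOn (s := Icc (0 : ℝ) 1)
      ⟨0, by simp⟩ hcd.continuousOn
    refine ⟨deriv u y0 + 1, by linarith [hu1 y0], fun y => ?_⟩
    have hper : Function.Periodic (deriv u) 1 := by
      have := periodic_iter u hup 1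
      simpa using this
    obtain ⟨y', hy', he⟩ := hper.exists_mem_Ico₀ one_pos y
    rw [he]
    have := hy0 (Ico_subset_Icc_self hy')
    simp only [Set.mem_ofPred_eq] at this
    linarith
  obtain ⟨s1, hs1, hS1⟩ := small_mul (k := k) (half_pos hη) (phi w n) (phi_smooth w n)
    (phi_per w n)
  obtain ⟨s2, hs2, hS2⟩ := small_mul (k := 1) hc (phi w n) (phi_smooth w n) (phi_per w n)
  set s := min s1 s2 with hs
  have hs0 : 0 < s := lt_min hs1 hs2
  have hsm := hS1 s hs0 (min_le_left _ _)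
  have hsm' := hS2 s hs0 (min_le_right _ _)
  set v1 : ℝ → ℝ := fun y => s * phi w n y with hv1
  have hv1d : Differentiable ℝ v1 := hsm.smooth.differentiable (by simp)
  have hder : ∀ y, |deriv v1 y| < c := by
    intro y
    have := hsm'.lt 1 le_rfl y
    rwa [iteratedDeriv_one] at this
  have hΨ : StrictMono (fun y => y + (u y + v1 y)) := by
    refine hmono v1 hv1d fun y => ?_
    have h1 := hcu y
    have h2 := (abs_lt.1 (hder y)).1
    linarith
  have hΨc : Continuous (fun y => y + (u y + v1 y)) :=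
    continuous_id.add (hu.continuous.add hv1d.continuous)
  -- the orbit of z is unchanged
  have hz' : ∀ i ≤ n, itr (fun y => y + (u y + v1 y)) g i z = itr (fun y => y + u y) g i z := by
    intro i
    induction i with
    | zero => intro _; rfl
    | succ i ih =>
      intro hi
      have e0 : v1 (w i) = 0 := by
        simp only [hv1]
        rw [phi_zero w n i (by omega), mul_zero]
      have e1 : g i (itr (fun y => y + u y) g i z) = w i := rfl
      rw [itr_succ, itr_succ, ih (by omega), e1, e0, add_zero]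
  -- a point with larger displacement
  obtain ⟨y1, hy1⟩ : ∃ y1, 0 < phi w n (g 0 y1) := by
    have hcount : ((g 0) ⁻¹' {y | phi w n y = 0}).Countable :=
      (phi_countable w n).preimage_of_injOn (hgm 0).injective.injOn
    obtain ⟨y1, hy1⟩ := (hcount.dense_compl ℝ).nonempty
    exact ⟨y1, lt_of_le_of_ne (phi_nonneg w n _) (fun h => hy1 h.symm)⟩
  have hgt : ∀ j, itr (fun y => y + u y) g (j + 1) y1 <
      itr (fun y => y + (u y + v1 y)) g (j + 1) y1 := by
    intro j
    induction j with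
    | zero =>
      rw [itr_succ, itr_succ]
      have h1 : 0 < v1 (g 0 y1) := mul_pos hs0 hy1
      have h2 : itr (fun y => y + u y) g 0 y1 = y1 := rfl
      have h3 : itr (fun y => y + (u y + v1 y)) g 0 y1 = y1 := rfl
      rw [h2, h3]
      linarith
    | succ j ih =>
      have h1 : itr (fun y => y + u y) g (j + 1 + 1) y1 =
          g (j + 1) (itr (fun y => y + u y) g (j + 1) y1) +
            u (g (j + 1) (itr (fun y => y + u y) g (j + 1) y1)) := rfl
      have h2 : itr (fun y => y + (u y + v1 y)) g (j + 1 + 1) y1 =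
          g (j + 1) (itr (fun y => y + (u y + v1 y)) g (j + 1) y1) +
            (u (g (j + 1) (itr (fun y => y + (u y + v1 y)) g (j + 1) y1)) +
              v1 (g (j + 1) (itr (fun y => y + (u y + v1 y)) g (j + 1) y1))) := rfl
      have h3 := hΦ (hgm (j + 1) ih)
      have h4 : 0 ≤ v1 (g (j + 1) (itr (fun y => y + (u y + v1 y)) g (j + 1) y1)) :=
        mul_nonneg hs0.le (phi_nonneg _ _ _)
      simp only at h3
      rw [h1, h2]
      linarith
  obtain ⟨j, rfl⟩ : ∃ j, n = j + 1 := ⟨n - 1, by omega⟩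
  obtain ⟨t, ht, ht', hS⟩ := sign_of_pos g hgm hgc _ hΨ hΨc (j + 1) hn m z y1
    (by rw [hz' _ le_rfl, hz]) (by have := hgt j; rwa [hall] at this) (η / 2) (half_pos hη)
  refine ⟨fun y => v1 y + -t, ?_, ?_⟩
  · have := small_add hsm (small_const (k := k) (a := η / 2) (c := -t)
      (by rw [abs_neg, abs_of_pos ht]; exact ht'))
    rwa [add_halves] at this
  · have e : (fun y => y + (u y + (v1 y + -t))) = (fun x => x + (u x + v1 x) + -t) := by
      funext y; ring
    rw [e]
    exact hS

end Pool.Agent.H637R2.TD
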