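import Pool.Agent.H637R2.TD.S.SARD
import Pool.Agent.H637R2.TD.S.PIGEON
import Pool.Agent.H637R2.TD.S.SIGN
import Pool.Agent.H637R2.TD.S.ROB

open Set Filter Topology MeasureTheory

namespace Pool.Agent.H637R2.TD

open Pool.Agent.H728R2.OS

namespace CYC

theorem small_add {k : ℕ} {a b : ℝ} {u v : ℝ → ℝ} (hu : Small k a u) (hv : Small k b v) :
    Small k (a + b) (fun y => u y + v y) where
  smooth := hu.smooth.add hv.smooth
  per y := by rw [hu.per, hv.per]
  lt j hj y := by
    have h1 : ContDiffAt ℝ (j : ℕ∞) u y :=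
      (hu.smooth.of_le (by exact_mod_cast (le_top : (j : ℕ∞) ≤ ⊤))).contDiffAt
    have h2 : ContDiffAt ℝ (j : ℕ∞) v y :=
      (hv.smooth.of_le (by exact_mod_cast (le_top : (j : ℕ∞) ≤ ⊤))).contDiffAt
    have h : iteratedDeriv j (fun y => u y + v y) y = iteratedDeriv j u y + iteratedDeriv j v y :=
      iteratedDeriv_fun_add h1 h2
    rw [h]
    exact (abs_add_le _ _).trans_lt (add_lt_add (hu.lt j hj y) (hv.lt j hj y))

theorem small_const {k : ℕ} {a c : ℝ} (hc : |c| < a) : Small k a (fun _ => c) where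
  smooth := contDiff_const
  per y := rfl
  lt j hj y := by
    rw [iteratedDeriv_const]
    split
    · exact hc
    · simpa using (abs_nonneg c).trans_lt hc

theorem small_mono {k k' : ℕ} {a a' : ℝ} {u : ℝ → ℝ} (h : Small k a u) (hk : k' ≤ k)
    (ha : a ≤ a') : Small k' a' u where
  smooth := h.smooth
  per := h.per
  lt j hj y := (h.lt j (hj.trans hk) y).trans_le ha

theorem small_deriv {k : ℕ} {u : ℝ → ℝ} (h : Small k (1 / 2) u) (hk : 1 ≤ k) (y : ℝ) :
    -1 < deriv u y := by
  have h1 := h.lt 1 hk y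
  rw [iteratedDeriv_one] at h1
  have := (abs_lt.1 h1).1
  linarith

theorem small_mono_fun {k : ℕ} {u : ℝ → ℝ} (h : Small k (1 / 2) u) (hk : 1 ≤ k) :
    StrictMono (fun y => y + u y) := by
  have hd : Differentiable ℝ u := h.smooth.differentiable (by simp)
  apply strictMono_of_deriv_pos
  intro y
  have h2 : deriv (fun y => y + u y) y = 1 + deriv u y := by
    exact ((hasDerivAt_id y).add (hd y).hasDerivAt).deriv
  rw [h2]
  linarith [small_deriv h hk y]

theorem small_cont {k : ℕ} {a : ℝ} {u : ℝ → ℝ} (h : Small k a u) :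
    Continuous (fun y => y + u y) := continuous_id.add h.smooth.continuous

theorem itr_cont {g : ℕ → ℝ → ℝ} {N : ℕ} (hg : IsCycle g N) {Φ : ℝ → ℝ} (hΦ : Continuous Φ)
    (n : ℕ) : Continuous (itr Φ g n) := by
  induction n with
  | zero => exact continuous_id
  | succ n ih => exact hΦ.comp ((hg.diff n).continuous.comp ih)

theorem zero_of_sign {H : ℝ → ℝ} (hc : Continuous H) {m : ℝ} (hs : SignChange H m) :
    ∃ z, H z = z + m := by
  obtain ⟨⟨a, ha⟩, b, hb⟩ := hs
  have hF : Continuous (fun y => H y - y - m) := (hc.sub continuous_id).sub continuous_const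
  have := intermediate_value_univ b a hF (show (0 : ℝ) ∈ Icc (H b - b - m) (H a - a - m) from
    ⟨by linarith, by linarith⟩)
  obtain ⟨z, hz⟩ := this
  exact ⟨z, by simp only at hz; linarith⟩

theorem robust {ι : Type*} (g : ι → ℕ → ℝ → ℝ) (N : ι → ℕ)
    (hg : ∀ i, IsCycle (g i) (N i)) (jj : ι → ℕ) (mm : ι → ℤ) (u : ℝ → ℝ)
    (hu : StrictMono (fun y => y + u y)) (huc : Continuous (fun y => y + u y)) (J : Finset ι) :
    (∀ i ∈ J, SignChange (itr (fun y => y + u y) (g i) (N i * jj i)) (mm i)) →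
    ∃ δ : ℝ, 0 < δ ∧ ∀ u' : ℝ → ℝ, (∀ y, |u' y - u y| ≤ δ) →
      ∀ i ∈ J, SignChange (itr (fun y => y + u' y) (g i) (N i * jj i)) (mm i) := by
  classical
  induction J using Finset.induction_on with
  | empty => intro _; exact ⟨1, one_pos, by simp⟩
  | insert i J hi ih =>
    intro h
    obtain ⟨δ, hδ, h1⟩ := ih (fun i' hi' => h i' (Finset.mem_insert_of_mem hi'))
    obtain ⟨δ', hδ', h2⟩ := sign_robust (g i) (N i) (hg i) _ hu huc (N i * jj i) (mm i)
      (h i (Finset.mem_insert_self i J))
    refine ⟨min δ δ', lt_min hδ hδ', fun u' hu' i' hi' => ?_⟩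
    rcases Finset.mem_insert.1 hi' with rfl | hi'
    · refine h2 _ (fun y => ?_)
      have : y + u' y - (y + u y) = u' y - u y := by ring
      rw [this]
      exact (hu' y).trans (min_le_right _ _)
    · exact h1 u' (fun y => (hu' y).trans (min_le_left _ _)) i' hi'

theorem claim {ι : Type*} (g : ι → ℕ → ℝ → ℝ) (N : ι → ℕ)
    (hg : ∀ i, IsCycle (g i) (N i)) (K : ℕ) (hK : 1 ≤ K) (J : Finset ι) :
    ∀ η : ℝ, 0 < η → η ≤ 1 / 2 → ∃ (u : ℝ → ℝ) (jj : ι → ℕ) (mm : ι → ℤ), Small K η u ∧
      ∀ i ∈ J, 0 < jj i ∧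
        SignChange (itr (fun y => y + u y) (g i) (N i * jj i)) (mm i) := by
  classical
  induction J using Finset.induction_on with
  | empty =>
    intro η hη _
    exact ⟨fun _ => 0, fun _ => 1, fun _ => 0, small_const (by simpa using hη), by simp⟩
  | insert i J hi ih =>
    intro η hη hη2
    obtain ⟨u, jj, mm, hu, hJ⟩ := ih (η / 2) (by linarith) (by linarith)
    have huh : Small K (1 / 2) u := small_mono hu le_rfl (by linarith)
    have hum := small_mono_fun huh hK
    have huc := small_cont hu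
    obtain ⟨δ, hδ, hrob⟩ := robust g N hg jj mm u hum huc J (fun i' hi' => (hJ i' hi').2)
    set e : ℝ := min δ (η / 2) / 4 with he
    have hepos : 0 < e := by
      have := lt_min hδ (half_pos hη)
      rw [he]; linarith
    have he1 : 2 * e < δ := by
      have := min_le_left δ (η / 2)
      rw [he]; linarith
    have he2 : 2 * e < η / 2 := by
      have := min_le_right δ (η / 2)
      rw [he]; linarith
    obtain ⟨θ, hθ, j, m, z, hj, hz⟩ := pigeon (g i) (N i) (hg i) (fun y => y + u y) hum huc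
      (fun y => by
        show y + 1 + u (y + 1) = y + u y + 1
        rw [hu.per]; ring) (e / 2) (by linarith)
    have hθs : Small K e (fun _ => θ) := small_const (by linarith)
    have huθ : Small K (η / 2 + e) (fun y => u y + θ) := small_add hu hθs
    have hz' : itr (fun y => y + (u y + θ)) (g i) (N i * j) z = z + m := by
      rw [← hz]
      congr 1
      funext y
      ring
    obtain ⟨v, hv, hsv⟩ := exists_sign (g i) (N i) (hg i) (fun y => u y + θ) huθ.smooth huθ.per
      (small_deriv (small_mono huθ le_rfl (by linarith)) hK) (N i * j)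
      (Nat.mul_pos (hg i).pos hj) m z hz' K e hepos
    have hfin : Small K η (fun y => u y + θ + v y) :=
      small_mono (small_add huθ hv) le_rfl (by linarith)
    refine ⟨fun y => u y + θ + v y, Function.update jj i j, Function.update mm i m, hfin, ?_⟩
    intro i' hi'
    rcases Finset.mem_insert.1 hi' with rfl | hi'
    · rw [Function.update_self, Function.update_self]
      exact ⟨hj, hsv⟩
    · have hne : i' ≠ i := fun h => hi (h ▸ hi')
      rw [Function.update_of_ne hne, Function.update_of_ne hne]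
      refine ⟨(hJ i' hi').1, hrob _ (fun y => ?_) i' hi'⟩
      have h1 : u y + θ + v y - u y = θ + v y := by ring
      rw [h1]
      have h2 : |v y| < e := by
        have := hv.lt 0 (Nat.zero_le K) y
        rwa [iteratedDeriv_zero] at this
      refine (abs_add_le _ _).trans ?_
      linarith

end CYC

/-- One smooth small perturbation makes finitely many cycles hyperbolic. -/
theorem exists_perturb {ι : Type*} [Fintype ι] (g : ι → ℕ → ℝ → ℝ) (N : ι → ℕ)
    (hg : ∀ i, IsCycle (g i) (N i)) (k : ℕ) (η : ℝ) (hη : 0 < η) :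
    ∃ u : ℝ → ℝ, Small k η u ∧ (∀ y, -1 < deriv u y) ∧
      ∀ i, ∃ (j : ℕ) (m : ℤ), 0 < j ∧
        (∃ z, itr (fun y => y + u y) (g i) (N i * j) z = z + m) ∧
        ∀ z, itr (fun y => y + u y) (g i) (N i * j) z = z + m →
          deriv (itr (fun y => y + u y) (g i) (N i * j)) z ≠ 1 := by
  classical
  set η' : ℝ := min η (1 / 2) with hη'
  have hη'0 : 0 < η' := lt_min hη (by norm_num)
  have hη'1 : η' ≤ 1 / 2 := min_le_right _ _
  have hK : 1 ≤ max k 1 := le_max_right _ _
  obtain ⟨u, jj, mm, hu, hJ⟩ := CYC.claim g N hg (max k 1) hK Finset.univ (η' / 2)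
    (by linarith) (by linarith)
  have huh : Small (max k 1) (1 / 2) u := CYC.small_mono hu le_rfl (by linarith)
  have hum := CYC.small_mono_fun huh hK
  have huc := CYC.small_cont hu
  obtain ⟨δ, hδ, hrob⟩ := CYC.robust g N hg jj mm u hum huc Finset.univ
    (fun i' hi' => (hJ i' hi').2)
  set e : ℝ := min δ (η' / 2) with he
  have hepos : 0 < e := lt_min hδ (by linarith)
  set A : Set ℝ := ⋃ i : ι, {θ : ℝ | ∃ z, itr (fun y => y + u y + θ) (g i) (N i * jj i) z =
    z + mm i ∧ deriv (itr (fun y => y + u y + θ) (g i) (N i * jj i)) z = 1} with hA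
  have hAnull : volume A = 0 := by
    rw [hA]
    refine measure_iUnion_null (fun i => ?_)
    exact sard (g i) (N i) (hg i) u (hu.smooth.differentiable (by simp))
      (CYC.small_deriv huh hK) (N i * jj i)
      (Nat.mul_pos (hg i).pos (hJ i (Finset.mem_univ i)).1) (mm i)
  have hex : ∃ θ ∈ Ioo (0 : ℝ) e, θ ∉ A := by
    by_contra hcon
    push Not at hcon
    have hsub : Ioo (0 : ℝ) e ⊆ A := fun θ hθ => hcon θ hθ
    have h1 : volume (Ioo (0 : ℝ) e) ≤ 0 := (measure_mono hsub).trans_eq hAnull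
    rw [Real.volume_Ioo] at h1
    have h2 : 0 < ENNReal.ofReal (e - 0) := by
      rw [ENNReal.ofReal_pos]
      linarith
    exact absurd h1 (not_le.2 h2)
  obtain ⟨θ, ⟨hθ0, hθe⟩, hθA⟩ := hex
  have hθabs : |θ| < η' / 2 := by
    rw [abs_of_pos hθ0]
    exact hθe.trans_le (min_le_right _ _)
  have hfin : Small (max k 1) η' (fun y => u y + θ) :=
    CYC.small_mono (CYC.small_add hu (CYC.small_const hθabs)) le_rfl (by linarith)
  refine ⟨fun y => u y + θ, CYC.small_mono hfin (le_max_left _ _) (min_le_left _ _),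
    CYC.small_deriv (CYC.small_mono hfin le_rfl hη'1) hK, fun i => ?_⟩
  refine ⟨jj i, mm i, (hJ i (Finset.mem_univ i)).1, ?_, ?_⟩
  · refine CYC.zero_of_sign (CYC.itr_cont (hg i) (CYC.small_cont hfin) _) ?_
    refine hrob (fun y => u y + θ) (fun y => ?_) i (Finset.mem_univ i)
    have h1 : u y + θ - u y = θ := by ring
    rw [h1, abs_of_pos hθ0]
    exact (hθe.le).trans (min_le_left _ _)
  · intro z hz hd
    apply hθA
    rw [hA]
    refine mem_iUnion.2 ⟨i, z, ?_⟩
    have hfun : (fun y => y + u y + θ) = (fun y => y + (u y + θ)) := by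
      funext y
      ring
    rw [hfun]
    exact ⟨hz, hd⟩

end Pool.Agent.H637R2.TD
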