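import Pool.Agent.H637R2.TD.Base
import Pool.Agent.H728R2.OS.S.COV

open Set Filter Topology MeasureTheory

namespace Pool.Agent.H637R2.TD

open Pool.Agent.H728R2.OS

namespace FIBaux

theorem circ_eq' (a b : ℝ) :
    (a : UnitAddCircle) = (b : UnitAddCircle) ↔ ∃ n : ℤ, b - a = n := by
  have h : (a : UnitAddCircle) = (b : UnitAddCircle) ↔ -a + b ∈ AddSubgroup.zmultiples (1 : ℝ) :=
    QuotientAddGroup.eq
  rw [h, AddSubgroup.mem_zmultiples_iff]
  constructor
  · rintro ⟨n, hn⟩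
    refine ⟨n, ?_⟩
    have : n • (1 : ℝ) = n := by simp
    rw [this] at hn
    linarith
  · rintro ⟨n, hn⟩
    refine ⟨n, ?_⟩
    have : n • (1 : ℝ) = n := by simp
    rw [this]
    linarith

section

variable {d : ℕ} {T : Torus d ≃ₜ Torus d} {f : (Torus d × Circ) ≃ₜ (Torus d × Circ)}
  {F : (Fin d → ℝ) × ℝ → (Fin d → ℝ) × ℝ}

theorem fst_eq (hT : ∀ z, (f z).1 = T z.1) (lF : IsLift toTorus1 F f)
    (z : (Fin d → ℝ) × ℝ) : toTorus (F z).1 = T (toTorus z.1) := by
  have h := congrArg Prod.fst (lF z)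
  rw [hT] at h
  exact h

theorem snd_eq (lF : IsLift toTorus1 F f) (z : (Fin d → ℝ) × ℝ) :
    (((F z).2 : ℝ) : UnitAddCircle) = (f (toTorus1 z)).2 :=
  congrArg Prod.snd (lF z)

theorem shift_one (hF : Continuous F) (lF : IsLift toTorus1 F f) :
    ∃ c : (Fin d → ℝ) × ℝ, ∀ z, F (z + (0, 1)) = F z + c := by
  refine lift_unique (isCov_toTorus1 d) (G := fun z => F (z + (0, 1))) hF
    (hF.comp (continuous_id.add continuous_const)) fun z => ?_
  rw [lF z, lF (z + (0, 1))]
  congr 1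
  unfold toTorus1
  refine Prod.ext ?_ ?_
  · simp
  · show ((z.2 : ℝ) : UnitAddCircle) = ((z.2 + 1 : ℝ) : UnitAddCircle)
    rw [circ_eq']
    exact ⟨1, by simp⟩

theorem deg_one (hF : Continuous F) (hT : ∀ z, (f z).1 = T z.1) (lF : IsLift toTorus1 F f)
    (hmono : ∀ z t, 0 < t → (F z).2 < (F (z.1, z.2 + t)).2) (z1 : Fin d → ℝ) (y : ℝ) :
    (F (z1, y + 1)).2 = (F (z1, y)).2 + 1 := by
  obtain ⟨c, hc⟩ := shift_one hF lF
  have hc2 : ∀ z1 y, (F (z1, y + 1)).2 = (F (z1, y)).2 + c.2 := by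
    intro z1 y
    have h := congrArg Prod.snd (hc (z1, y))
    have e : ((z1, y) : (Fin d → ℝ) × ℝ) + (0, 1) = (z1, y + 1) := by
      simp
    rw [e] at h
    exact h
  have hint : ∃ n : ℤ, c.2 = n := by
    have h1 : (((F (0, (0 : ℝ))).2 : ℝ) : UnitAddCircle) =
        (((F ((0 : Fin d → ℝ), (0 : ℝ) + 1)).2 : ℝ) : UnitAddCircle) := by
      rw [snd_eq lF, snd_eq lF]
      congr 2
      unfold toTorus1
      refine Prod.ext rfl ?_
      show ((0 : ℝ) : UnitAddCircle) = ((0 + 1 : ℝ) : UnitAddCircle)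
      rw [circ_eq']
      exact ⟨1, by simp⟩
    rw [hc2, circ_eq'] at h1
    obtain ⟨n, hn⟩ := h1
    exact ⟨n, by linarith⟩
  obtain ⟨n, hn⟩ := hint
  have hpos : 0 < c.2 := by
    have h1 := hmono ((0 : Fin d → ℝ), 0) 1 one_pos
    simp only at h1
    rw [hc2] at h1
    linarith
  have hn1 : 1 ≤ n := by
    rw [hn] at hpos
    have : 0 < n := by exact_mod_cast hpos
    omega
  have hn2 : ¬ 2 ≤ n := by
    intro h2
    have h2' : (2 : ℝ) ≤ c.2 := by
      rw [hn]
      exact_mod_cast h2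
    have hcont : ContinuousOn (fun t : ℝ => (F ((0 : Fin d → ℝ), t)).2) (Icc 0 1) := by
      apply Continuous.continuousOn
      exact continuous_snd.comp (hF.comp (continuous_const.prodMk continuous_id))
    have hmem : (F ((0 : Fin d → ℝ), 0)).2 + 1 ∈
        Icc ((fun t : ℝ => (F ((0 : Fin d → ℝ), t)).2) 0)
          ((fun t : ℝ => (F ((0 : Fin d → ℝ), t)).2) 1) := by
      have h3 := hc2 (0 : Fin d → ℝ) 0
      rw [zero_add] at h3
      refine ⟨by simp, ?_⟩
      simp only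
      rw [h3]
      linarith
    obtain ⟨t, ht, hteq⟩ := intermediate_value_Icc zero_le_one hcont hmem
    simp only at hteq
    have hft : f (toTorus1 ((0 : Fin d → ℝ), t)) = f (toTorus1 ((0 : Fin d → ℝ), (0 : ℝ))) := by
      refine Prod.ext ?_ ?_
      · rw [hT, hT]
        rfl
      · rw [← snd_eq lF, ← snd_eq lF, hteq, circ_eq']
        exact ⟨-1, by simp⟩
    have h4 := f.injective hft
    have h5 : ((t : ℝ) : UnitAddCircle) = ((0 : ℝ) : UnitAddCircle) := congrArg Prod.snd h4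
    rw [circ_eq'] at h5
    obtain ⟨m, hm⟩ := h5
    have h6 : t = (((-m : ℤ)) : ℝ) := by
      push_cast
      linarith
    have h7 : -m = 0 ∨ -m = 1 := by
      have ha : (0 : ℝ) ≤ ((-m : ℤ) : ℝ) := h6 ▸ ht.1
      have hb : (((-m : ℤ)) : ℝ) ≤ 1 := h6 ▸ ht.2
      have ha' : 0 ≤ -m := by exact_mod_cast ha
      have hb' : -m ≤ 1 := by exact_mod_cast hb
      omega
    rcases h7 with h7 | h7
    · rw [h7] at h6
      rw [h6] at hteq
      simp at hteq
    · rw [h7] at h6
      have h8 := hc2 (0 : Fin d → ℝ) 0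
      rw [zero_add] at h8
      have h9 : t = 1 := by simpa using h6
      rw [h9, h8] at hteq
      linarith
  have hn3 : n = 1 := by omega
  rw [hc2, hn, hn3]
  simp

theorem fst_const (hF : Continuous F) (hT : ∀ z, (f z).1 = T z.1) (lF : IsLift toTorus1 F f)
    (z1 : Fin d → ℝ) (t : ℝ) : (F (z1, t)).1 = (F (z1, 0)).1 := by
  obtain ⟨Γ, hΓ, hper⟩ := (isCov_toTorus d).period
  have h0 : ∀ t, (F (z1, t)).1 - (F (z1, 0)).1 ∈ Γ := by
    intro t
    apply (hper _ _).mp
    rw [fst_eq hT lF, fst_eq hT lF]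
  let φ : ℝ → Γ := fun t => ⟨(F (z1, t)).1 - (F (z1, 0)).1, h0 t⟩
  have hφ : Continuous φ := by
    refine Continuous.subtype_mk ?_ _
    exact (continuous_fst.comp (hF.comp (continuous_const.prodMk continuous_id))).sub
      continuous_const
  have h1 : φ t = φ 0 := PreconnectedSpace.constant inferInstance hφ
  have h2 := congrArg Subtype.val h1
  simp only [φ, sub_self] at h2
  exact sub_eq_zero.mp h2

theorem hasDerivAt_line (hF : Differentiable ℝ F) (z1 : Fin d → ℝ) (y : ℝ) :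
    HasDerivAt (fun t : ℝ => F (z1, t)) (fderiv ℝ F (z1, y) ((0 : Fin d → ℝ), (1 : ℝ))) y := by
  have h1 : HasDerivAt (fun t : ℝ => ((z1, t) : (Fin d → ℝ) × ℝ)) ((0 : Fin d → ℝ), (1 : ℝ)) y :=
    (hasDerivAt_const y z1).prodMk (hasDerivAt_id y)
  exact (hF (z1, y)).hasFDerivAt.comp_hasDerivAt y h1

end

end FIBaux

open FIBaux

/-- The circle extension given by a skew diffeomorphism with increasing fibre maps. -/
theorem exists_fiberSys {d : ℕ} {r : ℕ∞} (hr : 1 ≤ r) (T : Torus d ≃ₜ Torus d)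
    (f : (Torus d × Circ) ≃ₜ (Torus d × Circ)) (hf : IsDiffeo toTorus1 r f)
    (hT : ∀ z, (f z).1 = T z.1) (F : (Fin d → ℝ) × ℝ → (Fin d → ℝ) × ℝ) (hF : ContDiff ℝ 1 F)
    (lF : IsLift toTorus1 F f) (hmono : ∀ z t, 0 < t → (F z).2 < (F (z.1, z.2 + t)).2) :
    ∃ (S : FiberSys (Torus d)) (w : Torus d × Circ → ℝ), S.T = T ∧ S.map = f ∧
      (∀ x y, S.G x y = (F (rep x, y)).2) ∧ (∀ z, 0 < w z) ∧
      (∀ x, Differentiable ℝ (S.G x)) ∧
      (∀ x (y : ℝ), deriv (S.G x) y = w (x, (y : UnitAddCircle))) ∧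
      ∀ F' : (Fin d → ℝ) × ℝ → (Fin d → ℝ) × ℝ, ContDiff ℝ 1 F' → IsLift toTorus1 F' f →
        ∀ z, fderiv ℝ F' z ((0 : Fin d → ℝ), (1 : ℝ)) = (0, w (toTorus1 z)) := by
  have hFc : Continuous F := hF.continuous
  have hFd : Differentiable ℝ F := hF.differentiable one_ne_zero
  have hcov := isCov_toTorus1 d
  have hmonoG : ∀ z1 : Fin d → ℝ, StrictMono fun y : ℝ => (F (z1, y)).2 := by
    intro z1 a b hab
    have h1 := hmono (z1, a) (b - a) (by linarith)
    have e : ((z1, a) : (Fin d → ℝ) × ℝ).2 + (b - a) = b := by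
      show a + (b - a) = b
      ring
    rw [e] at h1
    exact h1
  let S : FiberSys (Torus d) :=
    { T := T
      g := fun z => (f z).2
      G := fun x y => (F (rep x, y)).2
      cont_T := T.continuous
      cont_g := continuous_snd.comp f.continuous
      lift := by
        intro x y
        rw [snd_eq lF]
        unfold toTorus1
        simp only
        rw [toTorus_rep]
      mono := fun x => hmonoG (rep x)
      cont := fun x => continuous_snd.comp (hFc.comp (continuous_const.prodMk continuous_id))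
      deg := fun x y => deg_one hFc hT lF hmono (rep x) y }
  let w : Torus d × Circ → ℝ := fun z =>
    (fderiv ℝ F (Function.surjInv hcov.quot.surjective z) ((0 : Fin d → ℝ), (1 : ℝ))).2
  have hw : ∀ z, w (toTorus1 z) = (fderiv ℝ F z ((0 : Fin d → ℝ), (1 : ℝ))).2 := by
    intro z
    show (fderiv ℝ F (Function.surjInv hcov.quot.surjective (toTorus1 z))
      ((0 : Fin d → ℝ), (1 : ℝ))).2 = _
    rw [fderiv_lift hcov hFc hFc f lF lF _ z (Function.surjInv_eq hcov.quot.surjective _)]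
  have hderiv : ∀ (z1 : Fin d → ℝ) (y : ℝ), HasDerivAt (fun t : ℝ => (F (z1, t)).2)
      (w (toTorus1 (z1, y))) y := by
    intro z1 y
    rw [hw]
    have h1 := hasDerivAt_line hFd z1 y
    exact h1.snd
  have hfst0 : ∀ z, (fderiv ℝ F z ((0 : Fin d → ℝ), (1 : ℝ))).1 = 0 := by
    intro z
    have h1 : HasDerivAt (fun t : ℝ => (F (z.1, t)).1)
        (fderiv ℝ F z ((0 : Fin d → ℝ), (1 : ℝ))).1 z.2 :=
      (hasDerivAt_line hFd z.1 z.2).fst
    have h2 : (fun t : ℝ => (F (z.1, t)).1) = fun _ => (F (z.1, 0)).1 :=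
      funext fun t => fst_const hFc hT lF z.1 t
    rw [h2] at h1
    exact h1.unique (hasDerivAt_const _ _)
  have hfull : ∀ z, fderiv ℝ F z ((0 : Fin d → ℝ), (1 : ℝ)) = (0, w (toTorus1 z)) := by
    intro z
    refine Prod.ext (hfst0 z) ?_
    exact (hw z).symm
  have hinj : ∀ z, fderiv ℝ F z ((0 : Fin d → ℝ), (1 : ℝ)) ≠ 0 := by
    intro z h0
    obtain ⟨G', hG', lG'⟩ := hf.2
    have hG1 : ContDiff ℝ 1 G' := hG'.of_le (by exact_mod_cast hr)
    have hGd : Differentiable ℝ G' := hG1.differentiable one_ne_zero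
    obtain ⟨c, hc⟩ := lift_unique hcov (F := id) (G := fun z => G' (F z)) continuous_id
      (hG1.continuous.comp hFc) (fun z => by
        rw [lG' (F z), lF z]
        simp)
    have h1 : HasFDerivAt (fun z => G' (F z)) ((fderiv ℝ G' (F z)).comp (fderiv ℝ F z)) z :=
      (hGd (F z)).hasFDerivAt.comp z (hFd z).hasFDerivAt
    have h2 : HasFDerivAt (fun z => G' (F z))
        (ContinuousLinearMap.id ℝ ((Fin d → ℝ) × ℝ)) z := by
      have h3 : (fun z => G' (F z)) = fun z => id z + c := funext hc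
      rw [h3]
      exact (hasFDerivAt_id z).add_const c
    have h4 := congrArg (fun L : ((Fin d → ℝ) × ℝ) →L[ℝ] ((Fin d → ℝ) × ℝ) =>
      L ((0 : Fin d → ℝ), (1 : ℝ))) (h1.unique h2)
    simp only [ContinuousLinearMap.comp_apply, h0, map_zero, ContinuousLinearMap.id_apply] at h4
    have h5 := congrArg Prod.snd h4
    simp at h5
  have hwpos : ∀ z, 0 < w z := by
    intro z
    obtain ⟨v, rfl⟩ := hcov.quot.surjective z
    have h1 : 0 ≤ w (toTorus1 v) := by
      have h2 := hderiv v.1 v.2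
      have h4 : deriv (fun t : ℝ => (F (v.1, t)).2) v.2 = w (toTorus1 (v.1, v.2)) := h2.deriv
      have h5 : 0 ≤ deriv (fun t : ℝ => (F (v.1, t)).2) v.2 := (hmonoG v.1).monotone.deriv_nonneg
      rw [h4] at h5
      exact h5
    have h6 : w (toTorus1 v) ≠ 0 := by
      intro h7
      apply hinj v
      rw [hfull v, h7]
      rfl
    exact lt_of_le_of_ne h1 (Ne.symm h6)
  refine ⟨S, w, rfl, ?_, fun _ _ => rfl, hwpos, ?_, ?_, ?_⟩
  · funext z
    exact Prod.ext (hT z).symm rfl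
  · intro x y
    exact (hderiv (rep x) y).differentiableAt
  · intro x y
    have h1 := (hderiv (rep x) y).deriv
    have h2 : toTorus1 (rep x, y) = (x, (y : UnitAddCircle)) := by
      unfold toTorus1
      simp only
      rw [toTorus_rep]
    rw [h2] at h1
    exact h1
  · intro F' hF' lF' z
    rw [fderiv_lift hcov hF'.continuous hFc f lF' lF z z rfl]
    exact hfull z

end Pool.Agent.H637R2.TD
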