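import Pool.Agent.H637R2.TD.Base
import Pool.Agent.H728R2.OS.S.HYPU
import Pool.Agent.H728R2.OS.S.HSYM
import Pool.Agent.H728R2.OS.S.COV
import Pool.Agent.H728R2.OS.S.BLOCK

open Set Filter Topology MeasureTheory

namespace Pool.Agent.H637R2.TD

open Pool.Agent.H728R2.OS

namespace HYPSX

variable {X : Type*}

/-- the product of the weights along the orbit -/
noncomputable def Pr (f : X → X) (w : X → ℝ) (n : ℕ) (z : X) : ℝ :=
  ∏ i ∈ Finset.range n, w (f^[i] z)

variable {f : X → X} {w : X → ℝ}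

theorem Pr_pos (hw : ∀ z, 0 < w z) (n : ℕ) (z : X) : 0 < Pr f w n z :=
  Finset.prod_pos fun _ _ => hw _

theorem Pr_add (m n : ℕ) (z : X) : Pr f w (m + n) z = Pr f w m z * Pr f w n (f^[m] z) := by
  unfold Pr
  rw [Finset.prod_range_add]
  congr 1
  refine Finset.prod_congr rfl fun i _ => ?_
  rw [← Function.iterate_add_apply, add_comm]

theorem Pr_mul (n q : ℕ) (z : X) (hz : f^[n] z = z) : Pr f w (n * q) z = (Pr f w n z) ^ q := by
  induction q with
  | zero => simp [Pr]
  | succ q ih =>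
    have h1 : f^[n * q] z = z := by
      rw [Function.iterate_mul]
      exact Function.iterate_fixed hz q
    rw [Nat.mul_succ, Pr_add, ih, h1, pow_succ]

theorem single (hw : ∀ z, 0 < w z) (z : X) (n0 : ℕ) (hn : 0 < n0) (hz : f^[n0] z = z)
    (hP : Pr f w n0 z < 1) :
    ∃ C μ : ℝ, 0 < C ∧ 0 < μ ∧ μ < 1 ∧ ∀ n, Pr f w n z ≤ C * μ ^ n := by
  have hp := Pr_pos (f := f) hw n0 z
  set μ : ℝ := (Pr f w n0 z) ^ ((n0 : ℝ)⁻¹) with hμ
  have hμ0 : 0 < μ := Real.rpow_pos_of_pos hp _
  have hμ1 : μ < 1 := Real.rpow_lt_one hp.le hP (by positivity)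
  have hμn : μ ^ n0 = Pr f w n0 z := Real.rpow_inv_natCast_pow hp.le hn.ne'
  refine ⟨1 + ∑ r ∈ Finset.range n0, Pr f w r z / μ ^ r, μ, ?_, hμ0, hμ1, fun n => ?_⟩
  · have : 0 ≤ ∑ r ∈ Finset.range n0, Pr f w r z / μ ^ r :=
      Finset.sum_nonneg fun r _ => (div_pos (Pr_pos hw r z) (by positivity)).le
    linarith
  · have h1 := Nat.div_add_mod n n0
    have h2 := Nat.mod_lt n hn
    set q := n / n0
    set r := n % n0
    have h3 : f^[n0 * q] z = z := by
      rw [Function.iterate_mul]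
      exact Function.iterate_fixed hz q
    rw [← h1, Pr_add, Pr_mul n0 q z hz, h3, pow_add, pow_mul, hμn]
    have h4 : Pr f w r z / μ ^ r ≤ 1 + ∑ r ∈ Finset.range n0, Pr f w r z / μ ^ r := by
      have := Finset.single_le_sum (f := fun r => Pr f w r z / μ ^ r)
        (fun r _ => (div_pos (Pr_pos hw r z) (by positivity : (0 : ℝ) < μ ^ r)).le)
        (Finset.mem_range.mpr h2)
      linarith
    have h5 : Pr f w r z ≤ (1 + ∑ r ∈ Finset.range n0, Pr f w r z / μ ^ r) * μ ^ r := by
      rwa [← div_le_iff₀ (by positivity)]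
    have h6 : 0 < (Pr f w n0 z) ^ q := by positivity
    calc (Pr f w n0 z) ^ q * Pr f w r z
        ≤ (Pr f w n0 z) ^ q * ((1 + ∑ r ∈ Finset.range n0, Pr f w r z / μ ^ r) * μ ^ r) :=
          mul_le_mul_of_nonneg_left h5 h6.le
      _ = _ := by ring

theorem finite_bd (hw : ∀ z, 0 < w z) {R : Set X} (hR : R.Finite)
    (h : ∀ z ∈ R, ∃ n, 0 < n ∧ f^[n] z = z ∧ Pr f w n z < 1) :
    ∃ C μ : ℝ, 0 < C ∧ 0 < μ ∧ μ < 1 ∧ ∀ z ∈ R, ∀ n, Pr f w n z ≤ C * μ ^ n := by
  induction R, hR using Set.Finite.induction_on with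
  | empty => exact ⟨1, 1 / 2, one_pos, by norm_num, by norm_num, fun z hz => absurd hz (by simp)⟩
  | @insert a s _ _ ih =>
    obtain ⟨C, μ, hC, hμ, hμ1, hb⟩ := ih fun z hz => h z (Set.mem_insert_of_mem _ hz)
    obtain ⟨n0, hn, hz, hP⟩ := h a (Set.mem_insert _ _)
    obtain ⟨C', μ', hC', hμ', hμ1', hb'⟩ := single hw a n0 hn hz hP
    refine ⟨max C C', max μ μ', lt_max_of_lt_left hC, lt_max_of_lt_left hμ, max_lt hμ1 hμ1',
      fun z hz n => ?_⟩
    rcases hz with rfl | hz
    · exact (hb' n).trans (mul_le_mul (le_max_right _ _)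
        (pow_le_pow_left₀ hμ'.le (le_max_right _ _) n) (by positivity) (by positivity))
    · exact (hb z hz n).trans (mul_le_mul (le_max_left _ _)
        (pow_le_pow_left₀ hμ.le (le_max_left _ _) n) (by positivity) (by positivity))

/-- the product is invariant along a periodic orbit -/
theorem Pr_shift (hw : ∀ z, 0 < w z) (n : ℕ) (z : X) (hz : f^[n] z = z) :
    Pr f w n (f z) = Pr f w n z := by
  have h1 : Pr f w (1 + n) z = w z * Pr f w n (f z) := by
    rw [Pr_add]; simp [Pr]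
  have h2 : Pr f w (n + 1) z = Pr f w n z * w z := by
    rw [Pr_add, hz]; simp [Pr]
  rw [add_comm, h2] at h1
  have := (hw z).ne'
  have h3 : w z * (Pr f w n (f z)) = w z * (Pr f w n z) := by rw [← h1]; ring
  exact mul_left_cancel₀ this h3

theorem per_shift (n : ℕ) (z : X) (hz : f^[n] z = z) : f^[n] (f z) = f z := by
  rw [← Function.iterate_succ_apply, Function.iterate_succ_apply', hz]

end HYPSX

open HYPSX in
/-- Hyperbolicity of the finite set of periodic points of a circle extension. -/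
theorem hyp_step {d : ℕ} {r : ℕ∞} (hr : 1 ≤ r) (T : Torus d ≃ₜ Torus d)
    (f : (Torus d × Circ) ≃ₜ (Torus d × Circ)) (hf : IsDiffeo toTorus1 r f)
    (hT : ∀ z, (f z).1 = T z.1) (hb : IsHyperbolic toTorus T (Per T))
    (w : Torus d × Circ → ℝ) (hw0 : ∀ z, 0 < w z)
    (hw : ∀ F : (Fin d → ℝ) × ℝ → (Fin d → ℝ) × ℝ, ContDiff ℝ 1 F → IsLift toTorus1 F f →
      ∀ z, fderiv ℝ F z ((0 : Fin d → ℝ), (1 : ℝ)) = (0, w (toTorus1 z)))
    (hfin : (Per f).Finite)
    (hne : ∀ z ∈ Per f, ∃ n, 0 < n ∧ f^[n] z = z ∧ ∏ i ∈ Finset.range n, w (f^[i] z) ≠ 1) :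
    IsHyperbolic toTorus1 f (Per f) := by
  obtain ⟨⟨F, hF, lF⟩, G, hG, lG⟩ := hf
  have hF1 : ContDiff ℝ 1 F := hF.of_le (by exact_mod_cast hr)
  have hG1 : ContDiff ℝ 1 G := hG.of_le (by exact_mod_cast hr)
  have cov := isCov_toTorus d
  have cov1 := isCov_toTorus1 d
  have hu := fun (F G : (Fin d → ℝ) → (Fin d → ℝ)) (hF : Continuous F) (hG : Continuous G)
    (f : Torus d → Torus d) (h1 : IsLift toTorus F f) (h2 : IsLift toTorus G f)
    (z w : Fin d → ℝ) (h : toTorus z = toTorus w) => fderiv_lift cov hF hG f h1 h2 z w h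
  have hu1 := fun (F G : (Fin d → ℝ) × ℝ → (Fin d → ℝ) × ℝ) (hF : Continuous F)
    (hG : Continuous G) (f : Torus d × Circ → Torus d × Circ) (h1 : IsLift toTorus1 F f)
    (h2 : IsLift toTorus1 G f) (z w : (Fin d → ℝ) × ℝ) (h : toTorus1 z = toTorus1 w) =>
    fderiv_lift cov1 hF hG f h1 h2 z w h
  -- periodic points of `T`
  have hTinv : ∀ x, T x ∈ Per T ↔ x ∈ Per T := by
    intro x
    constructor
    · rintro ⟨n, hn, h⟩
      refine ⟨n, hn, T.injective ?_⟩
      rw [← Function.iterate_succ_apply' (⇑T), Function.iterate_succ_apply]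
      exact h
    · rintro ⟨n, hn, h⟩
      exact ⟨n, hn, per_shift n x h⟩
  have hTit : ∀ (n : ℕ) (z : Torus d × Circ), (f^[n] z).1 = T^[n] z.1 := by
    intro n
    induction n with
    | zero => intro z; rfl
    | succ n ih =>
      intro z
      rw [Function.iterate_succ_apply, ih, hT, ← Function.iterate_succ_apply]
  have hfback : ∀ (n : ℕ) (z : Torus d × Circ), f^[n] (f z) = f z → f^[n] z = z := by
    intro n z h
    apply f.injective
    rw [← Function.iterate_succ_apply' (⇑f), Function.iterate_succ_apply]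
    exact h
  set Rm : Set (Torus d × Circ) := {z | ∃ n, 0 < n ∧ f^[n] z = z ∧ Pr f w n z < 1} with hRm
  set Rp : Set (Torus d × Circ) := {z | ∃ n, 0 < n ∧ f^[n] z = z ∧ 1 < Pr f w n z} with hRp
  have hPer : Per f = Rp ∪ Rm := by
    ext z
    constructor
    · intro hz
      obtain ⟨n, hn, h1, h2⟩ := hne z hz
      rcases lt_or_gt_of_ne h2 with h | h
      · exact Or.inr ⟨n, hn, h1, h⟩
      · exact Or.inl ⟨n, hn, h1, h⟩
    · rintro (⟨n, hn, h1, _⟩ | ⟨n, hn, h1, _⟩)
      · exact ⟨n, hn, h1⟩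
      · exact ⟨n, hn, h1⟩
  have hRmf : Rm.Finite := hfin.subset (hPer ▸ Set.subset_union_right)
  have hRpf : Rp.Finite := hfin.subset (hPer ▸ Set.subset_union_left)
  have hRmi : ∀ z, f z ∈ Rm ↔ z ∈ Rm := by
    intro z
    constructor
    · rintro ⟨n, hn, h1, h2⟩
      have h3 := hfback n z h1
      exact ⟨n, hn, h3, by rwa [Pr_shift hw0 n z h3] at h2⟩
    · rintro ⟨n, hn, h1, h2⟩
      exact ⟨n, hn, per_shift n z h1, by rwa [Pr_shift hw0 n z h1]⟩
  have hRpi : ∀ z, f z ∈ Rp ↔ z ∈ Rp := by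
    intro z
    constructor
    · rintro ⟨n, hn, h1, h2⟩
      have h3 := hfback n z h1
      exact ⟨n, hn, h3, by rwa [Pr_shift hw0 n z h3] at h2⟩
    · rintro ⟨n, hn, h1, h2⟩
      exact ⟨n, hn, per_shift n z h1, by rwa [Pr_shift hw0 n z h1]⟩
  have hdis : Disjoint Rp Rm := by
    rw [Set.disjoint_left]
    rintro z ⟨n, hn, h1, h2⟩ ⟨n', hn', h1', h2'⟩
    have e1 := Pr_mul (w := w) n n' z h1
    have e2 := Pr_mul (w := w) n' n z h1'
    rw [mul_comm, e2] at e1
    have h3 : (Pr f w n' z) ^ n < 1 := pow_lt_one₀ (Pr_pos hw0 _ _).le h2' hn.ne'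
    have h4 : 1 < (Pr f w n z) ^ n' := one_lt_pow₀ h2 hn'.ne'
    linarith
  -- contraction on `Rm`
  have hypM : IsHyperbolic toTorus1 f Rm := by
    obtain ⟨C, μ, hC, hμ, hμ1, hbd⟩ := finite_bd hw0 hRmf fun z hz => hz
    refine hyperbolic_of_contraction (fun x y => hT (x, y)) cov cov1 hu hu1
      (fun Y _ _ E C μ h1 h2 h3 h4 h5 h6 => block_splitting E C μ h1 h2 h3 h4 h5 h6)
      hb hTinv hRmf.isClosed hRmi ?_ hF1 hG1 lF lG (fun z => (w z)⁻¹)
      (fun z => inv_pos.mpr (hw0 z)) ?_ C μ hC hμ hμ1 ?_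
    · rintro z ⟨n, hn, h1, _⟩
      exact ⟨n, hn, by rw [← hTit, h1]⟩
    · intro z
      rw [inv_inv]
      exact hw F hF1 lF z
    · intro z hz n
      have h1 : (Phi f (fun z => (w z)⁻¹) n z)⁻¹ = Pr f w n z := by
        unfold Phi Pr
        rw [Finset.prod_inv_distrib, inv_inv]
      rw [h1]
      exact hbd z hz n
  -- expansion on `Rp`
  have hypP' : IsHyperbolic toTorus1 f.symm Rp := by
    have hsymm : ∀ x y, (f.symm (x, y)).1 = T.symm x := by
      intro x y
      have := hT (f.symm (x, y))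
      rw [f.apply_symm_apply] at this
      exact (T.symm_apply_eq.2 this).symm
    have hder' : ∀ z, fderiv ℝ G z ((0 : Fin d → ℝ), (1 : ℝ)) =
        (0, (w (f.symm (toTorus1 z)))⁻¹) := by
      intro z
      have hGz : toTorus1 (G z) = f.symm (toTorus1 z) := lG z
      have hFG : toTorus1 (F (G z)) = toTorus1 z := by
        rw [lF, hGz, f.apply_symm_apply]
      have h1 := hw F hF1 lF (G z)
      rw [hGz] at h1
      have h2 : fderiv ℝ (G ∘ F) (G z) = fderiv ℝ (id : (Fin d → ℝ) × ℝ → (Fin d → ℝ) × ℝ) (G z) :=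
        hu1 (G ∘ F) id (hG.continuous.comp hF.continuous) continuous_id id
          (fun w => by
            show toTorus1 (G (F w)) = toTorus1 w
            rw [lG, lF, f.symm_apply_apply]) (fun w => rfl) (G z) (G z) rfl
      rw [fderiv_id, fderiv_comp (G z) (hG1.differentiable one_ne_zero _)
        (hF1.differentiable one_ne_zero _),
        hu1 G G hG.continuous hG.continuous f.symm lG lG (F (G z)) z hFG] at h2
      have h3 := congrArg (fun L => L ((0 : Fin d → ℝ), (1 : ℝ))) h2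
      simp only [ContinuousLinearMap.comp_apply, ContinuousLinearMap.id_apply, h1] at h3
      have h4 : ((0 : Fin d → ℝ), (w (f.symm (toTorus1 z)))) =
          (w (f.symm (toTorus1 z))) • ((0 : Fin d → ℝ), (1 : ℝ)) := by
        simp
      rw [h4, map_smul] at h3
      have hφ0 := (hw0 (f.symm (toTorus1 z))).ne'
      have h5 := congrArg (fun v => (w (f.symm (toTorus1 z)))⁻¹ • v) h3
      simp only [smul_smul, inv_mul_cancel₀ hφ0, one_smul] at h5
      rw [h5]
      simp
    have hback : ∀ z ∈ Rp, ∃ n, 0 < n ∧ f.symm^[n] z = z ∧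
        Pr f.symm (fun z => (w (f.symm z))⁻¹) n z < 1 := by
      rintro z ⟨n, hn, h1, h2⟩
      have hinv : ∀ (i j : ℕ), f.symm^[i] (f^[i + j] z) = f^[j] z := by
        intro i j
        rw [Function.iterate_add_apply]
        exact (Function.LeftInverse.iterate f.symm_apply_apply i) _
      refine ⟨n, hn, ?_, ?_⟩
      · have := hinv n 0
        rw [add_zero, h1] at this
        exact this
      · have h3 : Pr f.symm (fun z => (w (f.symm z))⁻¹) n z = (Pr f w n z)⁻¹ := by
          unfold Pr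
          rw [Finset.prod_inv_distrib]
          congr 1
          rw [← Finset.prod_range_reflect]
          refine Finset.prod_congr rfl fun i hi => ?_
          have hi' := Finset.mem_range.mp hi
          congr 1
          rw [← Function.iterate_succ_apply' (⇑f.symm)]
          have h4 := hinv (n - 1 - i + 1) i
          have h5 : n - 1 - i + 1 + i = n := by omega
          rw [h5, h1] at h4
          exact h4
        rw [h3]
        exact inv_lt_one_of_one_lt₀ h2
    obtain ⟨C, μ, hC, hμ, hμ1, hbd⟩ := finite_bd (f := f.symm)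
      (w := fun z => (w (f.symm z))⁻¹) (fun z => inv_pos.mpr (hw0 _)) hRpf hback
    refine hyperbolic_of_contraction (T := T.symm) (f := f.symm) hsymm cov cov1 hu hu1
      (fun Y _ _ E C μ h1 h2 h3 h4 h5 h6 => block_splitting E C μ h1 h2 h3 h4 h5 h6)
      (isHyperbolic_symm hu hTinv hb) ?_ hRpf.isClosed ?_ ?_ hG1 hF1 lG lF
      (fun z => w (f.symm z)) (fun z => hw0 _) hder' C μ hC hμ hμ1 ?_
    · intro x
      have := hTinv (T.symm x)
      rw [T.apply_symm_apply] at this
      exact this.symm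
    · intro z
      have := hRpi (f.symm z)
      rw [f.apply_symm_apply] at this
      exact this.symm
    · rintro z ⟨n, hn, h1, _⟩
      exact ⟨n, hn, by rw [← hTit, h1]⟩
    · intro z hz n
      have h1 : (Phi f.symm (fun z => w (f.symm z)) n z)⁻¹ =
          Pr f.symm (fun z => (w (f.symm z))⁻¹) n z := by
        unfold Phi Pr
        rw [Finset.prod_inv_distrib]
      rw [h1]
      exact hbd z hz n
  have hypP : IsHyperbolic toTorus1 f Rp := by
    have := isHyperbolic_symm hu1 (f := f.symm) (S := Rp) (fun z => by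
      have := hRpi (f.symm z)
      rw [f.apply_symm_apply] at this
      exact this.symm) hypP'
    simpa using this
  rw [hPer]
  exact isHyperbolic_union hu1 hRpf.isClosed hRmf.isClosed hdis hRpi hRmi hypP hypM

end Pool.Agent.H637R2.TD
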