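import Pool.Agent.H637R2.TD.Base

open Set Filter Topology MeasureTheory

namespace Pool.Agent.H637R2.TD

open Pool.Agent.H728R2.OS

namespace NewpAux

/-- the perturbed fibre maps -/
def hh (g : ℕ → ℝ → ℝ) (ψ : ℕ → ℝ → ℝ) (s : ℝ) : ℕ → ℝ → ℝ := fun i y => g i y + s * ψ i (g i y)

theorem orbit (g : ℕ → ℝ → ℝ) (ψ : ℕ → ℝ → ℝ) (s y₀ : ℝ) (N : ℕ)
    (hz : ∀ i < N, ψ i (g i (itr id g i y₀)) = 0) : ∀ n ≤ N, itr id (hh g ψ s) n y₀ = itr id g n y₀ := by
  intro n
  induction n with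
  | zero => intro _; rfl
  | succ n ih =>
    intro hn
    have h1 : itr id (hh g ψ s) (n + 1) y₀ = hh g ψ s n (itr id (hh g ψ s) n y₀) := rfl
    have h2 : itr id g (n + 1) y₀ = g n (itr id g n y₀) := rfl
    rw [h1, h2, ih (by omega)]
    simp only [hh]
    rw [hz n (by omega), mul_zero, add_zero]

theorem der (g : ℕ → ℝ → ℝ) (hg : ∀ i, Differentiable ℝ (g i)) (ψ : ℕ → ℝ → ℝ)
    (hψ : ∀ i, Differentiable ℝ (ψ i)) (s y₀ : ℝ) (N : ℕ)
    (hz : ∀ i < N, ψ i (g i (itr id g i y₀)) = 0) : ∀ n ≤ N,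
    HasDerivAt (itr id (hh g ψ s) n)
      ((∏ i ∈ Finset.range n, (1 + s * deriv (ψ i) (g i (itr id g i y₀)))) *
        ∏ i ∈ Finset.range n, deriv (g i) (itr id g i y₀)) y₀ := by
  intro n
  induction n with
  | zero =>
    intro _
    simp only [Finset.range_zero, Finset.prod_empty, mul_one]
    exact hasDerivAt_id y₀
  | succ n ih =>
    intro hn
    have h1 := ih (by omega)
    have h3 : HasDerivAt (g n) (deriv (g n) (itr id g n y₀)) (itr id (hh g ψ s) n y₀) := by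
      rw [orbit g ψ s y₀ N hz n (by omega)]
      exact (hg n _).hasDerivAt
    have h4 := h3.comp y₀ h1
    have h5 : HasDerivAt (ψ n) (deriv (ψ n) (g n (itr id g n y₀))) ((g n ∘ itr id (hh g ψ s) n) y₀) := by
      have : (g n ∘ itr id (hh g ψ s) n) y₀ = g n (itr id g n y₀) := by
        simp only [Function.comp_apply]
        rw [orbit g ψ s y₀ N hz n (by omega)]
      rw [this]
      exact (hψ n _).hasDerivAt
    have h6 := h5.comp y₀ h4
    have h7 := h4.add (h6.const_mul s)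
    convert! h7 using 1
    rw [Finset.prod_range_succ, Finset.prod_range_succ]
    ring

theorem cont_s (g : ℕ → ℝ → ℝ) (hg : ∀ i, Differentiable ℝ (g i)) (ψ : ℕ → ℝ → ℝ)
    (hψ : ∀ i, Differentiable ℝ (ψ i)) (y : ℝ) (n : ℕ) :
    Continuous fun s => itr id (hh g ψ s) n y := by
  induction n with
  | zero => exact continuous_const
  | succ n ih =>
    have h1 : Continuous fun s => g n (itr id (hh g ψ s) n y) := (hg n).continuous.comp ih
    exact h1.add (continuous_id.mul ((hψ n).continuous.comp h1))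

theorem cont_y (g : ℕ → ℝ → ℝ) (hg : ∀ i, Differentiable ℝ (g i)) (ψ : ℕ → ℝ → ℝ)
    (hψ : ∀ i, Differentiable ℝ (ψ i)) (s : ℝ) (n : ℕ) :
    Continuous (itr id (hh g ψ s) n) := by
  induction n with
  | zero => exact continuous_id
  | succ n ih =>
    have h1 : Continuous fun y => g n (itr id (hh g ψ s) n y) := (hg n).continuous.comp ih
    exact h1.add (continuous_const.mul ((hψ n).continuous.comp h1))

theorem neg_right {D : ℝ → ℝ} {e y₀ : ℝ} (hD : HasDerivAt D e y₀) (h0 : D y₀ = 0) (he : e < 0) :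
    ∀ᶠ y in 𝓝[>] y₀, D y < 0 := by
  have h1 := hasDerivAt_iff_tendsto_slope.mp hD
  have h2 : Tendsto (slope D y₀) (𝓝[>] y₀) (𝓝 e) :=
    h1.mono_left (nhdsWithin_mono _ fun y hy => ne_of_gt hy)
  have h3 := h2.eventually (gt_mem_nhds he)
  filter_upwards [h3, self_mem_nhdsWithin] with y hy hy'
  rw [slope_def_field, h0, sub_zero] at hy
  have hpos : 0 < y - y₀ := sub_pos.mpr hy'
  by_contra hcon
  have : 0 ≤ D y / (y - y₀) := div_nonneg (not_lt.mp hcon) hpos.le
  linarith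

end NewpAux

open NewpAux in
/-- Creation of a new fixed point near a non-hyperbolic one. -/
theorem new_periodic (N : ℕ) (g : ℕ → ℝ → ℝ) (hg : ∀ i, Differentiable ℝ (g i))
    (hg0 : ∀ i y, 0 < deriv (g i) y) (ψ : ℕ → ℝ → ℝ) (hψ : ∀ i, Differentiable ℝ (ψ i))
    (m y₀ δ : ℝ) (hδ : 0 < δ) (h0 : itr id g N y₀ = y₀ + m)
    (hz : ∀ i < N, ψ i (g i (itr id g i y₀)) = 0)
    (hp : ∀ i < N, 0 ≤ deriv (ψ i) (g i (itr id g i y₀)))
    (hp' : ∃ i < N, 0 < deriv (ψ i) (g i (itr id g i y₀)))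
    (hd : deriv (itr id g N) y₀ = 1)
    (hiso : ∀ y, y₀ < y → y ≤ y₀ + δ → itr id g N y ≠ y + m) (s₀ : ℝ) (hs₀ : 0 < s₀) :
    ∃ s : ℝ, |s| < s₀ ∧ ∃ y, y₀ < y ∧ y < y₀ + δ ∧
      itr id (fun i y => g i y + s * ψ i (g i y)) N y = y + m := by
  set c : ℕ → ℝ := fun i => deriv (ψ i) (g i (itr id g i y₀)) with hc
  have hh0 : hh g ψ 0 = g := by
    funext i y; simp [hh]
  have hprod : ∏ i ∈ Finset.range N, deriv (g i) (itr id g i y₀) = 1 := by
    have h1 := der g hg ψ hψ 0 y₀ N hz N le_rfl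
    rw [hh0] at h1
    have h2 := h1.deriv
    rw [hd] at h2
    simpa using h2.symm
  -- the displacement
  let D : ℝ → ℝ → ℝ := fun s y => itr id (hh g ψ s) N y - y - m
  have hD0 : ∀ s, D s y₀ = 0 := by
    intro s
    simp only [D]
    rw [orbit g ψ s y₀ N hz N le_rfl, h0]; ring
  have hDd : ∀ s, HasDerivAt (D s) ((∏ i ∈ Finset.range N, (1 + s * c i)) - 1) y₀ := by
    intro s
    have h1 := der g hg ψ hψ s y₀ N hz N le_rfl
    rw [hprod, mul_one] at h1
    exact (h1.sub (hasDerivAt_id y₀)).sub_const m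
  have hDc : ∀ s, Continuous (D s) := fun s =>
    ((cont_y g hg ψ hψ s N).sub continuous_id).sub continuous_const
  set y₁ : ℝ := y₀ + δ / 2 with hy₁
  have hDs : Continuous fun s => D s y₁ :=
    ((cont_s g hg ψ hψ y₁ N).sub continuous_const).sub continuous_const
  have hne : D 0 y₁ ≠ 0 := by
    intro h
    apply hiso y₁ (by rw [hy₁]; linarith) (by rw [hy₁]; linarith)
    simp only [D, hh0] at h
    linarith
  have hev1 : ∀ᶠ s : ℝ in 𝓝 0, |s| < s₀ := by
    have : ContinuousAt (fun s : ℝ => |s|) 0 := continuous_abs.continuousAt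
    have h2 : (fun s : ℝ => |s|) 0 < s₀ := by simpa using hs₀
    exact this.eventually (gt_mem_nhds h2)
  have hev2 : ∀ᶠ s : ℝ in 𝓝 0, ∀ i ∈ Finset.range N, 0 < 1 + s * c i := by
    rw [Filter.eventually_all_finset]
    intro i _
    have h1 : Continuous fun s : ℝ => 1 + s * c i := by fun_prop
    have h2 : (0 : ℝ) < (fun s : ℝ => 1 + s * c i) 0 := by simp
    exact h1.continuousAt.eventually (lt_mem_nhds h2)
  have hlt1 : y₀ < y₁ := by rw [hy₁]; linarith
  have hlt2 : y₁ < y₀ + δ := by rw [hy₁]; linarith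
  have hconv : ∀ s y, D s y = 0 → itr id (fun i y => g i y + s * ψ i (g i y)) N y = y + m := by
    intro s y h
    have : itr id (fun i y => g i y + s * ψ i (g i y)) N y = itr id (hh g ψ s) N y := rfl
    rw [this]
    simp only [D] at h
    linarith
  obtain ⟨i0, hi0, hci0⟩ := hp'
  rcases lt_or_gt_of_ne hne with hneg | hpos
  · -- `D 0 y₁ < 0`: take `s > 0`
    have hev3 : ∀ᶠ s : ℝ in 𝓝 0, D s y₁ < 0 := hDs.continuousAt.eventually (gt_mem_nhds hneg)
    have hev : ∀ᶠ s : ℝ in 𝓝[>] 0, |s| < s₀ ∧ (∀ i ∈ Finset.range N, 0 < 1 + s * c i) ∧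
        D s y₁ < 0 := (hev1.and (hev2.and hev3)).filter_mono nhdsWithin_le_nhds
    obtain ⟨s, ⟨hs1, hs2, hs3⟩, hs⟩ := (hev.and self_mem_nhdsWithin).exists
    have hs : 0 < s := hs
    have he : 0 < (∏ i ∈ Finset.range N, (1 + s * c i)) - 1 := by
      have : ∏ i ∈ Finset.range N, (1 : ℝ) < ∏ i ∈ Finset.range N, (1 + s * c i) := by
        apply Finset.prod_lt_prod
        · intro i _; exact one_pos
        · intro i hi
          have := hp i (Finset.mem_range.mp hi)
          have : 0 ≤ s * c i := mul_nonneg hs.le this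
          linarith
        · exact ⟨i0, Finset.mem_range.mpr hi0, by
            have : 0 < s * c i0 := mul_pos hs hci0
            linarith⟩
      rw [Finset.prod_const_one] at this
      linarith
    have hneg' : ∀ᶠ y in 𝓝[>] y₀, -D s y < 0 := by
      have h1 := (hDd s).neg
      exact neg_right h1 (by simp [hD0]) (by linarith)
    obtain ⟨y, hy1, hy2⟩ := (hneg'.and (Ioo_mem_nhdsGT hlt1)).exists
    have hiv := intermediate_value_Ioo' (le_of_lt hy2.2) ((hDc s).continuousOn)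
    obtain ⟨z, hz1, hz2⟩ := hiv (show (0 : ℝ) ∈ Ioo (D s y₁) (D s y) from ⟨hs3, by linarith⟩)
    exact ⟨s, hs1, z, by linarith [hz1.1, hy2.1], by linarith [hz1.2], hconv s z hz2⟩
  · -- `D 0 y₁ > 0`: take `s < 0`
    have hev3 : ∀ᶠ s : ℝ in 𝓝 0, 0 < D s y₁ := hDs.continuousAt.eventually (lt_mem_nhds hpos)
    have hev : ∀ᶠ s : ℝ in 𝓝[<] 0, |s| < s₀ ∧ (∀ i ∈ Finset.range N, 0 < 1 + s * c i) ∧
        0 < D s y₁ := (hev1.and (hev2.and hev3)).filter_mono nhdsWithin_le_nhds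
    obtain ⟨s, ⟨hs1, hs2, hs3⟩, hs⟩ := (hev.and self_mem_nhdsWithin).exists
    have hs : s < 0 := hs
    have he : (∏ i ∈ Finset.range N, (1 + s * c i)) - 1 < 0 := by
      have : ∏ i ∈ Finset.range N, (1 + s * c i) < ∏ i ∈ Finset.range N, (1 : ℝ) := by
        apply Finset.prod_lt_prod
        · intro i hi; exact hs2 i hi
        · intro i hi
          have := hp i (Finset.mem_range.mp hi)
          have : s * c i ≤ 0 := mul_nonpos_of_nonpos_of_nonneg hs.le this
          linarith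
        · exact ⟨i0, Finset.mem_range.mpr hi0, by
            have : s * c i0 < 0 := mul_neg_of_neg_of_pos hs hci0
            linarith⟩
      rw [Finset.prod_const_one] at this
      linarith
    have hneg' : ∀ᶠ y in 𝓝[>] y₀, D s y < 0 := neg_right (hDd s) (hD0 s) he
    obtain ⟨y, hy1, hy2⟩ := (hneg'.and (Ioo_mem_nhdsGT hlt1)).exists
    have hiv := intermediate_value_Ioo (le_of_lt hy2.2) ((hDc s).continuousOn)
    obtain ⟨z, hz1, hz2⟩ := hiv (show (0 : ℝ) ∈ Ioo (D s y) (D s y₁) from ⟨hy1, hs3⟩)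
    exact ⟨s, hs1, z, by linarith [hz1.1, hy2.1], by linarith [hz1.2], hconv s z hz2⟩

end Pool.Agent.H637R2.TD
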