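import Pool.Agent.H637R2.TD.Base

open Set Filter Topology MeasureTheory

namespace Pool.Agent.H637R2.TD

open Pool.Agent.H728R2.OS

private theorem it_zadd {X : Type*} [MetricSpace X] (S : FiberSys X) (x : X) (n : ℕ) (y : ℝ)
    (k : ℤ) : S.it x n (y + k) = S.it x n y + k := by
  induction k using Int.induction_on with
  | zero => simp
  | succ k ih =>
    have := S.it_deg x n (y + (k : ℤ))
    push_cast at ih this ⊢
    rw [← add_assoc, this, ih]; ring
  | pred k ih =>
    have := S.it_deg x n (y + ((-(k : ℤ) - 1 : ℤ) : ℝ))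
    have h2 : y + ((-(k : ℤ) - 1 : ℤ) : ℝ) + 1 = y + ((-(k : ℤ) : ℤ) : ℝ) := by push_cast; ring
    rw [h2, ih] at this
    push_cast at this ⊢
    linarith

private theorem it_iter {X : Type*} [MetricSpace X] (S : FiberSys X) (x : X) (N : ℕ)
    (hx : S.T^[N] x = x) (n : ℕ) (y : ℝ) : S.it x (N * n) y = (S.it x N)^[n] y := by
  have hT : ∀ n, S.T^[N * n] x = x := fun n => by
    rw [Function.iterate_mul]
    exact Function.iterate_fixed hx n
  induction n with
  | zero => rfl
  | succ n ih =>
    rw [Nat.mul_succ, S.it_add, hT, ih, Function.iterate_succ_apply']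

/-- If the return map over the periodic point `x` has displacement `m` somewhere crossed with both
signs, then every periodic point in the fibre of `x` is a solution of `it x N y = y + m`. -/
theorem per_of_fiber {X : Type*} [MetricSpace X] (S : FiberSys X) (x : X) (N : ℕ) (hN : 0 < N)
    (hx : S.T^[N] x = x) (m : ℤ) (hs : SignChange (S.it x N) m) (y : ℝ) (n : ℕ) (hn : 0 < n)
    (hy : S.map^[n] (x, (y : UnitAddCircle)) = (x, (y : UnitAddCircle))) :
    S.it x N y = y + m := by
  set H := S.it x N with hH
  have hmono : StrictMono H := S.it_mono x N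
  -- iterate the periodicity relation
  have h1 : S.map^[N * n] (x, (y : UnitAddCircle)) = (x, (y : UnitAddCircle)) := by
    rw [mul_comm, Function.iterate_mul]
    exact Function.iterate_fixed hy N
  rw [S.map_iterate, it_iter S x N hx] at h1
  have h2 : ((H^[n] y : ℝ) : UnitAddCircle) = (y : UnitAddCircle) := congrArg Prod.snd h1
  have h3 : ∃ M : ℤ, H^[n] y = y + M := by
    have := (QuotientAddGroup.eq_iff_sub_mem (N := AddSubgroup.zmultiples (1 : ℝ))).1 h2
    obtain ⟨M, hM⟩ := AddSubgroup.mem_zmultiples_iff.1 this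
    refine ⟨M, ?_⟩
    simp only [zsmul_eq_mul, mul_one] at hM
    linarith
  obtain ⟨M, hM⟩ := h3
  -- the solution given by the intermediate value theorem
  obtain ⟨⟨a, ha⟩, ⟨b, hb⟩⟩ := hs
  have hc : ∃ c, H c = c + m := by
    have hcont : Continuous fun y => H y - y - m :=
      ((S.it_cont x N).sub continuous_id).sub continuous_const
    have : (0 : ℝ) ∈ Set.range fun y => H y - y - m := by
      refine mem_range_of_exists_le_of_exists_ge hcont ⟨b, ?_⟩ ⟨a, ?_⟩
      · show H b - b - m ≤ 0
        linarith
      · show 0 ≤ H a - a - m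
        linarith
    obtain ⟨c, hc⟩ := this
    exact ⟨c, by simp only at hc; linarith⟩
  obtain ⟨c, hc⟩ := hc
  -- shift `c`
  have hc2 : ∃ c, H c = c + m ∧ c ≤ y ∧ y < c + 1 := by
    refine ⟨c + (⌊y - c⌋ : ℤ), ?_, ?_, ?_⟩
    · rw [hH, it_zadd, ← hH, hc]; ring
    · have := Int.floor_le (y - c); linarith
    · have := Int.lt_floor_add_one (y - c); linarith
  obtain ⟨c, hc, hcy, hyc⟩ := hc2
  have hcn : ∀ n : ℕ, H^[n] c = c + n * m := by
    intro n
    induction n with
    | zero => simp
    | succ n ih =>
      rw [Function.iterate_succ_apply', ih]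
      have := it_zadd S x N c (n * m)
      push_cast at this
      rw [hH, this, ← hH, hc]; push_cast; ring
  have hmn : ∀ n : ℕ, StrictMono (H^[n]) := fun n => hmono.iterate n
  have hdeg : ∀ n : ℕ, ∀ z : ℝ, ∀ k : ℤ, H^[n] (z + k) = H^[n] z + k := by
    intro n z k
    induction n with
    | zero => rfl
    | succ n ih => rw [Function.iterate_succ_apply', ih, hH, it_zadd, ← hH,
        Function.iterate_succ_apply']
  have hMn : M = n * m := by
    have e1 : c + n * m ≤ y + M := by
      rw [← hcn, ← hM]; exact (hmn n).monotone hcy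
    have e2 : y + M < c + n * m + 1 := by
      rw [← hM, ← hcn]
      have := hdeg n c 1
      push_cast at this
      rw [← this]
      exact hmn n hyc
    have e3 : (n : ℝ) * m < M + 1 := by linarith
    have e4 : (M : ℝ) < n * m + 1 := by linarith
    have e3' : (n : ℤ) * m < M + 1 := by exact_mod_cast e3
    have e4' : M < (n : ℤ) * m + 1 := by exact_mod_cast e4
    omega
  rw [hMn] at hM
  push_cast at hM
  rcases lt_trichotomy (H y) (y + m) with h | h | h
  · exfalso
    have : ∀ k : ℕ, 0 < k → H^[k] y < y + k * m := by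
      intro k hk
      induction k with
      | zero => omega
      | succ k ih =>
        rcases Nat.eq_zero_or_pos k with rfl | hk
        · simpa using h
        · have e := ih hk
          rw [Function.iterate_succ_apply']
          calc H (H^[k] y) < H (y + k * m) := hmono e
            _ = H y + k * m := by
              have := it_zadd S x N y (k * m)
              push_cast at this
              rw [hH, this]
            _ < _ := by push_cast; linarith
    have := this n hn
    linarith
  · exact h
  · exfalso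
    have : ∀ k : ℕ, 0 < k → y + k * m < H^[k] y := by
      intro k hk
      induction k with
      | zero => omega
      | succ k ih =>
        rcases Nat.eq_zero_or_pos k with rfl | hk
        · simpa using h
        · have e := ih hk
          rw [Function.iterate_succ_apply']
          calc (y + ((k + 1 : ℕ) : ℝ) * m) < H y + k * m := by push_cast; linarith
            _ = H (y + k * m) := by
              have := it_zadd S x N y (k * m)
              push_cast at this
              rw [hH, this]
            _ < _ := hmono e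
    have := this n hn
    linarith

/-- Finiteness of the set of periodic points of the skew product. -/
theorem per_finite {X : Type*} [MetricSpace X] (S : FiberSys X)
    (hT : {x | ∃ n, 0 < n ∧ S.T^[n] x = x}.Finite)
    (h : ∀ x n, 0 < n → S.T^[n] x = x → ∃ (N : ℕ) (m : ℤ), 0 < N ∧ S.T^[N] x = x ∧
      SignChange (S.it x N) m ∧ {y | y ∈ Icc (0 : ℝ) 1 ∧ S.it x N y = y + m}.Finite) :
    {z | ∃ n, 0 < n ∧ S.map^[n] z = z}.Finite := by
  have hfib : ∀ x ∈ {x | ∃ n, 0 < n ∧ S.T^[n] x = x},
      {z : X × Circ | z.1 = x ∧ ∃ n, 0 < n ∧ S.map^[n] z = z}.Finite := by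
    rintro x ⟨n, hn, hx⟩
    obtain ⟨N, m, hN, hxN, hs, hfin⟩ := h x n hn hx
    refine (hfin.image fun y : ℝ => ((x, (y : UnitAddCircle)) : X × Circ)).subset ?_
    rintro ⟨x', w⟩ ⟨rfl, k, hk, hz⟩
    obtain ⟨y0, rfl⟩ := QuotientAddGroup.mk_surjective w
    have e : ((Int.fract y0 : ℝ) : UnitAddCircle) = (y0 : UnitAddCircle) := by
      refine (QuotientAddGroup.eq_iff_sub_mem (N := AddSubgroup.zmultiples (1 : ℝ))).2 ?_
      refine AddSubgroup.mem_zmultiples_iff.2 ⟨-⌊y0⌋, ?_⟩
      simp only [zsmul_eq_mul, mul_one]
      push_cast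
      rw [Int.fract]; ring
    refine ⟨Int.fract y0, ⟨⟨Int.fract_nonneg _, (Int.fract_lt_one _).le⟩, ?_⟩, ?_⟩
    · refine per_of_fiber S x' N hN hxN m hs _ k hk ?_
      rw [e]
      exact hz
    · show ((x', ((Int.fract y0 : ℝ) : UnitAddCircle)) : X × Circ) = _
      rw [e]
  refine (hT.biUnion hfib).subset ?_
  rintro ⟨x, w⟩ ⟨n, hn, hz⟩
  obtain ⟨y0, rfl⟩ := QuotientAddGroup.mk_surjective w
  have hx : S.T^[n] x = x := by
    have := S.map_iterate x n y0
    have h2 : S.map^[n] (x, (y0 : UnitAddCircle)) = (x, (y0 : UnitAddCircle)) := hz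
    rw [h2] at this
    exact (congrArg Prod.fst this).symm
  exact mem_biUnion (show x ∈ {x | ∃ n, 0 < n ∧ S.T^[n] x = x} from ⟨n, hn, hx⟩)
    ⟨rfl, n, hn, hz⟩

end Pool.Agent.H637R2.TD
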