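import Pool.Agent.H637R2.TD.Base
import Pool.Agent.H728R2.OS.S.FIXFIN
import Pool.Agent.H728R2.OS.S.COV

open Set Filter Topology MeasureTheory

namespace Pool.Agent.H637R2.TD

open Pool.Agent.H728R2.OS

namespace PERS

/-- Small Lipschitz perturbations of a map with a nondegenerate fixed point have a fixed point. -/
theorem fix_pert {W : Type*} [NormedAddCommGroup W] [NormedSpace ℝ W] [FiniteDimensional ℝ W]
    (Φ : W → W) (Φ' : W →L[ℝ] W) (a : W) (hΦ : HasStrictFDerivAt Φ Φ' a) (ha : Φ a = a)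
    (hinj : ∀ w, Φ' w = w → w = 0) (ρ : ℝ) (hρ : 0 < ρ) :
    ∃ η : NNReal, 0 < η ∧ ∀ Ψ : W → W, ‖Ψ a - Φ a‖ ≤ η → LipschitzWith η (fun w => Ψ w - Φ w) →
      ∃ w, ‖w - a‖ ≤ ρ ∧ Ψ w = w := by
  have : CompleteSpace W := FiniteDimensional.complete ℝ W
  set L : W →L[ℝ] W := Φ' - ContinuousLinearMap.id ℝ W with hL
  have hLinj : Function.Injective (L : W →ₗ[ℝ] W) := by
    rw [← LinearMap.ker_eq_bot, LinearMap.ker_eq_bot']
    intro v hv
    exact hinj v (sub_eq_zero.1 hv)
  have hLs : L.range = ⊤ :=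
    LinearMap.range_eq_top.2 (LinearMap.injective_iff_surjective.1 hLinj)
  set R := L.nonlinearRightInverseOfSurjective hLs with hR
  have hRpos : 0 < R.nnnorm := L.nonlinearRightInverseOfSurjective_nnnorm_pos hLs
  set c : NNReal := R.nnnorm⁻¹ / 4 with hc
  have cpos : 0 < c := by
    rw [hc]
    exact div_pos (inv_pos.2 hRpos) (by norm_num)
  have hst : HasStrictFDerivAt (fun w => Φ w - w) L a := hΦ.sub (hasStrictFDerivAt_id a)
  obtain ⟨s, hs, hap⟩ := hst.approximates_deriv_on_nhds (Or.inr cpos)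
  obtain ⟨r, hr, hrs⟩ := Metric.mem_nhds_iff.1 hs
  set ε : ℝ := min ρ (r / 2) with hε
  have hεpos : 0 < ε := lt_min hρ (by positivity)
  set εn : NNReal := ⟨ε, hεpos.le⟩ with hεn
  have hεnpos : 0 < εn := hεpos
  refine ⟨min c (c * εn), lt_min cpos (mul_pos cpos hεnpos), fun Ψ h1 h2 => ?_⟩
  have hball : Metric.closedBall a ε ⊆ s := by
    intro x hx
    apply hrs
    rw [Metric.mem_closedBall] at hx
    rw [Metric.mem_ball]
    have : ε ≤ r / 2 := min_le_right _ _
    linarith
  have hap2 : ApproximatesLinearOn (fun w => Ψ w - w) L (Metric.closedBall a ε) (c + c) := by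
    intro x hx y hy
    have h3 := hap x (hball hx) y (hball hy)
    have h4 := h2.norm_sub_le x y
    have h5 : (fun w => Ψ w - w) x - (fun w => Ψ w - w) y - L (x - y) =
        ((fun w => Φ w - w) x - (fun w => Φ w - w) y - L (x - y)) +
        ((fun w => Ψ w - Φ w) x - (fun w => Ψ w - Φ w) y) := by
      simp only
      abel
    rw [h5]
    have h6 : ((min c (c * εn) : NNReal) : ℝ) ≤ c := by
      exact_mod_cast min_le_left _ _
    calc _ ≤ _ := norm_add_le _ _
      _ ≤ (c : ℝ) * ‖x - y‖ + (c : ℝ) * ‖x - y‖ := by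
        refine add_le_add h3 (h4.trans ?_)
        exact mul_le_mul_of_nonneg_right h6 (norm_nonneg _)
      _ = ((c + c : NNReal) : ℝ) * ‖x - y‖ := by push_cast; ring
  have hsurj := hap2.surjOn_closedBall_of_nonlinearRightInverse R hεpos.le subset_rfl
  have h0 : (0 : W) ∈ Metric.closedBall ((fun w => Ψ w - w) a)
      (((R.nnnorm : ℝ)⁻¹ - ((c + c : NNReal) : ℝ)) * ε) := by
    rw [Metric.mem_closedBall, dist_zero_left]
    have h3 : (fun w => Ψ w - w) a = Ψ a - Φ a := by simp only [ha]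
    rw [h3]
    refine h1.trans ?_
    have h4 : ((min c (c * εn) : NNReal) : ℝ) ≤ (c : ℝ) * ε := by
      have : min c (c * εn) ≤ c * εn := min_le_right _ _
      exact_mod_cast this
    refine h4.trans ?_
    have h5 : (R.nnnorm : ℝ)⁻¹ = 4 * c := by
      rw [hc]; push_cast; ring
    rw [h5]
    push_cast
    have : 0 ≤ (c : ℝ) := c.2
    nlinarith
  obtain ⟨w, hw, hw0⟩ := hsurj h0
  refine ⟨w, ?_, sub_eq_zero.1 hw0⟩
  rw [Metric.mem_closedBall, dist_eq_norm] at hw
  exact hw.trans (min_le_left _ _)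

open FIXFIN in
theorem no_fixed {d : ℕ} {T : Torus d ≃ₜ Torus d} {S : Set (Torus d)}
    (hS : IsHyperbolic toTorus T S) (hper : Per T ⊆ S) {m : ℕ} (hm : 0 < m) {z : Fin d → ℝ}
    (hx : T^[m] (toTorus z) = toTorus z) : ∃ F : (Fin d → ℝ) → (Fin d → ℝ), ContDiff ℝ 1 F ∧
      IsLift toTorus F T ∧ ∀ v, fderiv ℝ (F^[m]) z v = v → v = 0 := by
  obtain ⟨F, G, hF, hG, hFl, hGl, P, c, μ, hc, hμ0, hμ1, -, hPP, hcomm, hbd⟩ := hS
  refine ⟨F, hF, hFl, ?_⟩
  have hSz : ∀ j, T^[j] (toTorus z) ∈ S := by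
    intro j
    apply hper
    refine ⟨m, hm, ?_⟩
    rw [← Function.iterate_add_apply, add_comm, Function.iterate_add_apply, hx]
  have hzS : toTorus z ∈ S := hSz 0
  have hx' : T.symm^[m] (toTorus z) = toTorus z := by
    conv_lhs => rw [← hx]
    exact (T.left_inv.iterate m : Function.LeftInverse (T.symm^[m]) (T^[m])) _
  -- the derivatives
  set A := fderiv ℝ (F^[m]) z with hA
  have hAn : ∀ n, fderiv ℝ (F^[m * n]) z = A ^ n := by
    intro n
    rw [Function.iterate_mul]
    exact fderiv_iter (cd_iter hF m) (lift_iter hFl m) hx n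
  have hBn : ∀ n, fderiv ℝ (G^[m * n]) z = (fderiv ℝ (G^[m]) z) ^ n := by
    intro n
    rw [Function.iterate_mul]
    exact fderiv_iter (cd_iter hG m) (lift_iter hGl m) hx' n
  have hAP : ∀ v, A (P (toTorus z) v) = P (toTorus z) (A v) := by
    intro v
    have h1 := comm_iter hF hFl hcomm hSz m
    rw [hx] at h1
    exact congrArg (fun L : (Fin d → ℝ) →L[ℝ] (Fin d → ℝ) => L v) h1
  have hBA : ∀ v, fderiv ℝ (G^[m]) z (A v) = v := by
    intro v
    have h1 : DifferentiableAt ℝ (G^[m]) (F^[m] z) :=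
      ((cd_iter hG m).differentiable one_ne_zero).differentiableAt
    have h2 : DifferentiableAt ℝ (F^[m]) z :=
      ((cd_iter hF m).differentiable one_ne_zero).differentiableAt
    have h3 : fderiv ℝ (G^[m]) (F^[m] z) = fderiv ℝ (G^[m]) z := by
      have h4 : F^[m] z = z + (F^[m] z - z) := by abel
      conv_lhs => rw [h4]
      exact shift (cd_iter hG m).continuous (lift_iter hGl m)
        (by rw [tor_sub, lift_iter hFl m, hx, sub_self]) z
    have h5 : fderiv ℝ (G^[m] ∘ F^[m]) z = fderiv ℝ (G^[m]) z ∘L A := by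
      rw [fderiv_comp z h1 h2, h3]
    have h6 : fderiv ℝ (G^[m] ∘ F^[m]) z = ContinuousLinearMap.id ℝ _ := by
      have hcont : Continuous fun u => G^[m] (F^[m] u) - u :=
        ((cd_iter hG m).continuous.comp (cd_iter hF m).continuous).sub continuous_id
      have hli : ∀ y, T.symm^[m] (T^[m] y) = y :=
        (T.left_inv.iterate m : Function.LeftInverse (T.symm^[m]) (T^[m]))
      have h7 := loc_const hcont (fun u => by
        rw [tor_sub, lift_iter hGl m, lift_iter hFl m, hli, sub_self]) z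
      have h8 : (G^[m] ∘ F^[m]) =ᶠ[𝓝 z] fun u => u + (G^[m] (F^[m] z) - z) := by
        filter_upwards [h7] with u hu
        rw [← hu]
        show G^[m] (F^[m] u) = _
        abel
      rw [h8.fderiv_eq (𝕜 := ℝ), fderiv_add_const]
      exact fderiv_fun_id
    rw [h5] at h6
    exact congrArg (fun L : (Fin d → ℝ) →L[ℝ] (Fin d → ℝ) => L v) h6
  -- no fixed vectors
  intro v hv
  have hpow : ∀ (L : (Fin d → ℝ) →L[ℝ] (Fin d → ℝ)) (w : Fin d → ℝ), L w = w →
      ∀ n : ℕ, (L ^ n) w = w := by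
    intro L w hw n
    induction n with
    | zero => rfl
    | succ n ih =>
      rw [pow_succ]
      show (L ^ n) (L w) = w
      rw [hw, ih]
  have h1 : P (toTorus z) v = 0 := by
    apply vanish hμ0 hμ1 hm (c := c)
    intro n
    have h2 := (hbd (m * n) z hzS v).1
    rw [hAn, hpow A (P (toTorus z) v) (by rw [hAP, hv]) n] at h2
    exact h2
  have h3 : v - P (toTorus z) v = 0 := by
    apply vanish hμ0 hμ1 hm (c := c)
    intro n
    have h2 := (hbd (m * n) z hzS v).2
    have hBv : fderiv ℝ (G^[m]) z v = v := by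
      conv_lhs => rw [← hv]
      exact hBA v
    rw [hBn, hpow (fderiv ℝ (G^[m]) z) (v - P (toTorus z) v) (by rw [h1, sub_zero, hBv]) n] at h2
    exact h2
  rw [h1, sub_zero] at h3
  exact h3

section Cyclic

variable {V : Type*} [NormedAddCommGroup V] [NormedSpace ℝ V]

/-- The cyclic system attached to `G`. -/
def cyc (n : ℕ) (v : V) (G : V → V) (w : Fin (n + 1) → V) (i : Fin (n + 1)) : V :=
  Fin.cases (G (w (Fin.last n)) - v) (fun j : Fin n => G (w j.castSucc)) i

theorem cyc_iter {n : ℕ} {v : V} {G : V → V} {w : Fin (n + 1) → V} (h : cyc n v G w = w) :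
    G^[n + 1] (w 0) = w 0 + v := by
  have h0 : G (w (Fin.last n)) - v = w 0 := congrFun h 0
  have hs : ∀ j : Fin n, G (w j.castSucc) = w j.succ := fun j => congrFun h j.succ
  have hi : ∀ k : ℕ, ∀ hk : k < n + 1, G^[k] (w 0) = w ⟨k, hk⟩ := by
    intro k
    induction k with
    | zero => intro hk; rfl
    | succ k ih =>
      intro hk
      rw [Function.iterate_succ_apply', ih (by omega)]
      exact hs ⟨k, by omega⟩
  rw [Function.iterate_succ_apply', hi n (by omega)]
  have : (⟨n, by omega⟩ : Fin (n + 1)) = Fin.last n := rfl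
  rw [this, ← h0]
  abel

/-- The derivative of the cyclic system. -/
def cycL (n : ℕ) (A : Fin (n + 1) → V →L[ℝ] V) : (Fin (n + 1) → V) →L[ℝ] (Fin (n + 1) → V) :=
  ContinuousLinearMap.pi fun i => Fin.cases
    (A (Fin.last n) ∘L ContinuousLinearMap.proj (Fin.last n))
    (fun j : Fin n => A j.castSucc ∘L ContinuousLinearMap.proj j.castSucc) i

theorem cyc_deriv [CompleteSpace V] {n : ℕ} {v : V} {F : V → V} (hF : ContDiff ℝ 1 F)
    (a : Fin (n + 1) → V) :
    HasStrictFDerivAt (cyc n v F) (cycL n fun i => fderiv ℝ F (a i)) a := by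
  rw [hasStrictFDerivAt_pi']
  intro i
  refine Fin.cases ?_ (fun j => ?_) i
  · have h1 : HasStrictFDerivAt F (fderiv ℝ F (a (Fin.last n))) (a (Fin.last n)) :=
      hF.hasStrictFDerivAt (by norm_num)
    have h2 : HasStrictFDerivAt (fun w : Fin (n + 1) → V => w (Fin.last n))
        (ContinuousLinearMap.proj (R := ℝ) (φ := fun _ => V) (Fin.last n)) a :=
      hasStrictFDerivAt_apply _ _
    exact (h1.comp a h2).sub_const v
  · have h1 : HasStrictFDerivAt F (fderiv ℝ F (a j.castSucc)) (a j.castSucc) :=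
      hF.hasStrictFDerivAt (by norm_num)
    have h2 : HasStrictFDerivAt (fun w : Fin (n + 1) → V => w j.castSucc)
        (ContinuousLinearMap.proj (R := ℝ) (φ := fun _ => V) j.castSucc) a :=
      hasStrictFDerivAt_apply _ _
    exact h1.comp a h2

theorem cyc_ker {n : ℕ} {F : V → V} (hF : ContDiff ℝ 1 F) (z : V)
    (hinj : ∀ v, fderiv ℝ (F^[n + 1]) z v = v → v = 0) (w : Fin (n + 1) → V)
    (h : cycL n (fun i => fderiv ℝ F (F^[i] z)) w = w) : w = 0 := by
  have hd : ∀ k, Differentiable ℝ (F^[k]) := fun k => (hF.differentiable one_ne_zero).iterate k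
  have h0 : fderiv ℝ F (F^[n] z) (w (Fin.last n)) = w 0 := congrFun h 0
  have hs : ∀ j : Fin n, fderiv ℝ F (F^[j] z) (w j.castSucc) = w j.succ :=
    fun j => congrFun h j.succ
  have hi : ∀ k : ℕ, ∀ hk : k < n + 1, fderiv ℝ (F^[k]) z (w 0) = w ⟨k, hk⟩ := by
    intro k
    induction k with
    | zero =>
      intro hk
      have : fderiv ℝ (F^[0]) z = ContinuousLinearMap.id ℝ _ := fderiv_id
      rw [this]
      rfl
    | succ k ih =>
      intro hk
      rw [Function.iterate_succ', fderiv_comp z ((hF.differentiable one_ne_zero) _) (hd k _)]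
      rw [ContinuousLinearMap.comp_apply, ih (by omega)]
      exact hs ⟨k, by omega⟩
  have hw0 : w 0 = 0 := by
    apply hinj
    rw [Function.iterate_succ', fderiv_comp z ((hF.differentiable one_ne_zero) _) (hd n _)]
    rw [ContinuousLinearMap.comp_apply, hi n (by omega)]
    exact h0
  funext i
  have := hi i i.2
  rw [hw0, map_zero] at this
  exact this.symm

theorem cyc_lip {n : ℕ} {v : V} {F G : V → V} {η : NNReal}
    (h : LipschitzWith η fun y => G y - F y) :
    LipschitzWith η fun w => cyc n v G w - cyc n v F w := by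
  refine LipschitzWith.of_dist_le_mul fun w w' => ?_
  rw [dist_pi_le_iff (by positivity)]
  intro i
  refine Fin.cases ?_ (fun j => ?_) i
  · have h1 := h.dist_le_mul (w (Fin.last n)) (w' (Fin.last n))
    have h2 : dist (w (Fin.last n)) (w' (Fin.last n)) ≤ dist w w' := dist_le_pi_dist _ _ _
    have h3 : dist (G (w (Fin.last n)) - v - (F (w (Fin.last n)) - v))
      (G (w' (Fin.last n)) - v - (F (w' (Fin.last n)) - v)) ≤ η * dist w w' := by
      rw [sub_sub_sub_cancel_right, sub_sub_sub_cancel_right]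
      exact h1.trans (mul_le_mul_of_nonneg_left h2 η.2)
    exact h3
  · have h1 := h.dist_le_mul (w j.castSucc) (w' j.castSucc)
    have h2 : dist (w j.castSucc) (w' j.castSucc) ≤ dist w w' := dist_le_pi_dist _ _ _
    exact h1.trans (mul_le_mul_of_nonneg_left h2 η.2)

theorem cyc_close {n : ℕ} {v : V} {F G : V → V} {η : ℝ} (hη : 0 ≤ η)
    (h : ∀ y, ‖G y - F y‖ ≤ η) (w : Fin (n + 1) → V) :
    ‖cyc n v G w - cyc n v F w‖ ≤ η := by
  rw [pi_norm_le_iff_of_nonneg hη]
  intro i
  refine Fin.cases ?_ (fun j => ?_) i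
  · have h3 : ‖G (w (Fin.last n)) - v - (F (w (Fin.last n)) - v)‖ ≤ η := by
      rw [sub_sub_sub_cancel_right]
      exact h _
    exact h3
  · exact h _

end Cyclic

theorem circ_dist (a b : ℝ) : dist (a : UnitAddCircle) (b : UnitAddCircle) ≤ |a - b| := by
  rw [dist_eq_norm, ← AddCircle.coe_sub, UnitAddCircle.norm_eq]
  have := round_le (a - b) 0
  simpa using this

theorem tor_dist {d : ℕ} (a b : Fin d → ℝ) : dist (toTorus a) (toTorus b) ≤ ‖a - b‖ := by
  rw [dist_pi_le_iff (norm_nonneg _)]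
  intro i
  exact (circ_dist _ _).trans (norm_le_pi_norm (a - b) i)

end PERS

/-- Hyperbolic periodic points persist under `C^1` small perturbations. -/
theorem persist {d : ℕ} (f : Torus d ≃ₜ Torus d) (hf : IsDiffeo toTorus 1 f)
    (hh : IsHyperbolic toTorus f (Per f)) (p : Torus d) (N : ℕ) (hN : 0 < N) (hp : f^[N] p = p)
    (δ : ℝ) (hδ : 0 < δ) :
    ∃ η : ℝ, 0 < η ∧ ∀ g : Torus d ≃ₜ Torus d, CkClose toTorus 1 η f g →
      ∃ q, g^[N] q = q ∧ dist p q < δ := by
  obtain ⟨z, rfl⟩ := FIXFIN.tor_surj p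
  obtain ⟨F, hF, hFl, hinj⟩ := PERS.no_fixed hh subset_rfl hN hp
  obtain ⟨n, rfl⟩ : ∃ n, N = n + 1 := ⟨N - 1, by omega⟩
  set v := F^[n + 1] z - z with hv
  have hv0 : toTorus v = 0 := by
    rw [hv, FIXFIN.tor_sub, FIXFIN.lift_iter hFl, hp, sub_self]
  set a : Fin (n + 1) → (Fin d → ℝ) := fun i => F^[i] z with ha
  have hfix : PERS.cyc n v F a = a := by
    funext i
    refine Fin.cases ?_ (fun j => ?_) i
    · show F (F^[n] z) - v = z
      rw [← Function.iterate_succ_apply' F, hv]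
      abel
    · show F (F^[j] z) = F^[j.succ] z
      rw [← Function.iterate_succ_apply' F]
      rfl
  obtain ⟨η, hη, H⟩ := PERS.fix_pert (PERS.cyc n v F) _ a (PERS.cyc_deriv (v := v) hF a) hfix
    (fun w hw => PERS.cyc_ker hF z hinj w hw) (δ / 2) (by positivity)
  refine ⟨η, hη, fun g hg => ?_⟩
  obtain ⟨F1, G1, hF1, hG1, hF1l, hG1l, hcl⟩ := hg
  have hF1' : ContDiff ℝ 1 F1 := by exact_mod_cast hF1
  have hG1' : ContDiff ℝ 1 G1 := by exact_mod_cast hG1
  obtain ⟨c, hc⟩ := lift_unique (isCov_toTorus d) hF.continuous hF1'.continuous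
    (fun u => by rw [hFl u, hF1l u])
  have hc0 : toTorus c = 0 := by
    have h1 : c = F1 0 - F 0 := by rw [hc 0]; abel
    rw [h1, FIXFIN.tor_sub, hF1l, hFl, sub_self]
  set G : (Fin d → ℝ) → (Fin d → ℝ) := fun y => G1 y - c with hG
  have hGl : ∀ u, toTorus (G u) = g (toTorus u) := by
    intro u
    rw [hG, FIXFIN.tor_sub, hG1l u, hc0, sub_zero]
  have hdiff : (fun y => G y - F y) = fun y => G1 y - F1 y := by
    funext y
    rw [hG, hc y]
    simp only
    abel
  have h0 : ∀ y, ‖G y - F y‖ ≤ η := by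
    intro y
    have h1 := hcl 0 (by norm_num) y
    rw [norm_iteratedFDeriv_zero] at h1
    have h2 : G y - F y = G1 y - F1 y := congrFun hdiff y
    rw [h2]
    exact h1.le
  have h1 : LipschitzWith η fun y => G y - F y := by
    rw [hdiff]
    refine lipschitzWith_of_nnnorm_fderiv_le
      ((hG1'.sub hF1').differentiable one_ne_zero) fun y => ?_
    have h2 := hcl 1 le_rfl y
    rw [← zero_add 1, ← norm_iteratedFDeriv_fderiv, norm_iteratedFDeriv_zero] at h2
    exact_mod_cast h2.le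
  obtain ⟨w, hw, hwfix⟩ := H (PERS.cyc n v G) (PERS.cyc_close η.2 h0 a) (PERS.cyc_lip h1)
  refine ⟨toTorus (w 0), ?_, ?_⟩
  · rw [← FIXFIN.lift_iter hGl, PERS.cyc_iter hwfix, FIXFIN.tor_add, hv0, add_zero]
  · have h3 : ‖(w - a) 0‖ ≤ ‖w - a‖ := norm_le_pi_norm (w - a) 0
    have h4 : (w - a) 0 = w 0 - z := rfl
    rw [h4] at h3
    have h5 := PERS.tor_dist z (w 0)
    rw [norm_sub_rev] at h5
    linarith

end Pool.Agent.H637R2.TD
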