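import Pool.Agent.H637R2.TD.Base
import Pool.Agent.H728R2.OS.S.COV

open Set Filter Topology MeasureTheory

namespace Pool.Agent.H637R2.TD

open Pool.Agent.H728R2.OS

namespace PRODaux

theorem circ_open : IsOpenQuotientMap ((↑) : ℝ → UnitAddCircle) :=
  QuotientAddGroup.isOpenQuotientMap_mk

theorem circ_eq (a b : ℝ) :
    (a : UnitAddCircle) = (b : UnitAddCircle) ↔ ∃ n : ℤ, b - a = n := by
  have h : (a : UnitAddCircle) = (b : UnitAddCircle) ↔ -a + b ∈ AddSubgroup.zmultiples (1 : ℝ) :=
    QuotientAddGroup.eq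
  rw [h, AddSubgroup.mem_zmultiples_iff]
  constructor
  · rintro ⟨n, hn⟩
    refine ⟨n, ?_⟩
    have : n • (1 : ℝ) = n := by simp
    rw [this] at hn
    linarith
  · rintro ⟨n, hn⟩
    refine ⟨n, ?_⟩
    have : n • (1 : ℝ) = n := by simp
    rw [this]
    linarith

/-- A homeomorphism of the line commuting with the translation by one descends to the circle. -/
theorem exists_circ (h : ℝ ≃ₜ ℝ) (hd : ∀ y, h (y + 1) = h y + 1) :
    ∃ c : Circ ≃ₜ Circ, (∀ y : ℝ, c (y : UnitAddCircle) = ((h y : ℝ) : UnitAddCircle)) ∧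
      ∀ y : ℝ, c.symm (y : UnitAddCircle) = ((h.symm y : ℝ) : UnitAddCircle) := by
  have hd' : ∀ y, h.symm (y + 1) = h.symm y + 1 := by
    intro y
    apply h.injective
    rw [hd, h.apply_symm_apply, h.apply_symm_apply]
  have h1 : Function.Periodic (fun y : ℝ => ((h y : ℝ) : UnitAddCircle)) 1 := by
    intro y
    show ((h (y + 1) : ℝ) : UnitAddCircle) = _
    rw [hd, circ_eq]
    exact ⟨-1, by push_cast; ring⟩
  have h2 : Function.Periodic (fun y : ℝ => ((h.symm y : ℝ) : UnitAddCircle)) 1 := by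
    intro y
    show ((h.symm (y + 1) : ℝ) : UnitAddCircle) = _
    rw [hd', circ_eq]
    exact ⟨-1, by push_cast; ring⟩
  have e1 : ∀ y : ℝ, h1.lift (y : UnitAddCircle) = ((h y : ℝ) : UnitAddCircle) := fun y => rfl
  have e2 : ∀ y : ℝ, h2.lift (y : UnitAddCircle) = ((h.symm y : ℝ) : UnitAddCircle) := fun y => rfl
  refine ⟨{ toFun := h1.lift, invFun := h2.lift, left_inv := ?_, right_inv := ?_,
            continuous_toFun := ?_, continuous_invFun := ?_ }, e1, e2⟩
  · intro x
    obtain ⟨y, rfl⟩ := circ_open.surjective x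
    rw [e1, e2, h.symm_apply_apply]
  · intro x
    obtain ⟨y, rfl⟩ := circ_open.surjective x
    rw [e2, e1, h.apply_symm_apply]
  · rw [circ_open.isQuotientMap.continuous_iff]
    exact circ_open.continuous.comp h.continuous
  · rw [circ_open.isQuotientMap.continuous_iff]
    exact circ_open.continuous.comp h.symm.continuous

theorem exists_line (u : ℝ → ℝ) (hu : Small 1 1 u) :
    ∃ h : ℝ ≃ₜ ℝ, (∀ y, h y = y + u y) ∧ StrictMono h ∧
      ContDiff ℝ (⊤ : ℕ∞) h ∧ ContDiff ℝ (⊤ : ℕ∞) h.symm := by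
  have hdiff : Differentiable ℝ u := hu.smooth.differentiable (by simp)
  have hd : ∀ y, HasDerivAt (fun y => y + u y) (1 + deriv u y) y := fun y =>
    (hasDerivAt_id y).add (hdiff y).hasDerivAt
  have hpos : ∀ y, 0 < 1 + deriv u y := by
    intro y
    have := hu.lt 1 le_rfl y
    rw [iteratedDeriv_one, abs_lt] at this
    linarith [this.1]
  have hmono : StrictMono (fun y => y + u y) := by
    apply strictMono_of_deriv_pos
    intro y
    rw [(hd y).deriv]
    exact hpos y
  have hb : ∀ y, |u y| < 1 := by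
    intro y
    have := hu.lt 0 (by norm_num) y
    rwa [iteratedDeriv_zero] at this
  have hcont : Continuous (fun y => y + u y) := continuous_id.add hu.smooth.continuous
  have hsurj : Function.Surjective (fun y => y + u y) := by
    intro c
    have : c ∈ Set.range (fun y => y + u y) := by
      apply mem_range_of_exists_le_of_exists_ge hcont
      · refine ⟨c - 1, ?_⟩
        have := (abs_lt.mp (hb (c - 1))).2
        show c - 1 + u (c - 1) ≤ c
        linarith
      · refine ⟨c + 1, ?_⟩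
        have := (abs_lt.mp (hb (c + 1))).1
        show c ≤ c + 1 + u (c + 1)
        linarith
    exact this
  let e : ℝ ≃o ℝ := hmono.orderIsoOfSurjective _ hsurj
  let h : ℝ ≃ₜ ℝ := e.toHomeomorph
  have he : ∀ y, h y = y + u y := fun y => rfl
  have hsm : ContDiff ℝ (⊤ : ℕ∞) h := contDiff_id.add hu.smooth
  refine ⟨h, he, hmono, hsm, ?_⟩
  exact h.contDiff_symm_deriv (f' := fun y => 1 + deriv u y) (fun y => (hpos y).ne')
    (fun y => hd y) hsm

/-- A continuous integer valued function vanishing somewhere is zero. -/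
theorem int_zero (φ : ℝ → ℝ) (hc : Continuous φ) (h0 : φ 0 = 0) (hi : ∀ s, ∃ n : ℤ, φ s = n)
    (s : ℝ) : φ s = 0 := by
  obtain ⟨n, hn⟩ := hi s
  rcases lt_trichotomy n 0 with h | h | h
  · exfalso
    have h1 : (n : ℝ) ≤ -1 := by
      have : n ≤ -1 := by omega
      exact_mod_cast this
    have : (-1 / 2 : ℝ) ∈ Set.range φ := by
      apply mem_range_of_exists_le_of_exists_ge hc
      · exact ⟨s, by rw [hn]; linarith⟩
      · exact ⟨0, by rw [h0]; norm_num⟩
    obtain ⟨t, ht⟩ := this
    obtain ⟨m, hm⟩ := hi t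
    rw [hm] at ht
    have h2 : (m : ℝ) * 2 = -1 := by linarith
    have h3 : m * 2 = -1 := by exact_mod_cast h2
    omega
  · rw [hn, h]; simp
  · exfalso
    have h1 : (1 : ℝ) ≤ n := by
      have : 1 ≤ n := by omega
      exact_mod_cast this
    have : (1 / 2 : ℝ) ∈ Set.range φ := by
      apply mem_range_of_exists_le_of_exists_ge hc
      · exact ⟨0, by rw [h0]; norm_num⟩
      · exact ⟨s, by rw [hn]; linarith⟩
    obtain ⟨t, ht⟩ := this
    obtain ⟨m, hm⟩ := hi t
    rw [hm] at ht
    have h2 : (m : ℝ) * 2 = 1 := by linarith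
    have h3 : m * 2 = 1 := by exact_mod_cast h2
    omega

/-- A continuous lift of a flag preserving map is triangular. -/
theorem lift_tri {d : ℕ} {f : Torus d ≃ₜ Torus d}
    (flag : ∀ (k : Fin d) (x y : Torus d),
      (∀ j, k ≤ j → x j = y j) ↔ ∀ j, k ≤ j → f x j = f y j)
    {F : (Fin d → ℝ) → (Fin d → ℝ)} (hF : Continuous F) (hl : IsLift toTorus F f)
    (k : Fin d) (w w' : Fin d → ℝ) (h : ∀ j, k ≤ j → w j = w' j) : F w k = F w' k := by
  have key := int_zero (fun s : ℝ => F (w + s • (w' - w)) k - F w k) ?_ ?_ ?_ 1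
  · simp only [one_smul, add_sub_cancel] at key
    linarith
  · refine Continuous.sub ?_ continuous_const
    refine (continuous_apply k).comp (hF.comp ?_)
    exact continuous_const.add (continuous_id.smul continuous_const)
  · simp
  · intro s
    have h1 : ∀ j, k ≤ j → toTorus w j = toTorus (w + s • (w' - w)) j := by
      intro j hj
      have : (w + s • (w' - w)) j = w j := by
        simp [h j hj]
      show ((w j : ℝ) : UnitAddCircle) = (((w + s • (w' - w)) j : ℝ) : UnitAddCircle)
      rw [this]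
    have h2 := (flag k _ _).mp h1 k le_rfl
    rw [← hl, ← hl] at h2
    exact (circ_eq _ _).mp h2

end PRODaux

/-- Products of smooth circle diffeomorphisms. -/
theorem exists_prod {d : ℕ} (u : Fin d → ℝ → ℝ) (hu : ∀ i, Small 1 1 (u i)) :
    ∃ Ψ : Torus d ≃ₜ Torus d, IsLift toTorus (prodLift u) Ψ ∧ IsFlagDiffeo ⊤ Ψ := by
  choose h hh hmono hsm hsm' using fun i => PRODaux.exists_line (u i) (hu i)
  have hdeg : ∀ i y, h i (y + 1) = h i y + 1 := by
    intro i y
    rw [hh, hh, (hu i).per]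
    ring
  choose c hc hc' using fun i => PRODaux.exists_circ (h i) (hdeg i)
  let Ψ : Torus d ≃ₜ Torus d := Homeomorph.piCongrRight c
  have hlift : IsLift toTorus (prodLift u) Ψ := by
    intro z
    funext i
    show ((z i + u i (z i) : ℝ) : UnitAddCircle) = c i ((z i : ℝ) : UnitAddCircle)
    rw [hc, hh]
  refine ⟨Ψ, hlift, ⟨⟨⟨prodLift u, ?_, hlift⟩, ⟨fun z i => (h i).symm (z i), ?_, ?_⟩⟩, ?_,
    ⟨prodLift u, ?_, hlift, ?_⟩⟩⟩
  · rw [contDiff_pi]
    intro i
    exact (contDiff_apply ℝ ℝ i).add ((hu i).smooth.comp (contDiff_apply ℝ ℝ i))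
  · rw [contDiff_pi]
    intro i
    exact (hsm' i).comp (contDiff_apply ℝ ℝ i)
  · intro z
    funext i
    show (((h i).symm (z i) : ℝ) : UnitAddCircle) = (c i).symm ((z i : ℝ) : UnitAddCircle)
    rw [hc']
  · intro k x y
    constructor
    · intro hxy j hj
      show c j (x j) = c j (y j)
      rw [hxy j hj]
    · intro hxy j hj
      exact (c j).injective (hxy j hj)
  · refine continuous_pi fun i => ?_
    exact (continuous_apply i).add ((hu i).smooth.continuous.comp (continuous_apply i))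
  · intro z k t ht
    show z k + u k (z k) < (z + Pi.single k t : Fin d → ℝ) k + u k ((z + Pi.single k t : Fin d → ℝ) k)
    rw [← hh, ← hh]
    apply hmono
    simp [ht]

/-- Compositions of flag preserving diffeomorphisms. -/
theorem IsFlagDiffeo.comp {d : ℕ} {r : ℕ∞} {f g : Torus d ≃ₜ Torus d} (hf : IsFlagDiffeo r f)
    (hg : IsFlagDiffeo r g) : IsFlagDiffeo r (f.trans g) := by
  refine ⟨⟨?_, ?_⟩, ?_, ?_⟩
  · obtain ⟨F, hF, hFl⟩ := hf.diffeo.1
    obtain ⟨G, hG, hGl⟩ := hg.diffeo.1
    refine ⟨fun z => G (F z), hG.comp hF, fun z => ?_⟩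
    show toTorus (G (F z)) = g (f (toTorus z))
    rw [hGl, hFl]
  · obtain ⟨F, hF, hFl⟩ := hf.diffeo.2
    obtain ⟨G, hG, hGl⟩ := hg.diffeo.2
    refine ⟨fun z => F (G z), hF.comp hG, fun z => ?_⟩
    show toTorus (F (G z)) = f.symm (g.symm (toTorus z))
    rw [hFl, hGl]
  · intro k x y
    exact (hf.flag k x y).trans (hg.flag k (f x) (f y))
  · obtain ⟨F, hF, hFl, hFo⟩ := hf.orient
    obtain ⟨G, hG, hGl, hGo⟩ := hg.orient
    refine ⟨fun z => G (F z), hG.comp hF, fun z => ?_, ?_⟩
    · show toTorus (G (F z)) = g (f (toTorus z))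
      rw [hGl, hFl]
    · intro z k t ht
      show G (F z) k < G (F (z + Pi.single k t)) k
      have h1 : ∀ j, k < j → F (z + Pi.single k t) j = F z j := by
        intro j hj
        apply PRODaux.lift_tri hf.flag hF hFl j
        intro i hi
        have : i ≠ k := (lt_of_lt_of_le hj hi).ne'
        simp [this]
      have h2 := hFo z k t ht
      have h3 : G (F (z + Pi.single k t)) k =
          G (F z + Pi.single k (F (z + Pi.single k t) k - F z k)) k := by
        apply PRODaux.lift_tri hg.flag hG hGl k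
        intro j hj
        rcases hj.eq_or_lt with rfl | hj
        · simp
        · rw [h1 j hj]
          have : j ≠ k := hj.ne'
          simp [this]
      rw [h3]
      exact hGo _ _ _ (sub_pos.mpr h2)

theorem IsFlagDiffeo.of_le {d : ℕ} {r s : ℕ∞} {f : Torus d ≃ₜ Torus d} (hf : IsFlagDiffeo s f)
    (h : r ≤ s) : IsFlagDiffeo r f := by
  refine ⟨⟨?_, ?_⟩, hf.flag, hf.orient⟩
  · obtain ⟨F, hF, hFl⟩ := hf.diffeo.1
    exact ⟨F, hF.of_le (by exact_mod_cast h), hFl⟩
  · obtain ⟨F, hF, hFl⟩ := hf.diffeo.2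
    exact ⟨F, hF.of_le (by exact_mod_cast h), hFl⟩

end Pool.Agent.H637R2.TD
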