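import Pool.Agent.H637R2.TD.Base
import Pool.Agent.H728R2.OS.S.COV

open Set Filter Topology MeasureTheory

namespace Pool.Agent.H637R2.TD

open Pool.Agent.H728R2.OS

namespace PSIaux

theorem circ_eq (a b : ℝ) : (a : UnitAddCircle) = (b : UnitAddCircle) ↔ ∃ n : ℤ, b = a + n := by
  have h : (a : UnitAddCircle) = (b : UnitAddCircle) ↔ -a + b ∈ AddSubgroup.zmultiples (1 : ℝ) :=
    QuotientAddGroup.eq
  rw [h, AddSubgroup.mem_zmultiples_iff]
  constructor
  · rintro ⟨n, hn⟩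
    refine ⟨n, ?_⟩
    have : n • (1 : ℝ) = n := by simp
    rw [this] at hn
    linarith
  · rintro ⟨n, hn⟩
    refine ⟨n, ?_⟩
    have : n • (1 : ℝ) = n := by simp
    rw [this]
    linarith

theorem tor_eq {D : ℕ} (z z' : Fin D → ℝ) :
    toTorus z = toTorus z' ↔ ∀ i, ∃ n : ℤ, z' i = z i + n := by
  constructor
  · intro h i; exact (circ_eq _ _).1 (congrFun h i)
  · intro h; funext i; exact (circ_eq _ _).2 (h i)

theorem sin_sq_add (x : ℝ) (n : ℤ) : Real.sin (x + n * Real.pi) ^ 2 = Real.sin x ^ 2 := by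
  rw [Real.sin_add_int_mul_pi]
  rcases Int.even_or_odd n with h | h
  · rw [h.neg_one_zpow, one_mul]
  · rw [h.neg_one_zpow]; ring

/-- sum of squares of sines -/
noncomputable def SS {D : ℕ} (a z : Fin D → ℝ) : ℝ := ∑ j, Real.sin (Real.pi * (z j - a j)) ^ 2

theorem SS_smooth {D : ℕ} (a : Fin D → ℝ) : ContDiff ℝ (⊤ : ℕ∞) (SS a) := by
  unfold SS
  refine ContDiff.sum fun j _ => ContDiff.pow (ContDiff.sin ?_) 2
  exact contDiff_const.mul ((contDiff_apply ℝ ℝ j).sub contDiff_const)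

theorem SS_per {D : ℕ} (a z z' : Fin D → ℝ) (h : toTorus z = toTorus z') : SS a z = SS a z' := by
  unfold SS
  refine Finset.sum_congr rfl fun j _ => ?_
  obtain ⟨n, hn⟩ := (tor_eq z z').1 h j
  rw [hn]
  have : Real.pi * (z j + n - a j) = Real.pi * (z j - a j) + n * Real.pi := by ring
  rw [this, sin_sq_add]

theorem SS_zero {D : ℕ} (a z : Fin D → ℝ) (h : toTorus z = toTorus a) : SS a z = 0 := by
  rw [SS_per a z a h]
  simp [SS]

theorem SS_nonneg {D : ℕ} (a z : Fin D → ℝ) : 0 ≤ SS a z :=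
  Finset.sum_nonneg fun _ _ => sq_nonneg _

theorem SS_pos {D : ℕ} (a z : Fin D → ℝ) (h : toTorus z ≠ toTorus a) : 0 < SS a z := by
  refine lt_of_le_of_ne (SS_nonneg a z) fun h0 => h ?_
  unfold SS at h0
  rw [eq_comm, Finset.sum_eq_zero_iff_of_nonneg fun _ _ => sq_nonneg _] at h0
  symm
  rw [tor_eq]
  intro i
  have h1 := h0 i (Finset.mem_univ i)
  rw [sq_eq_zero_iff, Real.sin_eq_zero_iff] at h1
  obtain ⟨n, hn⟩ := h1
  refine ⟨n, ?_⟩
  have hpi := Real.pi_pos.ne'
  have : Real.pi * (z i - a i) = Real.pi * n := by linarith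
  have := mul_left_cancel₀ hpi this
  linarith

theorem SS_deriv {D : ℕ} (a z : Fin (D + 1) → ℝ) (h : toTorus z = toTorus a) :
    HasDerivAt (fun t : ℝ => SS a (z + Pi.single 0 t)) 0 0 := by
  have e : (fun t : ℝ => SS a (z + Pi.single 0 t)) = fun t => Real.sin (Real.pi * t) ^ 2 := by
    funext t
    unfold SS
    rw [Fin.sum_univ_succ]
    have h0 : ∀ i : Fin D, Real.sin (Real.pi *
        ((z + Pi.single 0 t : Fin (D + 1) → ℝ) i.succ - a i.succ)) ^ 2 = 0 := by
      intro i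
      obtain ⟨n, hn⟩ := (tor_eq z a).1 h i.succ
      have : Real.pi * ((z + Pi.single 0 t : Fin (D + 1) → ℝ) i.succ - a i.succ) =
          0 + ((-n : ℤ) : ℝ) * Real.pi := by
        rw [hn]; simp; ring
      rw [this, sin_sq_add]; simp
    rw [Finset.sum_eq_zero fun i _ => h0 i, add_zero]
    obtain ⟨n, hn⟩ := (tor_eq z a).1 h 0
    have : Real.pi * ((z + Pi.single 0 t : Fin (D + 1) → ℝ) 0 - a 0) =
        Real.pi * t + ((-n : ℤ) : ℝ) * Real.pi := by
      rw [hn]; simp; ring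
    rw [this, sin_sq_add]
  rw [e]
  have h1 : HasDerivAt (fun t : ℝ => Real.pi * t) Real.pi 0 := by
    simpa using (hasDerivAt_id (0 : ℝ)).const_mul Real.pi
  have h2 : HasDerivAt (fun t : ℝ => Real.sin (Real.pi * t) ^ 2) _ 0 := (h1.sin).pow 2
  convert h2 using 1
  simp

open Classical in
/-- the function -/
noncomputable def psi {d : ℕ} (Q : Finset (Torus (d + 1))) (p : Torus (d + 1))
    (z : Fin (d + 1) → ℝ) : ℝ :=
  Real.sin (2 * Real.pi * (z 0 - rep p 0)) * ∏ q ∈ Q.erase p, SS (rep q) z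

theorem psi_smooth {d : ℕ} (Q : Finset (Torus (d + 1))) (p : Torus (d + 1)) :
    ContDiff ℝ (⊤ : ℕ∞) (psi Q p) := by
  classical
  unfold psi
  refine ContDiff.mul (ContDiff.sin ?_) ?_
  · exact contDiff_const.mul ((contDiff_apply ℝ ℝ 0).sub contDiff_const)
  · exact contDiff_prod fun q _ => SS_smooth (rep q)

theorem sin_per (x y : ℝ) (n : ℤ) (h : x = y + n) (a : ℝ) :
    Real.sin (2 * Real.pi * (x - a)) = Real.sin (2 * Real.pi * (y - a)) := by
  have : 2 * Real.pi * (x - a) = 2 * Real.pi * (y - a) + n * (2 * Real.pi) := by rw [h]; ring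
  rw [this, Real.sin_add_int_mul_two_pi]

theorem psi_per {d : ℕ} (Q : Finset (Torus (d + 1))) (p : Torus (d + 1))
    (z z' : Fin (d + 1) → ℝ) (h : toTorus z = toTorus z') : psi Q p z = psi Q p z' := by
  unfold psi
  obtain ⟨n, hn⟩ := (tor_eq z z').1 h 0
  rw [sin_per _ _ n hn]
  congr 1
  exact Finset.prod_congr rfl fun q _ => SS_per _ _ _ h

theorem psi_zero {d : ℕ} (Q : Finset (Torus (d + 1))) (p : Torus (d + 1))
    (z : Fin (d + 1) → ℝ) (h : toTorus z ∈ Q) : psi Q p z = 0 := by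
  classical
  unfold psi
  by_cases hp : toTorus z = p
  · have h1 : toTorus z = toTorus (rep p) := by rw [toTorus_rep, hp]
    obtain ⟨n, hn⟩ := (tor_eq _ _).1 h1 0
    rw [sin_per (z 0) (rep p 0) (-n) (by rw [hn]; push_cast; ring)]
    simp
  · rw [Finset.prod_eq_zero (Finset.mem_erase.2 ⟨hp, h⟩)
      (SS_zero _ _ (by rw [toTorus_rep])), mul_zero]

theorem psi_deriv_pos {d : ℕ} (Q : Finset (Torus (d + 1))) (p : Torus (d + 1))
    (z : Fin (d + 1) → ℝ) (h : toTorus z = p) :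
    0 < deriv (fun t : ℝ => psi Q p (z + Pi.single 0 t)) 0 := by
  classical
  have h1 : toTorus z = toTorus (rep p) := by rw [toTorus_rep, h]
  obtain ⟨n, hn⟩ := (tor_eq _ _).1 h1 0
  set R : ℝ → ℝ := fun t => ∏ q ∈ Q.erase p, SS (rep q) (z + Pi.single 0 t) with hR
  have e : (fun t : ℝ => psi Q p (z + Pi.single 0 t)) = fun t =>
      Real.sin (2 * Real.pi * t) * R t := by
    funext t
    unfold psi
    congr 1
    have h7 := sin_per ((z + Pi.single 0 t : Fin (d + 1) → ℝ) 0) (t + rep p 0) (-n)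
      (by rw [hn]; simp; ring) (rep p 0)
    rw [h7]
    congr 1
    ring
  have hd : DifferentiableAt ℝ R 0 := by
    have h2 : ContDiff ℝ (⊤ : ℕ∞) R := by
      refine contDiff_prod fun q _ => (SS_smooth (rep q)).comp ?_
      refine contDiff_const.add ?_
      exact (ContinuousLinearMap.single ℝ (fun _ : Fin (d + 1) => ℝ) 0).contDiff
    exact (h2.differentiable (by simp)).differentiableAt
  have h3 : HasDerivAt (fun t : ℝ => Real.sin (2 * Real.pi * t)) (2 * Real.pi) 0 := by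
    have h4 : HasDerivAt (fun t : ℝ => 2 * Real.pi * t) (2 * Real.pi) 0 := by
      simpa using (hasDerivAt_id (0 : ℝ)).const_mul (2 * Real.pi)
    simpa using h4.sin
  have h5 : HasDerivAt (fun t : ℝ => Real.sin (2 * Real.pi * t) * R t) _ 0 :=
    h3.mul hd.hasDerivAt
  have h6 : deriv (fun t : ℝ => psi Q p (z + Pi.single 0 t)) 0 = 2 * Real.pi * R 0 := by
    rw [e, h5.deriv]
    simp
  rw [h6]
  have hR0 : 0 < R 0 := by
    refine Finset.prod_pos fun q hq => SS_pos _ _ ?_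
    have e0 : z + Pi.single 0 (0 : ℝ) = z := by simp
    rw [e0, toTorus_rep, h]
    exact (Finset.mem_erase.1 hq).1.symm
  have := Real.pi_pos
  positivity

theorem psi_deriv_zero {d : ℕ} (Q : Finset (Torus (d + 1))) (p : Torus (d + 1))
    (z : Fin (d + 1) → ℝ) (h : toTorus z ∈ Q) (hp : toTorus z ≠ p) :
    deriv (fun t : ℝ => psi Q p (z + Pi.single 0 t)) 0 = 0 := by
  classical
  set q := toTorus z with hq
  have hmem : q ∈ Q.erase p := Finset.mem_erase.2 ⟨hp, h⟩
  set R : ℝ → ℝ := fun t => Real.sin (2 * Real.pi * ((z + Pi.single 0 t : Fin (d + 1) → ℝ) 0 - rep p 0)) *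
    ∏ q' ∈ (Q.erase p).erase q, SS (rep q') (z + Pi.single 0 t) with hR
  have e : (fun t : ℝ => psi Q p (z + Pi.single 0 t)) = fun t =>
      SS (rep q) (z + Pi.single 0 t) * R t := by
    funext t
    unfold psi
    rw [← Finset.mul_prod_erase _ _ hmem]
    simp only [hR]
    ring
  have hs : ContDiff ℝ (⊤ : ℕ∞) (fun t : ℝ => (z + Pi.single 0 t : Fin (d + 1) → ℝ)) :=
    contDiff_const.add (ContinuousLinearMap.single ℝ (fun _ : Fin (d + 1) => ℝ) 0).contDiff
  have hd : DifferentiableAt ℝ R 0 := by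
    have h2 : ContDiff ℝ (⊤ : ℕ∞) R := by
      refine ContDiff.mul (ContDiff.sin ?_) (contDiff_prod fun q _ => (SS_smooth (rep q)).comp hs)
      exact contDiff_const.mul (((contDiff_apply ℝ ℝ 0).comp hs).sub contDiff_const)
    exact (h2.differentiable (by simp)).differentiableAt
  have h1 : toTorus z = toTorus (rep q) := by rw [toTorus_rep]
  have h5 : HasDerivAt (fun t : ℝ => SS (rep q) (z + Pi.single 0 t) * R t) _ 0 :=
    (SS_deriv (rep q) z h1).mul hd.hasDerivAt
  rw [e, h5.deriv]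
  have e0 : z + Pi.single 0 (0 : ℝ) = z := by simp
  rw [e0, SS_zero _ _ h1]
  simp

/-- derivatives of periodic smooth functions are bounded -/
theorem bdd_iter {D : ℕ} {F : Type} [NormedAddCommGroup F] [NormedSpace ℝ F]
    (U : (Fin D → ℝ) → F) (hU : ContDiff ℝ (⊤ : ℕ∞) U)
    (hper : ∀ z z', toTorus z = toTorus z' → U z = U z') (j : ℕ) :
    ∃ M : ℝ, 0 ≤ M ∧ ∀ z, ‖iteratedFDeriv ℝ j U z‖ ≤ M := by
  have hc : Continuous fun z => iteratedFDeriv ℝ j U z :=
    hU.continuous_iteratedFDeriv (by exact_mod_cast le_top)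
  obtain ⟨M, hM⟩ := (isCompact_univ_pi (fun _ : Fin D => isCompact_Icc (a := (0 : ℝ)) (b := 1))).exists_bound_of_continuousOn hc.continuousOn
  have key : ∀ z, ‖iteratedFDeriv ℝ j U z‖ ≤ M := by
    intro z
    set n : Fin D → ℝ := fun i => -(⌊z i⌋ : ℝ) with hn
    have e1 : (fun w => U (w + n)) = U := by
      funext w
      refine (hper _ _ ?_).symm
      rw [tor_eq]
      intro i
      exact ⟨-⌊z i⌋, by simp [hn]⟩
    have e2 := iteratedFDeriv_comp_add_right (𝕜 := ℝ) (f := U) j n z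
    rw [e1] at e2
    rw [e2]
    refine hM _ ?_
    rw [Set.mem_univ_pi]
    intro i
    have : (z + n) i = Int.fract (z i) := by
      simp only [Pi.add_apply, hn]
      rw [← sub_eq_add_neg]
      rfl
    rw [this]
    exact ⟨Int.fract_nonneg _, (Int.fract_lt_one _).le⟩
  exact ⟨M, (norm_nonneg _).trans (key 0), key⟩

/-- perturbations of the identity -/
theorem exists_homeo {D : ℕ} (U : (Fin (D + 1) → ℝ) → (Fin (D + 1) → ℝ))
    (hU : ContDiff ℝ (⊤ : ℕ∞) U) (hd : ∀ z, ‖fderiv ℝ U z‖ ≤ 1 / 2) :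
    ∃ A : (Fin (D + 1) → ℝ) ≃ₜ (Fin (D + 1) → ℝ), (∀ z, A z = z + U z) ∧
      ContDiff ℝ (⊤ : ℕ∞) A.symm ∧ ∀ x y, ‖U x - U y‖ ≤ 1 / 2 * ‖x - y‖ := by
  have hdiff : Differentiable ℝ U := hU.differentiable (by simp)
  have hL : ∀ x y, ‖U x - U y‖ ≤ 1 / 2 * ‖x - y‖ := fun x y =>
    Convex.norm_image_sub_le_of_norm_fderiv_le (𝕜 := ℝ) (f := U) (s := univ)
      (fun z _ => hdiff z) (fun z _ => hd z) convex_univ (mem_univ y) (mem_univ x)
  set f : (Fin (D + 1) → ℝ) → (Fin (D + 1) → ℝ) := fun z => z + U z with hf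
  have happ : ApproximatesLinearOn f
      ((ContinuousLinearEquiv.refl ℝ (Fin (D + 1) → ℝ) : (Fin (D + 1) → ℝ) ≃L[ℝ] (Fin (D + 1) → ℝ)) :
        (Fin (D + 1) → ℝ) →L[ℝ] (Fin (D + 1) → ℝ)) univ (1 / 2) := by
    intro x _ y _
    have : f x - f y - (ContinuousLinearEquiv.refl ℝ (Fin (D + 1) → ℝ) : (Fin (D + 1) → ℝ) →L[ℝ] (Fin (D + 1) → ℝ)) (x - y)
        = U x - U y := by
      simp [hf]; abel
    rw [this]
    refine (hL x y).trans (le_of_eq ?_)
    simp
  have hc : Subsingleton (Fin (D + 1) → ℝ) ∨ (1 / 2 : NNReal) <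
      ‖((ContinuousLinearEquiv.refl ℝ (Fin (D + 1) → ℝ)).symm :
        (Fin (D + 1) → ℝ) →L[ℝ] (Fin (D + 1) → ℝ))‖₊⁻¹ := by
    right
    have h1 : ‖((ContinuousLinearEquiv.refl ℝ (Fin (D + 1) → ℝ)).symm :
        (Fin (D + 1) → ℝ) →L[ℝ] (Fin (D + 1) → ℝ))‖₊ = 1 := by
      rw [ContinuousLinearEquiv.refl_symm]
      have : ((ContinuousLinearEquiv.refl ℝ (Fin (D + 1) → ℝ) : (Fin (D + 1) → ℝ) ≃L[ℝ] (Fin (D + 1) → ℝ)) :
        (Fin (D + 1) → ℝ) →L[ℝ] (Fin (D + 1) → ℝ)) = ContinuousLinearMap.id ℝ _ := rfl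
      rw [this]
      exact ContinuousLinearMap.nnnorm_id
    rw [h1, inv_one]
    exact NNReal.half_lt_self one_ne_zero
  set A := happ.toHomeomorph f hc with hA
  have hAf : ∀ z, A z = f z := fun z => rfl
  refine ⟨A, hAf, ?_, hL⟩
  have hinv : ∀ z, ‖-fderiv ℝ U z‖ < 1 := fun z => by
    rw [norm_neg]; linarith [hd z]
  refine Homeomorph.contDiff_symm A
    (f₀' := fun z => ContinuousLinearEquiv.ofUnit (Units.oneSub (-fderiv ℝ U z) (hinv z)))
    (fun z => ?_) ?_
  · have h1 : HasFDerivAt f (ContinuousLinearMap.id ℝ _ + fderiv ℝ U z) z :=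
      (hasFDerivAt_id z).add (hdiff z).hasFDerivAt
    have h2 : ((ContinuousLinearEquiv.ofUnit (Units.oneSub (-fderiv ℝ U z) (hinv z)) :
        (Fin (D + 1) → ℝ) ≃L[ℝ] (Fin (D + 1) → ℝ)) : (Fin (D + 1) → ℝ) →L[ℝ] (Fin (D + 1) → ℝ)) =
        ContinuousLinearMap.id ℝ _ + fderiv ℝ U z := by
      ext v
      simp [ContinuousLinearEquiv.ofUnit]
    rw [h2]
    exact h1
  · exact contDiff_id.add hU

theorem norm_shift {d : ℕ} (z : Fin (d + 1) → ℝ) (t : ℝ) (ht : 0 < t) :
    ‖z - (z + Pi.single 0 t)‖ = t := by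
  have h : z - (z + Pi.single 0 t) = -(Pi.single 0 t : Fin (d + 1) → ℝ) := by abel
  rw [h, norm_neg]
  apply le_antisymm
  · rw [pi_norm_le_iff_of_nonneg ht.le]
    intro i
    rcases Fin.eq_zero_or_eq_succ i with rfl | ⟨j, rfl⟩
    · rw [Pi.single_eq_same, Real.norm_eq_abs, abs_of_pos ht]
    · rw [Pi.single_eq_of_ne (Fin.succ_ne_zero j), norm_zero]; exact ht.le
  · have := norm_le_pi_norm (Pi.single 0 t : Fin (d + 1) → ℝ) 0
    rwa [Pi.single_eq_same, Real.norm_eq_abs, abs_of_pos ht] at this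

theorem orient_aux {d : ℕ} (U : (Fin (d + 1) → ℝ) → (Fin (d + 1) → ℝ))
    (hL : ∀ x y, ‖U x - U y‖ ≤ 1 / 2 * ‖x - y‖) (z : Fin (d + 1) → ℝ) (t : ℝ) (ht : 0 < t) :
    (z + U z) 0 < ((z + Pi.single 0 t : Fin (d + 1) → ℝ) + U (z + Pi.single 0 t)) 0 := by
  have h1 := hL z (z + Pi.single 0 t)
  rw [norm_shift z t ht] at h1
  have h3 := norm_le_pi_norm (U z - U (z + Pi.single 0 t)) 0
  rw [Real.norm_eq_abs, Pi.sub_apply] at h3
  have h4 := (abs_le.1 (h3.trans h1)).2
  simp only [Pi.add_apply, Pi.single_eq_same]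
  linarith

/-- descending to the torus -/
theorem descend {D : ℕ} (U : (Fin D → ℝ) → (Fin D → ℝ))
    (hper : ∀ z z', toTorus z = toTorus z' → U z = U z')
    (A : (Fin D → ℝ) ≃ₜ (Fin D → ℝ)) (hA : ∀ z, A z = z + U z) :
    ∃ Θ : Torus D ≃ₜ Torus D, IsLift toTorus (fun z => z + U z) Θ ∧
      IsLift toTorus A.symm Θ.symm := by
  have hq := (isCov_toTorus D).quot
  have wd : ∀ z z', toTorus z = toTorus z' → toTorus (A z) = toTorus (A z') := by
    intro z z' h
    rw [tor_eq]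
    intro i
    obtain ⟨n, hn⟩ := (tor_eq z z').1 h i
    refine ⟨n, ?_⟩
    rw [hA, hA, Pi.add_apply, Pi.add_apply, hper z z' h, hn]
    ring
  have wd' : ∀ w w', toTorus w = toTorus w' → toTorus (A.symm w) = toTorus (A.symm w') := by
    intro w w' h
    have h1 : toTorus (A.symm w) = toTorus (A.symm w + (w' - w)) := by
      rw [tor_eq]
      intro i
      obtain ⟨n, hn⟩ := (tor_eq w w').1 h i
      exact ⟨n, by rw [Pi.add_apply, Pi.sub_apply, hn]; ring⟩
    have h2 : A (A.symm w + (w' - w)) = w' := by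
      have h3 := hA (A.symm w)
      rw [A.apply_symm_apply] at h3
      rw [hA, ← hper _ _ h1]
      have : A.symm w + (w' - w) + U (A.symm w) = (A.symm w + U (A.symm w)) + (w' - w) := by abel
      rw [this, ← h3]
      abel
    rw [h1, ← A.symm_apply_apply (A.symm w + (w' - w)), h2]
  have h1 : ∀ z, toTorus (A (rep (toTorus z))) = toTorus (A z) := fun z =>
    wd _ _ (toTorus_rep _)
  have h2 : ∀ z, toTorus (A.symm (rep (toTorus z))) = toTorus (A.symm z) := fun z =>
    wd' _ _ (toTorus_rep _)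
  let Θ : Torus D ≃ₜ Torus D :=
    { toFun := fun x => toTorus (A (rep x))
      invFun := fun y => toTorus (A.symm (rep y))
      left_inv := fun x => by
        simp only [h2, A.symm_apply_apply, toTorus_rep]
      right_inv := fun y => by
        simp only [h1, A.apply_symm_apply, toTorus_rep]
      continuous_toFun := by
        rw [hq.isQuotientMap.continuous_iff]
        have : (fun x : Torus D => toTorus (A (rep x))) ∘ toTorus = toTorus ∘ A := by
          funext z; exact h1 z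
        rw [this]
        exact hq.continuous.comp A.continuous
      continuous_invFun := by
        rw [hq.isQuotientMap.continuous_iff]
        have : (fun x : Torus D => toTorus (A.symm (rep x))) ∘ toTorus = toTorus ∘ A.symm := by
          funext z; exact h2 z
        rw [this]
        exact hq.continuous.comp A.symm.continuous }
  refine ⟨Θ, fun z => ?_, fun z => ?_⟩
  · show toTorus (z + U z) = toTorus (A (rep (toTorus z)))
    rw [h1, hA]
  · show toTorus (A.symm z) = toTorus (A.symm (rep (toTorus z)))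
    rw [h2]

end PSIaux

open PSIaux in
/-- A family of perturbations of the identity fixing the finite set `Q` and expanding the first
coordinate at `p`. -/
theorem exists_psi {d : ℕ} (Q : Set (Torus (d + 1))) (hQ : Q.Finite) (p : Torus (d + 1))
    (hp : p ∈ Q) (k : ℕ) (η : ℝ) (hη : 0 < η) :
    ∃ ψ : (Fin (d + 1) → ℝ) → ℝ, ContDiff ℝ (⊤ : ℕ∞) ψ ∧
      (∀ z z', toTorus z = toTorus z' → ψ z = ψ z') ∧
      (∀ z, toTorus z ∈ Q → ψ z = 0) ∧
      (∀ z, toTorus z = p → 0 < deriv (fun t => ψ (z + Pi.single 0 t)) 0) ∧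
      (∀ z, toTorus z ∈ Q → toTorus z ≠ p → deriv (fun t => ψ (z + Pi.single 0 t)) 0 = 0) ∧
      ∃ s₀ : ℝ, 0 < s₀ ∧ ∀ s : ℝ, |s| < s₀ →
        SmallMap k η (fun z => Pi.single 0 (s * ψ z)) ∧
        ∃ Θ : Torus (d + 1) ≃ₜ Torus (d + 1), IsFlagDiffeo ⊤ Θ ∧
          IsLift toTorus (fun z => z + Pi.single 0 (s * ψ z)) Θ := by
  have hmem : ∀ z : Fin (d + 1) → ℝ, toTorus z ∈ Q ↔ toTorus z ∈ hQ.toFinset := fun z => by simp
  refine ⟨psi hQ.toFinset p, psi_smooth _ _, psi_per _ _, fun z h => psi_zero _ _ z ((hmem z).1 h),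
    fun z h => psi_deriv_pos _ _ z h, fun z h h' => psi_deriv_zero _ _ z ((hmem z).1 h) h', ?_⟩
  set ψ := psi hQ.toFinset p with hψ
  have hψs : ContDiff ℝ (⊤ : ℕ∞) ψ := psi_smooth _ _
  set U₀ : (Fin (d + 1) → ℝ) → (Fin (d + 1) → ℝ) := fun z => Pi.single 0 (ψ z) with hU₀
  have hU₀s : ContDiff ℝ (⊤ : ℕ∞) U₀ :=
    (ContinuousLinearMap.single ℝ (fun _ : Fin (d + 1) => ℝ) 0).contDiff.comp hψs
  have hU₀p : ∀ z z', toTorus z = toTorus z' → U₀ z = U₀ z' := fun z z' h => by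
    simp only [hU₀]
    rw [show ψ z = ψ z' from psi_per _ _ z z' h]
  choose M hM0 hM using fun j => bdd_iter U₀ hU₀s hU₀p j
  set B : ℝ := ∑ j ∈ Finset.range (k + 2), M j with hB
  have hB0 : 0 ≤ B := Finset.sum_nonneg fun j _ => hM0 j
  have hMB : ∀ j, j < k + 2 → ∀ z, ‖iteratedFDeriv ℝ j U₀ z‖ ≤ B := fun j hj z =>
    (hM j z).trans (Finset.single_le_sum (f := M) (fun i _ => hM0 i) (Finset.mem_range.2 hj))
  refine ⟨min (η / (B + 1)) (1 / (2 * (B + 1))), by positivity, fun s hs => ?_⟩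
  have hs1 : |s| * B < η := by
    have h1 : |s| < η / (B + 1) := hs.trans_le (min_le_left _ _)
    rw [lt_div_iff₀ (by positivity)] at h1
    have := abs_nonneg s
    nlinarith
  have hs2 : |s| * B ≤ 1 / 2 := by
    have h1 : |s| < 1 / (2 * (B + 1)) := hs.trans_le (min_le_right _ _)
    rw [lt_div_iff₀ (by positivity)] at h1
    have := abs_nonneg s
    nlinarith
  set U : (Fin (d + 1) → ℝ) → (Fin (d + 1) → ℝ) := fun z => Pi.single 0 (s * ψ z) with hU
  have hUU : U = s • U₀ := by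
    funext z
    simp only [hU, hU₀, Pi.smul_apply]
    rw [← Pi.single_smul, smul_eq_mul]
  have hUs : ContDiff ℝ (⊤ : ℕ∞) U := by
    rw [hUU]; exact hU₀s.const_smul s
  have hUp : ∀ z z', toTorus z = toTorus z' → U z = U z' := fun z z' h => by
    simp only [hU]
    rw [show ψ z = ψ z' from psi_per _ _ z z' h]
  have hUj : ∀ j, j < k + 2 → ∀ z, ‖iteratedFDeriv ℝ j U z‖ ≤ |s| * B := by
    intro j hj z
    rw [hUU, iteratedFDeriv_const_smul_apply (hU₀s.contDiffAt.of_le (by exact_mod_cast le_top)),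
      norm_smul, Real.norm_eq_abs]
    exact mul_le_mul_of_nonneg_left (hMB j hj z) (abs_nonneg s)
  refine ⟨⟨hUs, fun j hj z => (hUj j (by omega) z).trans_lt hs1⟩, ?_⟩
  have hfd : ∀ z, ‖fderiv ℝ U z‖ ≤ 1 / 2 := fun z => by
    rw [← norm_iteratedFDeriv_one]
    exact (hUj 1 (by omega) z).trans hs2
  obtain ⟨A, hA, hAs, hL⟩ := exists_homeo U hUs hfd
  obtain ⟨Θ, hΘ, hΘ'⟩ := descend U hUp A hA
  refine ⟨Θ, ⟨⟨⟨_, ?_, hΘ⟩, ⟨_, hAs, hΘ'⟩⟩, ?_, ?_⟩, hΘ⟩
  · exact contDiff_id.add hUs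
  · -- the flag
    have hco : ∀ (x : Torus (d + 1)) (j : Fin (d + 1)), j ≠ 0 → Θ x j = x j := by
      intro x j hj
      have h1 := hΘ (rep x)
      rw [toTorus_rep] at h1
      rw [← h1]
      show (((rep x + U (rep x)) j : ℝ) : UnitAddCircle) = x j
      have h2 : (rep x + U (rep x)) j = rep x j := by
        simp [hU, Pi.single_eq_of_ne hj]
      rw [h2]
      exact congrFun (toTorus_rep x) j
    intro k' x y
    by_cases hk : k' = 0
    · subst hk
      constructor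
      · intro h j hj
        have : x = y := funext fun i => h i (Fin.zero_le _)
        rw [this]
      · intro h j hj
        have : Θ x = Θ y := funext fun i => h i (Fin.zero_le _)
        rw [Θ.injective this]
    · have h0 : ∀ j, k' ≤ j → j ≠ 0 := by
        rintro j hj rfl
        exact hk (Fin.le_zero_iff.1 hj)
      constructor
      · intro h j hj
        rw [hco x j (h0 j hj), hco y j (h0 j hj)]
        exact h j hj
      · intro h j hj
        rw [← hco x j (h0 j hj), ← hco y j (h0 j hj)]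
        exact h j hj
  · refine ⟨_, (contDiff_id.add hUs).continuous, hΘ, fun z k' t ht => ?_⟩
    by_cases hk : k' = 0
    · subst hk
      exact orient_aux U hL z t ht
    · show z k' + U z k' < (z + Pi.single k' t : Fin (d + 1) → ℝ) k' + U (z + Pi.single k' t) k'
      have h5 : ∀ w, U w k' = 0 := fun w => by simp [hU, Pi.single_eq_of_ne hk]
      rw [h5, h5]
      simp [ht]

end Pool.Agent.H637R2.TD
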