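import Pool.Agent.H637R2.TD.Base

open Set Filter Topology MeasureTheory

namespace Pool.Agent.H637R2.TD

open Pool.Agent.H728R2.OS

/-- The tail as a continuous linear map. -/
private noncomputable def rigbTail (d : ℕ) : (Fin (d + 1) → ℝ) →L[ℝ] (Fin d → ℝ) :=
  ContinuousLinearMap.pi fun i => ContinuousLinearMap.proj i.succ

private theorem rigbTail_apply {d : ℕ} (z : Fin (d + 1) → ℝ) : rigbTail d z = Fin.tail z := rfl

private theorem rigbTail_norm (d : ℕ) : ‖rigbTail d‖ ≤ 1 := by
  refine ContinuousLinearMap.opNorm_le_bound _ zero_le_one fun z => ?_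
  rw [one_mul]
  refine (pi_norm_le_iff_of_nonneg (norm_nonneg z)).2 fun i => ?_
  exact norm_le_pi_norm z i.succ

/-- `v ↦ (0, v)` as a linear isometry. -/
private noncomputable def rigbCons (d : ℕ) : (Fin d → ℝ) →ₗᵢ[ℝ] (Fin (d + 1) → ℝ) where
  toFun v := Fin.cons 0 v
  map_add' v w := by
    funext i
    refine Fin.cases ?_ (fun j => ?_) i <;> simp
  map_smul' c v := by
    funext i
    refine Fin.cases ?_ (fun j => ?_) i <;> simp
  norm_map' v := by
    refine le_antisymm ?_ ?_
    · refine (pi_norm_le_iff_of_nonneg (norm_nonneg v)).2 fun i => ?_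
      refine Fin.cases ?_ (fun j => ?_) i
      · simp
      · simpa using norm_le_pi_norm v j
    · refine (pi_norm_le_iff_of_nonneg (norm_nonneg _)).2 fun i => ?_
      have := norm_le_pi_norm (Fin.cons (α := fun _ => ℝ) 0 v : Fin (d + 1) → ℝ) i.succ
      simpa using this

/-- The extension of a map of `ℝ^d`. -/
private def rigbExt {d : ℕ} (F : (Fin d → ℝ) → (Fin d → ℝ)) (z : Fin (d + 1) → ℝ) :
    Fin (d + 1) → ℝ := Fin.cons (z 0) (F (Fin.tail z))

private theorem rigbExt_contDiff {d : ℕ} {n : ℕ∞} {F : (Fin d → ℝ) → (Fin d → ℝ)}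
    (hF : ContDiff ℝ n F) : ContDiff ℝ n (rigbExt F) := by
  rw [contDiff_pi]
  intro i
  refine Fin.cases ?_ (fun j => ?_) i
  · simp only [rigbExt, Fin.cons_zero]
    exact contDiff_apply ℝ ℝ 0
  · simp only [rigbExt, Fin.cons_succ]
    have h1 : ContDiff ℝ n fun z : Fin (d + 1) → ℝ => F (rigbTail d z) :=
      hF.comp (rigbTail d).contDiff
    exact (contDiff_pi.1 h1) j

private theorem rigbExt_continuous {d : ℕ} {F : (Fin d → ℝ) → (Fin d → ℝ)}
    (hF : Continuous F) : Continuous (rigbExt F) := by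
  refine continuous_pi fun i => ?_
  refine Fin.cases ?_ (fun j => ?_) i
  · simp only [rigbExt, Fin.cons_zero]
    exact continuous_apply 0
  · simp only [rigbExt, Fin.cons_succ]
    have h1 : Continuous fun z : Fin (d + 1) → ℝ => F (rigbTail d z) :=
      hF.comp (rigbTail d).continuous
    exact (continuous_apply j).comp h1

/-- The extension of a homeomorphism of `𝕋^d`. -/
private def rigbHomeo {d : ℕ} (Θ : Torus d ≃ₜ Torus d) : Torus (d + 1) ≃ₜ Torus (d + 1) :=
  (split d).trans ((Θ.prodCongr (Homeomorph.refl Circ)).trans (split d).symm)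

private theorem rigbHomeo_apply {d : ℕ} (Θ : Torus d ≃ₜ Torus d) (x : Torus (d + 1)) :
    rigbHomeo Θ x = Fin.cons (x 0) (Θ (Fin.tail x)) := rfl

private theorem rigbHomeo_zero {d : ℕ} (Θ : Torus d ≃ₜ Torus d) (x : Torus (d + 1)) :
    rigbHomeo Θ x 0 = x 0 := rfl

private theorem rigbHomeo_succ {d : ℕ} (Θ : Torus d ≃ₜ Torus d) (x : Torus (d + 1)) (i : Fin d) :
    rigbHomeo Θ x i.succ = Θ (Fin.tail x) i := rfl

private theorem rigbHomeo_symm {d : ℕ} (Θ : Torus d ≃ₜ Torus d) :
    (rigbHomeo Θ).symm = rigbHomeo Θ.symm := rfl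

private theorem rigb_lift {d : ℕ} {F : (Fin d → ℝ) → (Fin d → ℝ)} {Θ : Torus d ≃ₜ Torus d}
    (h : IsLift toTorus F Θ) : IsLift toTorus (rigbExt F) (rigbHomeo Θ) := by
  intro z
  funext i
  refine Fin.cases rfl (fun j => ?_) i
  exact congrFun (h (Fin.tail z)) j

private theorem rigb_flag {d : ℕ} {Θ : Torus d ≃ₜ Torus d} (h : IsFlagDiffeo ⊤ Θ) :
    IsFlagDiffeo ⊤ (rigbHomeo Θ) := by
  refine ⟨⟨?_, ?_⟩, ?_, ?_⟩
  · obtain ⟨F, hF, lF⟩ := h.diffeo.1
    exact ⟨rigbExt F, rigbExt_contDiff hF, rigb_lift lF⟩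
  · obtain ⟨G, hG, lG⟩ := h.diffeo.2
    exact ⟨rigbExt G, rigbExt_contDiff hG, by rw [rigbHomeo_symm]; exact rigb_lift lG⟩
  · intro k x y
    refine Fin.cases ?_ (fun k' => ?_) k
    · constructor
      · intro hxy j hj
        have : x = y := funext fun i => hxy i (Fin.zero_le i)
        rw [this]
      · intro hxy j hj
        have : rigbHomeo Θ x = rigbHomeo Θ y := funext fun i => hxy i (Fin.zero_le i)
        rw [(rigbHomeo Θ).injective this]
    · have key := h.flag k' (Fin.tail x) (Fin.tail y)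
      constructor
      · intro hxy j hj
        obtain ⟨j', rfl⟩ := Fin.exists_succ_eq.2
          (show j ≠ 0 from fun h0 => by
            rw [h0] at hj
            exact absurd hj (by simp))
        refine key.1 (fun i hi => ?_) j' (Fin.succ_le_succ_iff.1 hj)
        exact hxy i.succ (Fin.succ_le_succ_iff.2 hi)
      · intro hxy j hj
        obtain ⟨j', rfl⟩ := Fin.exists_succ_eq.2
          (show j ≠ 0 from fun h0 => by
            rw [h0] at hj
            exact absurd hj (by simp))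
        refine key.2 (fun i hi => ?_) j' (Fin.succ_le_succ_iff.1 hj)
        exact hxy i.succ (Fin.succ_le_succ_iff.2 hi)
  · obtain ⟨F, hF, lF, mF⟩ := h.orient
    refine ⟨rigbExt F, rigbExt_continuous hF, rigb_lift lF, fun z k t ht => ?_⟩
    refine Fin.cases ?_ (fun k' => ?_) k
    · simp only [rigbExt, Fin.cons_zero, Pi.add_apply, Pi.single_eq_same]
      linarith
    · simp only [rigbExt, Fin.cons_succ]
      have h1 : Fin.tail (z + Pi.single k'.succ t : Fin (d + 1) → ℝ) =
          Fin.tail z + Pi.single k' t := by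
        funext i
        simp only [Fin.tail, Pi.add_apply, Pi.single_apply, Fin.succ_inj]
      rw [h1]
      exact mF _ k' t ht

private theorem rigb_small {d k : ℕ} {η : ℝ} {U : (Fin d → ℝ) → (Fin d → ℝ)}
    (h : SmallMap k η U) :
    SmallMap k η (fun z : Fin (d + 1) → ℝ => rigbCons d (U (rigbTail d z))) := by
  have hs1 : ContDiff ℝ (⊤ : ℕ∞) fun z : Fin (d + 1) → ℝ => U (rigbTail d z) :=
    h.smooth.comp (rigbTail d).contDiff
  refine ⟨(rigbCons d).contDiff.comp hs1, fun j hj z => ?_⟩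
  have h1 := (rigbCons d).norm_iteratedFDeriv_comp_left (n := (⊤ : ℕ∞)) (i := j)
    (f := fun z : Fin (d + 1) → ℝ => U (rigbTail d z)) (x := z) hs1.contDiffAt
    (by exact_mod_cast le_top)
  have h2 : iteratedFDeriv ℝ j (U ∘ rigbTail d) z =
      (iteratedFDeriv ℝ j U (rigbTail d z)).compContinuousLinearMap fun _ => rigbTail d :=
    (rigbTail d).iteratedFDeriv_comp_right h.smooth z (by exact_mod_cast le_top)
  calc ‖iteratedFDeriv ℝ j (fun z : Fin (d + 1) → ℝ => rigbCons d (U (rigbTail d z))) z‖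
      = ‖iteratedFDeriv ℝ j (U ∘ rigbTail d) z‖ := h1
    _ ≤ ‖iteratedFDeriv ℝ j U (rigbTail d z)‖ * ∏ _i : Fin j, ‖rigbTail d‖ := by
        rw [h2]
        exact ContinuousMultilinearMap.norm_compContinuousLinearMap_le _ _
    _ ≤ ‖iteratedFDeriv ℝ j U (rigbTail d z)‖ * 1 := by
        refine mul_le_mul_of_nonneg_left ?_ (norm_nonneg _)
        exact Finset.prod_le_one (fun _ _ => norm_nonneg _) fun _ _ => rigbTail_norm d
    _ < η := by
        rw [mul_one]
        exact h.lt j hj _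

/-- Rigidity passes to the base. -/
theorem rigid_base {d k : ℕ} {η : ℝ} (f : Torus (d + 1) ≃ₜ Torus (d + 1)) (T : Torus d ≃ₜ Torus d)
    (hT : ∀ x : Torus (d + 1), (fun i : Fin d => f x i.succ) = T (fun i : Fin d => x i.succ))
    (Q : Set (Torus (d + 1))) (h : Rigid k η f Q) :
    Rigid k η T ((fun (x : Torus (d + 1)) (i : Fin d) => x i.succ) '' Q) := by
  intro Θ U hΘ hU hlift hfix K hKc hKn hKm
  have hcont : Continuous fun (x : Torus (d + 1)) (i : Fin d) => x i.succ :=
    continuous_pi fun i => continuous_apply i.succ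
  have hl : IsLift toTorus (fun z : Fin (d + 1) → ℝ => z + rigbCons d (U (rigbTail d z)))
      (rigbHomeo Θ) := by
    have h1 : (fun z : Fin (d + 1) → ℝ => z + rigbCons d (U (rigbTail d z))) =
        rigbExt fun z => z + U z := by
      funext z i
      refine Fin.cases ?_ (fun j => ?_) i
      · change z 0 + 0 = z 0
        exact add_zero _
      · rfl
    rw [h1]
    exact rigb_lift hlift
  have hfix' : ∀ q ∈ Q, rigbHomeo Θ q = q := by
    intro q hq
    have h1 : Θ (Fin.tail q) = Fin.tail q := hfix _ ⟨q, hq, rfl⟩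
    rw [rigbHomeo_apply, h1]
    exact Fin.cons_self_tail q
  have hKm' : MapsTo (fun x => rigbHomeo Θ (f x))
      ((fun (x : Torus (d + 1)) (i : Fin d) => x i.succ) ⁻¹' K)
      ((fun (x : Torus (d + 1)) (i : Fin d) => x i.succ) ⁻¹' K) := by
    intro x hx
    have h1 : (fun i : Fin d => rigbHomeo Θ (f x) i.succ) = Θ (T fun i : Fin d => x i.succ) := by
      rw [← hT]
      rfl
    change (fun i : Fin d => rigbHomeo Θ (f x) i.succ) ∈ K
    rw [h1]
    exact hKm hx
  have hne : ((fun (x : Torus (d + 1)) (i : Fin d) => x i.succ) ⁻¹' K).Nonempty := by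
    obtain ⟨y, hy⟩ := hKn
    refine ⟨Fin.cons 0 y, ?_⟩
    change (fun i : Fin d => (Fin.cons 0 y : Torus (d + 1)) i.succ) ∈ K
    simpa using hy
  obtain ⟨x, hxK, hxQ⟩ := h (rigbHomeo Θ) _ (rigb_flag hΘ) (rigb_small hU) hl hfix' _
    (hKc.preimage hcont) hne hKm'
  exact ⟨_, hxK, x, hxQ, rfl⟩

end Pool.Agent.H637R2.TD
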