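import Pool.Agent.H637R2.TD.Base

open Set Filter Topology MeasureTheory

namespace Pool.Agent.H637R2.TD

open Pool.Agent.H728R2.OS

theorem splitR_lift {d : ℕ} (z : Fin (d + 1) → ℝ) :
    toTorus1 (splitR d z) = split d (toTorus z) := rfl

namespace SplitAux

/-- the linear isometry underlying `splitR` -/
noncomputable def L (d : ℕ) : (Fin (d + 1) → ℝ) ≃ₗᵢ[ℝ] ((Fin d → ℝ) × ℝ) where
  toFun z := (Fin.tail z, z 0)
  invFun w := Fin.cons w.2 w.1
  left_inv z := Fin.cons_self_tail z
  right_inv w := by simp [Fin.tail_cons]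
  map_add' z w := rfl
  map_smul' c z := rfl
  norm_map' z := by
    show ‖((Fin.tail z, z 0) : (Fin d → ℝ) × ℝ)‖ = ‖z‖
    rw [Prod.norm_def]
    apply le_antisymm
    · refine max_le ((pi_norm_le_iff_of_nonneg (norm_nonneg _)).mpr fun i => ?_) (norm_le_pi_norm z 0)
      exact norm_le_pi_norm z i.succ
    · refine (pi_norm_le_iff_of_nonneg (le_max_of_le_left (norm_nonneg _))).mpr fun i => ?_
      refine Fin.cases ?_ (fun j => ?_) i
      · exact le_max_right _ _
      · exact le_max_of_le_left (norm_le_pi_norm (Fin.tail z) j)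

theorem L_lift {d : ℕ} (z : Fin (d + 1) → ℝ) : toTorus1 (L d z) = split d (toTorus z) := rfl

theorem L_lift_symm {d : ℕ} (w : (Fin d → ℝ) × ℝ) :
    toTorus ((L d).symm w) = (split d).symm (toTorus1 w) := by
  rw [Homeomorph.eq_symm_apply, ← L_lift, LinearIsometryEquiv.apply_symm_apply]

theorem split_isometry (d : ℕ) (x y : Torus (d + 1)) :
    dist (split d x) (split d y) = dist x y := by
  show dist ((Fin.tail x, x 0) : Torus d × Circ) (Fin.tail y, y 0) = dist x y
  rw [Prod.dist_eq]
  apply le_antisymm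
  · refine max_le ((dist_pi_le_iff dist_nonneg).mpr fun i => ?_) (dist_le_pi_dist x y 0)
    exact dist_le_pi_dist x y i.succ
  · refine (dist_pi_le_iff (le_max_of_le_left dist_nonneg)).mpr fun i => ?_
    refine Fin.cases ?_ (fun j => ?_) i
    · exact le_max_right _ _
    · exact le_max_of_le_left (dist_le_pi_dist (Fin.tail x) (Fin.tail y) j)

theorem conjSplit_symm {d : ℕ} (f : Torus (d + 1) ≃ₜ Torus (d + 1)) :
    (conjSplit f).symm = conjSplit f.symm := rfl

theorem iter {d : ℕ} (f : Torus (d + 1) ≃ₜ Torus (d + 1)) (n : ℕ) (x : Torus (d + 1)) :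
    (conjSplit f)^[n] (split d x) = split d (f^[n] x) := by
  induction n with
  | zero => rfl
  | succ n ih => rw [Function.iterate_succ_apply', ih, Function.iterate_succ_apply', conjSplit_apply]

theorem lift_conj {d : ℕ} {F : (Fin (d + 1) → ℝ) → (Fin (d + 1) → ℝ)}
    {f : Torus (d + 1) ≃ₜ Torus (d + 1)} (h : IsLift toTorus F f) :
    IsLift toTorus1 (fun z => L d (F ((L d).symm z))) (conjSplit f) := by
  intro z
  show toTorus1 (L d (F ((L d).symm z))) = conjSplit f (toTorus1 z)
  rw [L_lift, h, L_lift_symm, ← conjSplit_apply, Homeomorph.apply_symm_apply]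

theorem lift_conj' {d : ℕ} {F : ((Fin d → ℝ) × ℝ) → ((Fin d → ℝ) × ℝ)}
    {f : Torus (d + 1) ≃ₜ Torus (d + 1)} (h : IsLift toTorus1 F (conjSplit f)) :
    IsLift toTorus (fun z => (L d).symm (F (L d z))) f := by
  intro z
  show toTorus ((L d).symm (F (L d z))) = f (toTorus z)
  rw [L_lift_symm, h, L_lift, conjSplit_apply, Homeomorph.symm_apply_apply]

theorem contDiff_conj' {d : ℕ} {n : WithTop ℕ∞} {F : ((Fin d → ℝ) × ℝ) → ((Fin d → ℝ) × ℝ)}
    (h : ContDiff ℝ n F) : ContDiff ℝ n (fun z => (L d).symm (F (L d z))) :=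
  (L d).symm.contDiff.comp (h.comp (L d).contDiff)

theorem fderiv_conj {d : ℕ} (F : ((Fin d → ℝ) × ℝ) → ((Fin d → ℝ) × ℝ))
    (z v : Fin (d + 1) → ℝ) :
    fderiv ℝ (fun z => (L d).symm (F (L d z))) z v = (L d).symm (fderiv ℝ F (L d z) (L d v)) := by
  have h1 : (fun z => (L d).symm (F (L d z))) =
      (L d).symm.toContinuousLinearEquiv ∘ (F ∘ (L d).toContinuousLinearEquiv) := rfl
  rw [h1, ContinuousLinearEquiv.comp_fderiv, ContinuousLinearEquiv.comp_right_fderiv]
  rfl

theorem iter_conj {d : ℕ} (F : ((Fin d → ℝ) × ℝ) → ((Fin d → ℝ) × ℝ)) (m : ℕ) :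
    (fun z => (L d).symm (F (L d z)))^[m] = fun z => (L d).symm (F^[m] (L d z)) := by
  induction m with
  | zero =>
    funext z
    simp
  | succ m ih =>
    funext z
    rw [Function.iterate_succ_apply', ih, Function.iterate_succ_apply',
      LinearIsometryEquiv.apply_symm_apply]

end SplitAux

open SplitAux

theorem isDiffeo_conjSplit {d : ℕ} {r : ℕ∞} (f : Torus (d + 1) ≃ₜ Torus (d + 1))
    (hf : IsDiffeo toTorus r f) : IsDiffeo toTorus1 r (conjSplit f) := by
  obtain ⟨⟨F, hF, hFl⟩, G, hG, hGl⟩ := hf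
  refine ⟨⟨_, ?_, lift_conj hFl⟩, _, ?_, lift_conj (f := f.symm) hGl⟩
  · exact (L d).contDiff.comp (hF.comp (L d).symm.contDiff)
  · exact (L d).contDiff.comp (hG.comp (L d).symm.contDiff)

theorem per_conjSplit {d : ℕ} (f : Torus (d + 1) ≃ₜ Torus (d + 1)) :
    Per (conjSplit f) = split d '' Per f := by
  ext y
  obtain ⟨x, rfl⟩ := (split d).surjective y
  constructor
  · rintro ⟨n, hn, h⟩
    refine ⟨x, ⟨n, hn, ?_⟩, rfl⟩
    rw [iter] at h
    exact (split d).injective h
  · rintro ⟨x', ⟨n, hn, h⟩, hx⟩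
    rw [← hx]
    exact ⟨n, hn, by rw [iter, h]⟩

theorem isHyperbolic_of_conjSplit {d : ℕ} (f : Torus (d + 1) ≃ₜ Torus (d + 1))
    (S : Set (Torus (d + 1))) (h : IsHyperbolic toTorus1 (conjSplit f) (split d '' S)) :
    IsHyperbolic toTorus f S := by
  obtain ⟨F, G, hF, hG, hFl, hGl, P, c, μ, hc, hμ, hμ1, hPc, hPP, hPF, hest⟩ := h
  refine ⟨_, _, contDiff_conj' hF, contDiff_conj' hG, lift_conj' hFl,
    lift_conj' (f := f.symm) hGl,
    fun x => ((L d).symm.toContinuousLinearEquiv : _ →L[ℝ] _) ∘L P (split d x) ∘L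
      ((L d).toContinuousLinearEquiv : _ →L[ℝ] _), c, μ, hc, hμ, hμ1, ?_, ?_, ?_, ?_⟩
  · refine continuousOn_const.clm_comp (ContinuousOn.clm_comp ?_ continuousOn_const)
    exact hPc.comp (split d).continuous.continuousOn (mapsTo_image _ _)
  · intro x hx
    have h1 := hPP (split d x) (mem_image_of_mem _ hx)
    ext v : 1
    show (L d).symm (P (split d x) (L d ((L d).symm (P (split d x) (L d v))))) =
      (L d).symm (P (split d x) (L d v))
    rw [LinearIsometryEquiv.apply_symm_apply]
    have h2 := congrArg (fun A => A (L d v)) h1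
    exact congrArg (L d).symm h2
  · intro z hz
    have hz' : toTorus1 (L d z) ∈ split d '' S := by
      rw [L_lift]
      exact mem_image_of_mem _ hz
    have h1 := hPF (L d z) hz'
    ext v : 1
    show fderiv ℝ (fun z => (L d).symm (F (L d z))) z
        ((L d).symm (P (split d (toTorus z)) (L d v))) =
      (L d).symm (P (split d (f (toTorus z)))
        (L d (fderiv ℝ (fun z => (L d).symm (F (L d z))) z v)))
    rw [fderiv_conj, fderiv_conj, LinearIsometryEquiv.apply_symm_apply,
      LinearIsometryEquiv.apply_symm_apply, ← L_lift, ← conjSplit_apply, ← L_lift]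
    exact congrArg (L d).symm (congrArg (fun A => A (L d v)) h1)
  · intro m z hz v
    have hz' : toTorus1 (L d z) ∈ split d '' S := by
      rw [L_lift]
      exact mem_image_of_mem _ hz
    obtain ⟨h1, h2⟩ := hest m (L d z) hz' (L d v)
    constructor
    · show ‖fderiv ℝ ((fun z => (L d).symm (F (L d z)))^[m]) z
          ((L d).symm (P (split d (toTorus z)) (L d v)))‖ ≤
        c * μ ^ m * ‖(L d).symm (P (split d (toTorus z)) (L d v))‖
      rw [iter_conj, fderiv_conj, LinearIsometryEquiv.norm_map, LinearIsometryEquiv.norm_map,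
        LinearIsometryEquiv.apply_symm_apply, ← L_lift]
      exact h1
    · show ‖fderiv ℝ ((fun z => (L d).symm (G (L d z)))^[m]) z
          (v - (L d).symm (P (split d (toTorus z)) (L d v)))‖ ≤
        c * μ ^ m * ‖v - (L d).symm (P (split d (toTorus z)) (L d v))‖
      have h3 : L d (v - (L d).symm (P (split d (toTorus z)) (L d v))) =
          L d v - P (toTorus1 (L d z)) (L d v) := by
        rw [map_sub, LinearIsometryEquiv.apply_symm_apply, L_lift]
      rw [iter_conj, fderiv_conj, LinearIsometryEquiv.norm_map,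
        ← LinearIsometryEquiv.norm_map (L d) (v - _), h3]
      exact h2

theorem conv_of_conjSplit {d : ℕ} (f : Torus (d + 1) ≃ₜ Torus (d + 1))
    (h : Conv (conjSplit f)) : Conv f := by
  obtain ⟨hfin, hconv⟩ := h
  constructor
  · have h1 : (split d '' Per f).Finite := by
      rw [← per_conjSplit]
      exact hfin
    exact Set.Finite.of_finite_image h1 (split d).injective.injOn
  · intro x hx
    have h1 : Tendsto (fun n => dist (conjSplit f (split d (x n))) (split d (x (n + 1))))
        atTop (𝓝 0) := by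
      refine hx.congr fun n => ?_
      rw [conjSplit_apply, split_isometry]
    obtain ⟨p, n, hn, hp, hlim⟩ := hconv (fun n => split d (x n)) h1
    obtain ⟨p, rfl⟩ := (split d).surjective p
    refine ⟨p, n, hn, ?_, ?_⟩
    · rw [iter] at hp
      exact (split d).injective hp
    · refine hlim.congr fun k => ?_
      rw [iter, split_isometry]

end Pool.Agent.H637R2.TD
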