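import Pool.Agent.H637R2.TD.S.PSI
import Pool.Agent.H637R2.TD.S.NEWP
import Pool.Agent.H637R2.TD.S.SPLIT

open Set Filter Topology MeasureTheory

namespace Pool.Agent.H637R2.TD

open Pool.Agent.H728R2.OS

namespace Rigs

theorem orbit {X : Type*} (h : X → X) (q : X) (N : ℕ) (hN : 0 < N) (hq : h^[N] q = q)
    (Q : Set X) (hQ : ∀ z ∈ Q, h z ∈ Q) :
    ∃ K : Set X, K.Finite ∧ K.Nonempty ∧ MapsTo h K K ∧ ((K ∩ Q).Nonempty → q ∈ Q) := by
  refine ⟨(fun i => h^[i] q) '' Iio N, (Set.finite_Iio N).image _, ⟨q, 0, hN, rfl⟩, ?_, ?_⟩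
  · rintro _ ⟨i, hi, rfl⟩
    by_cases h1 : i + 1 < N
    · exact ⟨i + 1, h1, Function.iterate_succ_apply' _ _ _⟩
    · have h2 : i + 1 = N := by
        have h3 : i < N := hi
        omega
      refine ⟨0, hN, ?_⟩
      have h4 : h (h^[i] q) = h^[i + 1] q := (Function.iterate_succ_apply' h i q).symm
      show q = h (h^[i] q)
      rw [h4, h2, hq]
  · rintro ⟨_, ⟨i, hi, rfl⟩, hz⟩
    have h3 : ∀ j, h^[j] (h^[i] q) ∈ Q := by
      intro j
      induction j with
      | zero => exact hz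
      | succ j ih =>
        rw [Function.iterate_succ_apply']
        exact hQ _ ih
    have h4 := h3 (N - i)
    rw [← Function.iterate_add_apply, Nat.sub_add_cancel (le_of_lt hi), hq] at h4
    exact h4

theorem flag_refl {d : ℕ} : IsFlagDiffeo ⊤ (Homeomorph.refl (Torus d)) where
  diffeo := ⟨⟨id, contDiff_id, fun z => rfl⟩, ⟨id, contDiff_id, fun z => rfl⟩⟩
  flag := fun k x y => Iff.rfl
  orient := ⟨id, continuous_id, fun z => rfl, fun z k t ht => by simp [ht]⟩

theorem small_zero {d : ℕ} (k : ℕ) (η : ℝ) (hη : 0 < η) :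
    SmallMap (d := d) k η (fun _ => 0) where
  smooth := contDiff_const
  lt := fun j _ z => by
    have : iteratedFDeriv ℝ j (fun _ : Fin d → ℝ => (0 : Fin d → ℝ)) = 0 :=
      iteratedFDeriv_fun_zero
    rw [this]
    simpa using hη

theorem toTorus_cons {d : ℕ} (t : ℝ) (x : Torus d) :
    toTorus (Fin.cons t (rep x) : Fin (d + 1) → ℝ) = (split d).symm (x, (t : UnitAddCircle)) := by
  have h0 : (split d).symm (x, (t : UnitAddCircle)) = Fin.cons (t : UnitAddCircle) x := rfl
  rw [h0]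
  funext i
  refine Fin.cases ?_ (fun j => ?_) i
  · simp [toTorus]
  · have := congrFun (toTorus_rep x) j
    simpa [toTorus] using this

theorem cons_add_single {d : ℕ} (t s : ℝ) (r : Fin d → ℝ) :
    (Fin.cons t r : Fin (d + 1) → ℝ) + Pi.single 0 s = Fin.cons (t + s) r := by
  funext i
  refine Fin.cases ?_ (fun j => ?_) i
  · simp
  · simp

theorem diff_cons {d : ℕ} (r : Fin d → ℝ) :
    Differentiable ℝ (fun t : ℝ => (Fin.cons t r : Fin (d + 1) → ℝ)) := by
  rw [differentiable_pi]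
  intro i
  refine Fin.cases ?_ (fun j => ?_) i
  · simp
  · simp

end Rigs

/-- For a rigid pair `(f, Q)` the periodic points are the points of `Q` and they are hyperbolic in
the direction of the fibre. -/
theorem rigid_simple {d : ℕ} {r : ℕ∞} (f : Torus (d + 1) ≃ₜ Torus (d + 1))
    (T : Torus d ≃ₜ Torus d) (Q : Set (Torus (d + 1)))
    (hQ : Q.Finite) (hfQ : f '' Q = Q) (k : ℕ) (η : ℝ) (hη : 0 < η) (h : Rigid k η f Q)
    (S : FiberSys (Torus d)) (hST : S.T = T) (hSf : S.map = conjSplit f)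
    (hSd : ∀ x, Differentiable ℝ (S.G x)) (hSp : ∀ x y, 0 < deriv (S.G x) y) :
    Per f ⊆ Q ∧ ∀ (x : Torus d) (N : ℕ) (m : ℤ) (y : ℝ), 0 < N → T^[N] x = x →
      S.it x N y = y + m → deriv (S.it x N) y ≠ 1 := by
  have hfQ' : ∀ z ∈ Q, f z ∈ Q := fun z hz => hfQ ▸ Set.mem_image_of_mem f hz
  have hPer : Per f ⊆ Q := by
    rintro x ⟨n, hn, hx⟩
    obtain ⟨K, hK1, hK2, hK3, hK4⟩ := Rigs.orbit f x n hn hx Q hfQ'
    refine hK4 (h (Homeomorph.refl _) (fun _ => 0) Rigs.flag_refl (Rigs.small_zero k η hη) ?_ ?_ K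
      hK1.isClosed hK2 ?_)
    · intro z
      show toTorus (z + 0) = toTorus z
      rw [add_zero]
    · intro q _
      rfl
    · exact hK3
  refine ⟨hPer, ?_⟩
  intro x N m y hN hx hy hd1
  rw [← hST] at hx
  -- the action of f on fibres
  have hA : ∀ (x' : Torus d) (t : ℝ), f ((split d).symm (x', (t : UnitAddCircle))) =
      (split d).symm (S.T x', ((S.G x' t : ℝ) : UnitAddCircle)) := by
    intro x' t
    have h1 : S.map (x', (t : UnitAddCircle)) = conjSplit f (x', (t : UnitAddCircle)) := by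
      rw [hSf]
    have h2 : conjSplit f (x', (t : UnitAddCircle)) =
        split d (f ((split d).symm (x', (t : UnitAddCircle)))) := rfl
    have h3 : S.map (x', (t : UnitAddCircle)) = (S.T x', ((S.G x' t : ℝ) : UnitAddCircle)) := by
      rw [S.lift]
      rfl
    rw [← h3, h1, h2, Homeomorph.symm_apply_apply]
  have hB : ∀ (i : ℕ) (t : ℝ), f^[i] ((split d).symm (x, (t : UnitAddCircle))) =
      (split d).symm (S.T^[i] x, ((S.it x i t : ℝ) : UnitAddCircle)) := by
    intro i t
    induction i with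
    | zero => rfl
    | succ i ih =>
      rw [Function.iterate_succ_apply', ih, hA, Function.iterate_succ_apply', FiberSys.it_succ]
  have hcirc : ((y + m : ℝ) : UnitAddCircle) = (y : UnitAddCircle) := by
    have : ((m : ℝ) : UnitAddCircle) = 0 := by
      rw [AddCircle.coe_eq_zero_iff]
      exact ⟨m, by simp⟩
    rw [AddCircle.coe_add, this, add_zero]
  set p : Torus (d + 1) := (split d).symm (x, (y : UnitAddCircle)) with hp
  have hpN : f^[N] p = p := by rw [hp, hB, hx, hy, hcirc]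
  have hpQ : p ∈ Q := hPer ⟨N, hN, hpN⟩
  have hiQ : ∀ i, f^[i] p ∈ Q := by
    intro i
    induction i with
    | zero => exact hpQ
    | succ i ih =>
      rw [Function.iterate_succ_apply']
      exact hfQ' _ ih
  obtain ⟨ψ, hψ1, hψ2, hψ3, hψ4, hψ5, s₀, hs₀, hψ6⟩ := exists_psi Q hQ p hpQ k η hη
  set g : ℕ → ℝ → ℝ := fun i => S.G (S.T^[i] x) with hg
  set φ : ℕ → ℝ → ℝ := fun i t => ψ (Fin.cons t (rep (S.T^[i + 1] x))) with hφ
  have hitr : ∀ n t, itr id g n t = S.it x n t := by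
    intro n t
    induction n with
    | zero => rfl
    | succ n ih =>
      show id (g n (itr id g n t)) = _
      rw [ih, FiberSys.it_succ]
      rfl
  have hitr' : ∀ n, itr id g n = S.it x n := fun n => funext (hitr n)
  have hz1 : ∀ i t, toTorus (Fin.cons (S.G (S.T^[i] x) (S.it x i t)) (rep (S.T^[i + 1] x)) :
      Fin (d + 1) → ℝ) = f^[i + 1] ((split d).symm (x, (t : UnitAddCircle))) := by
    intro i t
    rw [Rigs.toTorus_cons, hB, FiberSys.it_succ]
  have hder : ∀ i t, deriv (φ i) t =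
      deriv (fun u => ψ ((Fin.cons t (rep (S.T^[i + 1] x)) : Fin (d + 1) → ℝ) + Pi.single 0 u))
        0 := by
    intro i t
    have h1 : (fun u => ψ ((Fin.cons t (rep (S.T^[i + 1] x)) : Fin (d + 1) → ℝ) + Pi.single 0 u))
        = fun u => φ i (t + u) := by
      funext u
      rw [Rigs.cons_add_single]
    rw [h1, deriv_comp_const_add, add_zero]
  -- a short interval without points of Q
  obtain ⟨δ, hδ, hδ1, hδQ⟩ : ∃ δ : ℝ, 0 < δ ∧ δ < 1 ∧ ∀ t, y < t → t ≤ y + δ →
      (split d).symm (x, (t : UnitAddCircle)) ∉ Q := by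
    have hfin : (Ioo y (y + 1) ∩ (fun t : ℝ => (split d).symm (x, (t : UnitAddCircle))) ⁻¹'
        Q).Finite := by
      have hinj : InjOn (fun t : ℝ => (split d).symm (x, (t : UnitAddCircle)))
          (Ioo y (y + 1) ∩ (fun t : ℝ => (split d).symm (x, (t : UnitAddCircle))) ⁻¹' Q) := by
        intro t ht u hu htu
        have h1 := (split d).symm.injective htu
        have h2 : (t : UnitAddCircle) = (u : UnitAddCircle) := (Prod.ext_iff.1 h1).2
        have h3 := (AddCircle.coe_eq_coe_iff_of_mem_Ico (p := (1 : ℝ)) (a := y)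
          ⟨ht.1.1.le, ht.1.2⟩ ⟨hu.1.1.le, hu.1.2⟩).1 h2
        exact h3
      refine Set.Finite.of_finite_image (hQ.subset ?_) hinj
      rintro _ ⟨t, ht, rfl⟩
      exact ht.2
    have hnot : y ∉ (Ioo y (y + 1) ∩ (fun t : ℝ => (split d).symm (x, (t : UnitAddCircle))) ⁻¹'
        Q) := fun hh => lt_irrefl _ hh.1.1
    have hnh := hfin.isClosed.isOpen_compl.mem_nhds hnot
    obtain ⟨ε, hε, hεs⟩ := Metric.mem_nhds_iff.1 hnh
    refine ⟨min (ε / 2) (1 / 2), by positivity, by
      have := min_le_right (ε / 2) (1 / 2 : ℝ)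
      linarith, ?_⟩
    intro t h1 h2 h3
    have h4 := min_le_left (ε / 2) (1 / 2 : ℝ)
    have h5 := min_le_right (ε / 2) (1 / 2 : ℝ)
    have h6 : t ∈ Metric.ball y ε := by
      rw [Metric.mem_ball, Real.dist_eq, abs_lt]
      constructor <;> linarith
    exact hεs h6 ⟨⟨h1, by linarith⟩, h3⟩
  obtain ⟨s, hs, y', hy1, hy2, hy'⟩ := new_periodic N g (fun i => hSd _) (fun i t => hSp _ t) φ
    (fun i => (hψ1.differentiable (by simp)).comp (Rigs.diff_cons _)) m y δ hδ
    (by rw [hitr]; exact hy)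
    (by
      intro i _
      rw [hitr]
      refine hψ3 _ ?_
      rw [hz1]
      exact hiQ _)
    (by
      intro i _
      rw [hitr, hder]
      have h1 := hz1 i y
      by_cases h2 : f^[i + 1] p = p
      · exact (hψ4 _ (h1.trans h2)).le
      · refine (hψ5 _ ?_ ?_).ge
        · rw [h1]
          exact hiQ _
        · rw [h1]
          exact h2)
    (by
      refine ⟨N - 1, by omega, ?_⟩
      rw [hitr, hder]
      have h1 := hz1 (N - 1) y
      rw [Nat.sub_add_cancel hN] at h1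
      refine hψ4 _ ?_
      rw [Nat.sub_add_cancel hN]
      exact h1.trans hpN)
    (by rw [hitr']; exact hd1)
    (by
      intro t h1 h2 h3
      rw [hitr] at h3
      refine hδQ t h1 h2 (hPer ⟨N, hN, ?_⟩)
      have h4 : ((t + m : ℝ) : UnitAddCircle) = (t : UnitAddCircle) := by
        have : ((m : ℝ) : UnitAddCircle) = 0 := by
          rw [AddCircle.coe_eq_zero_iff]
          exact ⟨m, by simp⟩
        rw [AddCircle.coe_add, this, add_zero]
      rw [hB, hx, h3, h4]) s₀ hs₀
  obtain ⟨hsm, Θ, hΘ1, hΘ2⟩ := hψ6 s hs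
  have hΘ : ∀ z, toTorus (z + Pi.single 0 (s * ψ z)) = Θ (toTorus z) := hΘ2
  have hΘQ : ∀ q ∈ Q, Θ q = q := by
    intro q hq
    have h1 := hΘ (rep q)
    rw [toTorus_rep, hψ3 (rep q) (by rw [toTorus_rep]; exact hq), mul_zero, Pi.single_zero,
      add_zero, toTorus_rep] at h1
    exact h1.symm
  set g' : ℕ → ℝ → ℝ := fun i y => g i y + s * φ i (g i y) with hg'
  have hC : ∀ i, (fun z => Θ (f z))^[i] ((split d).symm (x, (y' : UnitAddCircle))) =
      (split d).symm (S.T^[i] x, ((itr id g' i y' : ℝ) : UnitAddCircle)) := by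
    intro i
    induction i with
    | zero => rfl
    | succ i ih =>
      have e1 : S.T (S.T^[i] x) = S.T^[i + 1] x := (Function.iterate_succ_apply' S.T i x).symm
      rw [Function.iterate_succ_apply', ih, hA, e1, ← Rigs.toTorus_cons,
        ← hΘ, Rigs.cons_add_single, Rigs.toTorus_cons]
      rfl
  have hcirc' : ((y' + m : ℝ) : UnitAddCircle) = (y' : UnitAddCircle) := by
    have : ((m : ℝ) : UnitAddCircle) = 0 := by
      rw [AddCircle.coe_eq_zero_iff]
      exact ⟨m, by simp⟩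
    rw [AddCircle.coe_add, this, add_zero]
  have hqN : (fun z => Θ (f z))^[N] ((split d).symm (x, (y' : UnitAddCircle))) =
      (split d).symm (x, (y' : UnitAddCircle)) := by
    rw [hC, hx, hy', hcirc']
  obtain ⟨K, hK1, hK2, hK3, hK4⟩ := Rigs.orbit (fun z => Θ (f z)) _ N hN hqN Q
    (fun z hz => by
      show Θ (f z) ∈ Q
      rw [hΘQ _ (hfQ' z hz)]
      exact hfQ' z hz)
  exact hδQ y' hy1 hy2.le (hK4 (h Θ _ hΘ1 hsm hΘ2 hΘQ K hK1.isClosed hK2 hK3))

end Pool.Agent.H637R2.TD
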