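import Pool.Agent.H637R2.TD.S.CLOSE
import Pool.Agent.H637R2.TD.S.PROD
import Pool.Agent.H728R2.OS.S.CRGEN

open Set Filter Topology MeasureTheory

namespace Pool.Agent.H637R2.TD

open Pool.Agent.H728R2.OS

private theorem rigt_omega_comm {X : Type*} [TopologicalSpace X] (f g : X ≃ₜ X)
    (hfg : ∀ x, f (g x) = g (f x)) {x : X} (hx : x ∈ Omega f) : g x ∈ Omega f := by
  intro U hU
  have hU' : g ⁻¹' U ∈ 𝓝 x := g.continuous.continuousAt.preimage_mem_nhds hU
  obtain ⟨n, hn, y, ⟨u, hu, huy⟩, hy⟩ := hx _ hU'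
  have hcomm : ∀ z, f^[n] (g z) = g (f^[n] z) := fun z =>
    (Function.Commute.iterate_left (show Function.Commute f g from hfg) n) z
  refine ⟨n, hn, g y, ⟨g u, hu, ?_⟩, hy⟩
  rw [hcomm, huy]

private theorem rigt_image_omega {X : Type*} [TopologicalSpace X] (f : X ≃ₜ X) :
    f '' Omega f = Omega f := by
  ext y
  constructor
  · rintro ⟨x, hx, rfl⟩
    exact rigt_omega_comm f f (fun _ => rfl) hx
  · intro hy
    exact ⟨f.symm y, rigt_omega_comm f f.symm (by simp) hy, f.apply_symm_apply y⟩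

/-- The points of a finite invariant set are periodic. -/
private theorem rigt_per {X : Type*} [TopologicalSpace X] (f : X ≃ₜ X) (S : Set X)
    (hS : S.Finite) (hfS : ∀ x ∈ S, f x ∈ S) : S ⊆ Per f := by
  intro x hx
  have hit : ∀ n : ℕ, f^[n] x ∈ S := by
    intro n
    induction n with
    | zero => exact hx
    | succ n ih =>
      rw [Function.iterate_succ_apply']
      exact hfS _ ih
  obtain ⟨m, n, hmn, heq⟩ := hS.exists_lt_map_eq_of_forall_mem (f := fun n : ℕ => f^[n] x) hit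
  refine ⟨n - m, Nat.sub_pos_of_lt hmn, ?_⟩
  have h1 : f^[m] (f^[n - m] x) = f^[m] x := by
    rw [← Function.iterate_add_apply, Nat.add_sub_cancel' hmn.le]
    exact heq.symm
  exact (f.injective.iterate m) h1

/-- A closed nonempty forward invariant set of a homeomorphism of a compact space meets the
nonwandering set. -/
private theorem rigt_meet {X : Type*} [TopologicalSpace X] [CompactSpace X] (g : X ≃ₜ X)
    (K : Set X) (hK : IsClosed K) (hne : K.Nonempty) (hm : ∀ x ∈ K, g x ∈ K) :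
    (K ∩ Omega g).Nonempty := by
  obtain ⟨x, hx⟩ := hne
  have hit : ∀ n : ℕ, g^[n] x ∈ K := by
    intro n
    induction n with
    | zero => exact hx
    | succ n ih =>
      rw [Function.iterate_succ_apply']
      exact hm _ ih
  obtain ⟨y, hyK, hy⟩ := hK.isCompact.exists_mapClusterPt_of_frequently
    (l := atTop) (f := fun n : ℕ => g^[n] x) (Eventually.frequently (Eventually.of_forall hit))
  refine ⟨y, hyK, fun U hU => ?_⟩
  have hfr := mapClusterPt_iff_frequently.1 hy U hU
  obtain ⟨m, hmU⟩ := hfr.exists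
  obtain ⟨n, hnm, hnU⟩ := (frequently_atTop'.1 hfr) m
  refine ⟨n - m, Nat.sub_pos_of_lt hnm, g^[n] x, ⟨g^[m] x, hmU, ?_⟩, hnU⟩
  rw [← Function.iterate_add_apply, Nat.sub_add_cancel hnm.le]

/-- An `Ω`-stable diffeomorphism which is approximated by diffeomorphisms with finite nonwandering
set is rigid. -/
theorem rigid_top {d : ℕ} {r : ℕ∞} (f : Torus d ≃ₜ Torus d)
    (hf : IsFlagDiffeo r f) (hs : OmegaStable toTorus r f)
    (hdens : ∀ k : ℕ, (k : ℕ∞) ≤ r → ∀ ε : ℝ, 0 < ε → ∃ g : Torus d ≃ₜ Torus d,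
      IsDiffeo toTorus r g ∧ CkClose toTorus k ε f g ∧ (Omega g).Finite) :
    (Omega f).Finite ∧ f '' Omega f = Omega f ∧
      ∃ (k : ℕ) (η : ℝ), 0 < η ∧ Rigid k η f (Omega f) := by
  obtain ⟨k, hk, ε, hε, H⟩ := hs
  have hfin : (Omega f).Finite := by
    obtain ⟨g, hg1, hg2, hg3⟩ := hdens k hk ε hε
    obtain ⟨h, -⟩ := H g hg1 hg2
    have : Finite (Omega g) := hg3.to_subtype
    have : Finite (Omega f) := Finite.of_equiv _ h.toEquiv.symm
    exact Set.toFinite _
  have himg : f '' Omega f = Omega f := rigt_image_omega f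
  obtain ⟨η, hη, hclose⟩ := close_of_small f hf.diffeo k hk ε hε
  refine ⟨hfin, himg, k, η, hη, ?_⟩
  intro Θ U hΘ hU hlift hfix K hKc hKn hKm
  have hg : IsFlagDiffeo r (f.trans Θ) := hf.comp (hΘ.of_le le_top)
  obtain ⟨h, -⟩ := H (f.trans Θ) hg.diffeo (hclose U Θ hU hlift)
  have hgm : ∀ x ∈ Omega f, (f.trans Θ) x ∈ Omega f := by
    intro x hx
    have h1 : f x ∈ Omega f := himg ▸ mem_image_of_mem f hx
    change Θ (f x) ∈ Omega f
    rw [hfix _ h1]
    exact h1
  have hsub : Omega f ⊆ Omega (f.trans Θ) :=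
    (rigt_per (f.trans Θ) (Omega f) hfin hgm).trans (per_subset_omega _)
  have : Finite (Omega f) := hfin.to_subtype
  have hfin' : Finite (Omega (f.trans Θ)) := Finite.of_equiv _ h.toEquiv
  have hcard : (Omega (f.trans Θ)).ncard = (Omega f).ncard :=
    (Nat.card_congr h.toEquiv).symm
  have heq : Omega f = Omega (f.trans Θ) :=
    Set.eq_of_subset_of_ncard_le hsub hcard.le (Set.toFinite _)
  rw [heq]
  exact rigt_meet (f.trans Θ) K hKc hKn fun x hx => hKm hx

end Pool.Agent.H637R2.TD
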