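import Pool.Agent.H637R2.TD.Base

open Set Filter Topology MeasureTheory

namespace Pool.Agent.H637R2.TD

open Pool.Agent.H728R2.OS

namespace SARDaux

theorem mono_add {u : ℝ → ℝ} (hu : Differentiable ℝ u) (hu1 : ∀ y, -1 < deriv u y) :
    StrictMono (fun y => y + u y) := by
  refine strictMono_of_deriv_pos fun y => ?_
  have h : HasDerivAt (fun y => y + u y) (1 + deriv u y) y :=
    (hasDerivAt_id y).add (hu y).hasDerivAt
  rw [h.deriv]
  have := hu1 y
  linarith

theorem diff_itr {g : ℕ → ℝ → ℝ} {Φ : ℝ → ℝ} (hg : ∀ i, Differentiable ℝ (g i))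
    (hΦ : Differentiable ℝ Φ) (n : ℕ) : Differentiable ℝ (itr Φ g n) := by
  induction n with
  | zero => exact differentiable_id
  | succ n ih => exact hΦ.comp ((hg n).comp ih)

theorem mono_rot {g : ℕ → ℝ → ℝ} {Φ : ℝ → ℝ} (hg : ∀ i, StrictMono (g i)) (hΦ : StrictMono Φ)
    {θ θ' : ℝ} (h : θ ≤ θ') (y : ℝ) (n : ℕ) :
    itr (fun y => Φ y + θ) g n y ≤ itr (fun y => Φ y + θ') g n y := by
  induction n with
  | zero => exact le_refl _
  | succ n ih =>
    have h1 : Φ (g n (itr (fun y => Φ y + θ) g n y)) ≤ Φ (g n (itr (fun y => Φ y + θ') g n y)) :=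
      hΦ.monotone ((hg n).monotone ih)
    exact add_le_add h1 h

theorem rot_ge {g : ℕ → ℝ → ℝ} {Φ : ℝ → ℝ} (hg : ∀ i, StrictMono (g i)) (hΦ : StrictMono Φ)
    {θ θ' : ℝ} (h : θ ≤ θ') (y : ℝ) (n : ℕ) (hn : 0 < n) :
    itr (fun y => Φ y + θ) g n y + (θ' - θ) ≤ itr (fun y => Φ y + θ') g n y := by
  obtain ⟨n, rfl⟩ := Nat.exists_eq_succ_of_ne_zero hn.ne'
  have h1 : Φ (g n (itr (fun y => Φ y + θ) g n y)) ≤ Φ (g n (itr (fun y => Φ y + θ') g n y)) :=
    hΦ.monotone ((hg n).monotone (mono_rot hg hΦ h y n))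
  change Φ (g n (itr (fun y => Φ y + θ) g n y)) + θ + (θ' - θ) ≤
    Φ (g n (itr (fun y => Φ y + θ') g n y)) + θ'
  linarith

theorem rot_abs {g : ℕ → ℝ → ℝ} {Φ : ℝ → ℝ} (hg : ∀ i, StrictMono (g i)) (hΦ : StrictMono Φ)
    (θ θ' : ℝ) (y : ℝ) (n : ℕ) (hn : 0 < n) :
    |θ' - θ| ≤ |itr (fun y => Φ y + θ') g n y - itr (fun y => Φ y + θ) g n y| := by
  rcases le_total θ θ' with h | h
  · have := rot_ge hg hΦ h y n hn
    rw [abs_of_nonneg (by linarith), abs_of_nonneg (by linarith)]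
    linarith
  · have := rot_ge hg hΦ h y n hn
    rw [abs_of_nonpos (by linarith), abs_of_nonpos (by linarith)]
    linarith

end SARDaux

open SARDaux in
/-- For almost every rotation `θ` all solutions of `H_θ(z) = z + m` are simple. -/
theorem sard (g : ℕ → ℝ → ℝ) (N : ℕ) (hg : IsCycle g N) (u : ℝ → ℝ) (hu : Differentiable ℝ u)
    (hu1 : ∀ y, -1 < deriv u y) (n : ℕ) (hn : 0 < n) (m : ℤ) :
    volume {θ : ℝ | ∃ z, itr (fun y => y + u y + θ) g n z = z + m ∧
      deriv (itr (fun y => y + u y + θ) g n) z = 1} = 0 := by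
  classical
  have hgm : ∀ i, StrictMono (g i) := fun i => strictMono_of_deriv_pos (hg.dpos i)
  have hΦ := mono_add hu hu1
  have hrot : ∀ θ θ' y : ℝ, |θ' - θ| ≤
      |itr (fun y => y + u y + θ') g n y - itr (fun y => y + u y + θ) g n y| :=
    fun θ θ' y => rot_abs (Φ := fun y => y + u y) hgm hΦ θ θ' y n hn
  have hdiff : ∀ θ, Differentiable ℝ (itr (fun y => y + u y + θ) g n) := fun θ =>
    diff_itr hg.diff ((differentiable_id.add hu).add_const θ) n
  set A : ℝ → ℝ → ℝ := fun θ => itr (fun y => y + u y + θ) g n with hA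
  let P : ℝ → ℝ → Prop := fun z θ => A θ z = z + m ∧ deriv (A θ) z = 1
  let Z : Set ℝ := {z | ∃ θ, P z θ}
  let t : ℝ → ℝ := fun z => if h : ∃ θ, P z θ then h.choose else 0
  have ht : ∀ z ∈ Z, P z (t z) := by
    intro z hz
    have hz' : ∃ θ, P z θ := hz
    have : t z = hz'.choose := dif_pos hz'
    rw [this]
    exact hz'.choose_spec
  have hsub : {θ : ℝ | ∃ z, A θ z = z + m ∧ deriv (A θ) z = 1} ⊆ t '' Z := by
    rintro θ ⟨z, hz⟩
    have hzZ : z ∈ Z := ⟨θ, hz⟩
    refine ⟨z, hzZ, ?_⟩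
    have h1 := hrot (t z) θ z
    have h2 : A θ z - A (t z) z = 0 := by rw [hz.1, (ht z hzZ).1, sub_self]
    have h3 : |θ - t z| ≤ |A θ z - A (t z) z| := h1
    rw [h2, abs_zero] at h3
    have h4 := abs_nonpos_iff.mp h3
    linarith
  refine measure_mono_null hsub ?_
  refine addHaar_image_eq_zero_of_det_fderivWithin_eq_zero (f' := fun _ => 0) volume ?_ ?_
  · intro z hz
    obtain ⟨hz1, hz2⟩ := ht z hz
    have hD : HasDerivAt (fun y => A (t z) y - y - m) 0 z := by
      have h1 : HasDerivAt (A (t z)) 1 z := by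
        have := (hdiff (t z) z).hasDerivAt
        rwa [show deriv (itr (fun y => y + u y + t z) g n) z = 1 from hz2] at this
      have h2 := (h1.sub (hasDerivAt_id z)).sub_const (m : ℝ)
      simpa using h2
    rw [hasDerivAt_iff_isLittleO] at hD
    have hD0 : A (t z) z - z - m = 0 := by rw [hz1]; ring
    rw [hasFDerivWithinAt_iff_isLittleO]
    have hD' : (fun x' => A (t z) x' - x' - m) =o[𝓝[Z] z] fun x' => x' - z := by
      refine (hD.mono nhdsWithin_le_nhds).congr_left fun x' => ?_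
      rw [hD0]
      simp
    refine Asymptotics.IsBigO.trans_isLittleO ?_ hD'
    refine Asymptotics.IsBigO.of_bound 1 ?_
    filter_upwards [self_mem_nhdsWithin] with z' hz'
    have h1 : |t z' - t z| ≤ |A (t z') z' - A (t z) z'| := hrot (t z) (t z') z'
    rw [(ht z' hz').1] at h1
    have h2 : |(z' + m : ℝ) - A (t z) z'| = |A (t z) z' - z' - m| := by
      rw [← abs_neg]
      congr 1
      ring
    rw [h2] at h1
    simpa using h1
  · intro z _
    simp [ContinuousLinearMap.det]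

end Pool.Agent.H637R2.TD
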