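import Pool.Agent.H637R2.TD.S.CONV1
import Pool.Agent.H637R2.TD.S.PERF

open Set Filter Topology MeasureTheory

namespace Pool.Agent.H637R2.TD

open Pool.Agent.H728R2.OS

namespace Skew

theorem tendsto_dist_uc {Y Z : Type*} [MetricSpace Y] [MetricSpace Z] {G : Y → Z}
    (hG : UniformContinuous G) {a b : ℕ → Y}
    (h : Tendsto (fun n => dist (a n) (b n)) atTop (𝓝 0)) :
    Tendsto (fun n => dist (G (a n)) (G (b n))) atTop (𝓝 0) := by
  have h1 : Tendsto (fun n => (a n, b n)) atTop (uniformity Y) :=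
    tendsto_uniformity_iff_dist_tendsto_zero.mpr h
  have h2 : Tendsto (fun n => (G (a n), G (b n))) atTop (uniformity Z) :=
    Filter.Tendsto.comp (show Tendsto (fun x : Y × Y => (G x.1, G x.2)) (uniformity Y) (uniformity Z) from hG) h1
  exact tendsto_uniformity_iff_dist_tendsto_zero.mp h2

theorem tendsto_dist_trans {Y : Type*} [MetricSpace Y] {a b c : ℕ → Y}
    (h1 : Tendsto (fun n => dist (a n) (b n)) atTop (𝓝 0))
    (h2 : Tendsto (fun n => dist (b n) (c n)) atTop (𝓝 0)) :
    Tendsto (fun n => dist (a n) (c n)) atTop (𝓝 0) := by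
  have h3 := h1.add h2
  rw [add_zero] at h3
  exact squeeze_zero (fun n => dist_nonneg) (fun n => dist_triangle _ _ _) h3

theorem tendsto_dist_symm {Y : Type*} [MetricSpace Y] {a b : ℕ → Y}
    (h1 : Tendsto (fun n => dist (a n) (b n)) atTop (𝓝 0)) :
    Tendsto (fun n => dist (b n) (a n)) atTop (𝓝 0) := by
  simpa only [dist_comm] using h1

/-- iterates of an asymptotic pseudo-orbit -/
theorem pseudo_iter {Y : Type*} [MetricSpace Y] {F : Y → Y} (hF : UniformContinuous F) {z : ℕ → Y}
    (hz : Tendsto (fun n => dist (F (z n)) (z (n + 1))) atTop (𝓝 0)) (j : ℕ) :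
    Tendsto (fun n => dist (F^[j] (z n)) (z (n + j))) atTop (𝓝 0) := by
  induction j with
  | zero => simp
  | succ j ih =>
    have h1 := tendsto_dist_uc hF ih
    have h2 : Tendsto (fun n => dist (F (z (n + j))) (z (n + j + 1))) atTop (𝓝 0) :=
      hz.comp (tendsto_add_atTop_nat j)
    have h3 := tendsto_dist_trans h1 h2
    refine h3.congr fun n => ?_
    rw [Function.iterate_succ_apply', add_assoc]

theorem tendsto_of_residues {N : ℕ} (hN : 0 < N) {u : ℕ → ℝ}
    (h : ∀ j, Tendsto (fun n => u (n * N + j)) atTop (𝓝 0)) : Tendsto u atTop (𝓝 0) := by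
  rw [Metric.tendsto_atTop]
  intro ε hε
  have h1 : ∀ j, ∃ M, ∀ n ≥ M, dist (u (n * N + j)) 0 < ε := fun j =>
    (Metric.tendsto_atTop.mp (h j)) ε hε
  choose M hM using h1
  refine ⟨N * (Finset.range N).sup M, fun k hk => ?_⟩
  have h2 : (Finset.range N).sup M ≤ k / N := by
    rw [Nat.le_div_iff_mul_le hN, mul_comm]
    exact hk
  have h3 : M (k % N) ≤ (Finset.range N).sup M :=
    Finset.le_sup (f := M) (Finset.mem_range.mpr (Nat.mod_lt _ hN))
  have h4 := hM (k % N) (k / N) (h3.trans h2)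
  rwa [Nat.div_add_mod'] at h4

end Skew

open Skew in
/-- The skew product inherits `Conv` from the base. -/
theorem conv_skew {X : Type*} [MetricSpace X] [CompactSpace X] (S : FiberSys X) (hT : Conv S.T)
    (h : ∀ x n, 0 < n → S.T^[n] x = x → ∃ (N : ℕ) (m : ℤ), 0 < N ∧ S.T^[N] x = x ∧
      SignChange (S.it x N) m ∧ {y | y ∈ Icc (0 : ℝ) 1 ∧ S.it x N y = y + m}.Finite) :
    Conv S.map := by
  refine ⟨per_finite S hT.1 h, ?_⟩
  intro z hz
  have hcF : Continuous S.map := S.cont_map
  have hF : UniformContinuous S.map := CompactSpace.uniformContinuous_of_continuous hcF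
  have hFj : ∀ j, UniformContinuous (S.map^[j]) := fun j =>
    CompactSpace.uniformContinuous_of_continuous (hcF.iterate j)
  have h1 := pseudo_iter hF hz
  have hx : Tendsto (fun n => dist (S.T (z n).1) (z (n + 1)).1) atTop (𝓝 0) := by
    refine squeeze_zero (fun n => dist_nonneg) (fun n => ?_) hz
    rw [Prod.dist_eq]
    exact le_max_left _ _
  obtain ⟨p, n0, hn0, hp, hlim⟩ := hT.2 (fun n => (z n).1) hx
  obtain ⟨N, m, hN, hpN, hs, hfin⟩ := h p n0 hn0 hp
  have hper : ∀ n, S.T^[n * N] p = p := by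
    intro n
    have : Function.IsPeriodicPt S.T N p := hpN
    exact this.const_mul n
  have hmul : Tendsto (fun n : ℕ => n * N) atTop atTop :=
    tendsto_atTop_mono (fun n => Nat.le_mul_of_pos_right n hN) tendsto_id
  have h2 : Tendsto (fun n => dist (z (n * N)) (p, (z (n * N)).2)) atTop (𝓝 0) := by
    have h3 : Tendsto (fun n => dist (z (n * N)).1 (S.T^[n * N] p)) atTop (𝓝 0) :=
      hlim.comp hmul
    refine h3.congr fun n => ?_
    rw [Prod.dist_eq, dist_self, hper]
    exact (max_eq_left dist_nonneg).symm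
  have h3 : Tendsto (fun n => dist (S.map^[N] (p, (z (n * N)).2)) (z ((n + 1) * N))) atTop
      (𝓝 0) := by
    have e1 := tendsto_dist_uc (hFj N) (tendsto_dist_symm h2)
    have e2 : Tendsto (fun n => dist (S.map^[N] (z (n * N))) (z (n * N + N))) atTop (𝓝 0) :=
      (h1 N).comp hmul
    refine (tendsto_dist_trans e1 e2).congr fun n => ?_
    rw [Nat.succ_mul]
  have hl : ∀ y : ℝ, ((S.it p N y : ℝ) : UnitAddCircle) =
      (fun c : Circ => (S.map^[N] (p, c)).2) (y : UnitAddCircle) := by
    intro y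
    simp only []
    rw [S.map_iterate]
  have hy : Tendsto (fun n => dist ((fun c : Circ => (S.map^[N] (p, c)).2) (z (n * N)).2)
      ((z ((n + 1) * N)).2)) atTop (𝓝 0) := by
    refine squeeze_zero (fun n => dist_nonneg) (fun n => ?_) h3
    rw [Prod.dist_eq]
    exact le_max_right _ _
  obtain ⟨t, ht, hct⟩ := circle_conv (fun c : Circ => (S.map^[N] (p, c)).2) (S.it p N) hl
    (S.it_cont p N) (S.it_mono p N).monotone (S.it_deg p N) m hs hfin
    (fun n => (z (n * N)).2) hy
  have hq : S.map^[N] (p, (t : UnitAddCircle)) = (p, (t : UnitAddCircle)) := by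
    rw [S.map_iterate, hpN, ht, AddCircle.coe_add]
    have : ((m : ℝ) : UnitAddCircle) = 0 := by
      rw [AddCircle.coe_eq_zero_iff]
      exact ⟨m, by simp⟩
    rw [this, add_zero]
  refine ⟨(p, (t : UnitAddCircle)), N, hN, hq, ?_⟩
  have hqn : ∀ n, S.map^[n * N] (p, (t : UnitAddCircle)) = (p, (t : UnitAddCircle)) := by
    intro n
    have : Function.IsPeriodicPt S.map N (p, (t : UnitAddCircle)) := hq
    exact this.const_mul n
  have h4 : Tendsto (fun n => dist (z (n * N)) (p, (t : UnitAddCircle))) atTop (𝓝 0) := by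
    refine tendsto_dist_trans h2 ?_
    refine hct.congr fun n => ?_
    rw [Prod.dist_eq, dist_self]
    exact (max_eq_right dist_nonneg).symm
  refine tendsto_of_residues hN fun j => ?_
  have e1 : Tendsto (fun n => dist (z (n * N + j)) (S.map^[j] (z (n * N)))) atTop (𝓝 0) :=
    tendsto_dist_symm ((h1 j).comp hmul)
  have e2 := tendsto_dist_uc (hFj j) h4
  refine (tendsto_dist_trans e1 e2).congr fun n => ?_
  rw [add_comm (n * N) j, Function.iterate_add_apply, hqn]

end Pool.Agent.H637R2.TD
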