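import Pool.Agent.H637R2.TD.Base

open Set Filter Topology MeasureTheory

namespace Pool.Agent.H637R2.TD

open Pool.Agent.H728R2.OS

private theorem usc_min {α : Type*} [DecidableEq α] (t : Finset α) (e : α → ℝ)
    (he : ∀ x ∈ t, 0 < e x) : ∃ ε : ℝ, 0 < ε ∧ ∀ x ∈ t, ε ≤ e x := by
  induction t using Finset.induction_on with
  | empty => exact ⟨1, one_pos, by simp⟩
  | insert a t _ ih =>
    obtain ⟨ε, hε, h⟩ := ih fun x hx => he x (Finset.mem_insert_of_mem hx)
    refine ⟨min ε (e a), lt_min hε (he a (Finset.mem_insert_self a t)), fun x hx => ?_⟩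
    rcases Finset.mem_insert.1 hx with rfl | hx
    · exact min_le_right _ _
    · exact (min_le_left _ _).trans (h x hx)

/-- Upper semicontinuity of the chain recurrent set. -/
theorem chainRec_usc {X : Type*} [MetricSpace X] [CompactSpace X] (f : X ≃ₜ X) (V : Set X)
    (hV : IsOpen V) (h : ChainRec f ⊆ V) :
    ∃ ε : ℝ, 0 < ε ∧ ∀ g : X ≃ₜ X, (∀ x, dist (f x) (g x) < ε) → ChainRec g ⊆ V := by
  classical
  have h1 : ∀ x ∈ Vᶜ, ∃ e : ℝ, 0 < e ∧ ∀ (n : ℕ) (c : ℕ → X), 0 < n → c 0 = x → c n = x →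
      ∃ i < n, e ≤ dist (f (c i)) (c (i + 1)) := by
    intro x hx
    have hx' : x ∉ ChainRec f := fun hx' => hx (h hx')
    by_contra hcon
    push Not at hcon
    exact hx' fun ε hε => by
      obtain ⟨n, c, hn, h0, hcn, hc⟩ := hcon ε hε
      exact ⟨n, c, hn, h0, hcn, hc⟩
  have h2 : ∀ x : X, ∃ e : ℝ, ∃ r : ℝ, 0 < e ∧ 0 < r ∧ r ≤ e / 4 ∧
      (∀ y, dist y x < r → dist (f y) (f x) < e / 4) ∧ (x ∈ Vᶜ → ∀ (n : ℕ) (c : ℕ → X), 0 < n →
        c 0 = x → c n = x → ∃ i < n, e ≤ dist (f (c i)) (c (i + 1))) := by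
    intro x
    obtain ⟨e, he, hch⟩ : ∃ e : ℝ, 0 < e ∧ (x ∈ Vᶜ → ∀ (n : ℕ) (c : ℕ → X), 0 < n →
        c 0 = x → c n = x → ∃ i < n, e ≤ dist (f (c i)) (c (i + 1))) := by
      by_cases hx : x ∈ Vᶜ
      · obtain ⟨e, he, hch⟩ := h1 x hx
        exact ⟨e, he, fun _ => hch⟩
      · exact ⟨1, one_pos, fun hx' => absurd hx' hx⟩
    obtain ⟨δ, hδ, hcont⟩ := Metric.continuousAt_iff.1 f.continuous.continuousAt (e / 4)
      (by positivity : (0 : ℝ) < e / 4)
    refine ⟨e, min δ (e / 4), he, lt_min hδ (by positivity), min_le_right _ _, fun y hy => ?_, hch⟩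
    exact hcont (lt_of_lt_of_le hy (min_le_left _ _))
  choose e r he hr hre hcont hch using h2
  obtain ⟨t, htV, htc⟩ := hV.isClosed_compl.isCompact.elim_nhds_subcover
    (fun x => Metric.ball x (r x)) fun x _ => Metric.ball_mem_nhds x (hr x)
  obtain ⟨ε, hε, hεt⟩ := usc_min t (fun x => e x / 4) fun x _ => by
    have := he x
    positivity
  refine ⟨ε, hε, fun g hg y hy => ?_⟩
  by_contra hyV
  obtain ⟨x, hxt, hyx⟩ := mem_iUnion₂.1 (htc hyV)
  rw [Metric.mem_ball] at hyx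
  have hex := he x
  obtain ⟨n, c, hn, hc0, hcn, hc⟩ := hy (e x / 4) (by positivity)
  obtain ⟨i, hi, hie⟩ := hch x (htV x hxt) n (fun i => if i = 0 ∨ i = n then x else c i) hn
    (by simp) (by simp)
  have hεx : ε ≤ e x / 4 := hεt x hxt
  have hrx := hre x
  have k1 : dist (f (if i = 0 ∨ i = n then x else c i)) (g (c i)) < e x / 4 + e x / 4 := by
    by_cases h0 : i = 0
    · subst h0
      simp only [true_or, if_true]
      rw [hc0]
      have a1 := hcont x y hyx
      have a2 := hg y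
      have a3 := dist_triangle (f x) (f y) (g y)
      rw [dist_comm (f x) (f y)] at a3
      linarith
    · rw [if_neg (by omega)]
      have a2 := hg (c i)
      linarith
  have k2 := hc i hi
  have k3 : dist (c (i + 1)) (if i + 1 = 0 ∨ i + 1 = n then x else c (i + 1)) < e x / 4 := by
    by_cases h0 : i + 1 = n
    · rw [if_pos (Or.inr h0), h0, hcn]
      linarith
    · rw [if_neg (by omega), dist_self]
      positivity
  have k4 := dist_triangle (f (if i = 0 ∨ i = n then x else c i)) (g (c i))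
    (if i + 1 = 0 ∨ i + 1 = n then x else c (i + 1))
  have k5 := dist_triangle (g (c i)) (c (i + 1))
    (if i + 1 = 0 ∨ i + 1 = n then x else c (i + 1))
  linarith

end Pool.Agent.H637R2.TD
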